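import Pool.Agent.H38.CE.Block

set_option autoImplicit false
set_option linter.unusedSectionVars false

/-!
# Assembling the translates of the base circuits
-/

namespace Pool.Agent.H38.CE

open Finset

/-- circuits in an additive group -/
def IsCirc {W : Type} [AddCommGroup W] (C : Finset W) : Prop :=
  C.Nonempty ∧ ∑ v ∈ C, v = 0 ∧ ∀ D : Finset W, D ⊂ C → D.Nonempty → ∑ v ∈ D, v ≠ 0

theorem IsCirc.image {W W' : Type} [AddCommGroup W] [AddCommGroup W'] [DecidableEq W']
    {C : Finset W} (hC : IsCirc C) (f : W →+ W') (hf : Function.Injective f) :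
    IsCirc (C.image f) := by
  classical
  refine ⟨hC.1.image f, ?_, ?_⟩
  · rw [sum_image fun x _ y _ h => hf h, ← map_sum, hC.2.1, map_zero]
  · intro D hD hDn hs
    set I := C.filter fun x => f x ∈ D with hI
    have hDI : D = I.image f := by
      ext v
      constructor
      · intro hv
        obtain ⟨x, hx, rfl⟩ := mem_image.1 (hD.1 hv)
        exact mem_image_of_mem _ (mem_filter.2 ⟨hx, hv⟩)
      · intro hv
        obtain ⟨x, hx, rfl⟩ := mem_image.1 hv
        exact (mem_filter.1 hx).2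
    have hne : I.Nonempty := by
      obtain ⟨v, hv⟩ := hDn
      rw [hDI] at hv
      obtain ⟨x, hx, -⟩ := mem_image.1 hv
      exact ⟨x, hx⟩
    have hss : I ⊂ C := by
      refine ⟨filter_subset _ _, fun h => hD.2 ?_⟩
      rw [hDI]
      exact image_subset_image h
    apply hC.2.2 I hss hne
    rw [hDI, sum_image fun x _ y _ h => hf h, ← map_sum] at hs
    exact hf (hs.trans (map_zero f).symm)

variable {F : Type} [Field F] [Fintype F] [DecidableEq F] [Algebra (ZMod 2) F]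
variable {g : F} {h N : ℕ}
variable {Y : Type} [AddCommGroup Y] [Module (ZMod 2) Y] [Fintype Y] [DecidableEq Y]

/-- the translate of a base circuit -/
def ZZ (N : ℕ) (x : Y → ℕ → F) (y : Y → ℕ → Y) (p : Y × F) : Finset (F × Y) :=
  (range N).image fun j => (p.2 * x p.1 j, y p.1 j)

theorem ZZ_circ (S : Sub g h N) (x : Y → ℕ → F) (y : Y → ℕ → Y)
    (hx : ∀ k, ∀ j < N, x k j ∈ Cl g h j)
    (htot : ∀ k, ∑ j ∈ range N, ((x k j, y k j) : F × Y) = 0)
    (hmin : ∀ k, ∀ I ⊆ range N, ∑ j ∈ I, ((x k j, y k j) : F × Y) = 0 → I = ∅ ∨ I = range N)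
    (k : Y) {u : F} (hu : u ∈ Cl g h 0) : IsCirc (ZZ N x y (k, u)) := by
  classical
  have hu0 : u ≠ 0 := (mem_Cl.1 hu).1
  set f : ℕ → F × Y := fun j => (u * x k j, y k j) with hf
  have hinj : ∀ i ∈ range N, ∀ j ∈ range N, f i = f j → i = j := by
    intro i hi j hj hij
    have h1 := congrArg Prod.fst hij
    simp only [hf] at h1
    have h2 := mul_left_cancel₀ hu0 h1
    exact S.cl_unique (mem_range.1 hi) (mem_range.1 hj) (hx k i (mem_range.1 hi))
      (by rw [h2]; exact hx k j (mem_range.1 hj))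
  have hzero : ∀ I ⊆ range N, (∑ j ∈ I, f j = 0 ↔ ∑ j ∈ I, ((x k j, y k j) : F × Y) = 0) := by
    intro I _
    have e1 : (∑ j ∈ I, f j).1 = u * ∑ j ∈ I, x k j := by
      rw [Prod.fst_sum, mul_sum]
    have e2 : (∑ j ∈ I, f j).2 = ∑ j ∈ I, y k j := by
      rw [Prod.snd_sum]
    have e3 : (∑ j ∈ I, ((x k j, y k j) : F × Y)).1 = ∑ j ∈ I, x k j := by rw [Prod.fst_sum]
    have e4 : (∑ j ∈ I, ((x k j, y k j) : F × Y)).2 = ∑ j ∈ I, y k j := by rw [Prod.snd_sum]
    rw [Prod.ext_iff, Prod.ext_iff, e1, e2, e3, e4]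
    simp [hu0]
  refine ⟨?_, ?_, ?_⟩
  · exact ⟨f 0, mem_image_of_mem _ (mem_range.2 S.Npos)⟩
  · change ∑ v ∈ (range N).image f, v = 0
    rw [sum_image hinj, hzero _ (Subset.refl _)]
    exact htot k
  · intro D hD hDn hs
    set I := (range N).filter fun j => f j ∈ D with hI
    have hIr : I ⊆ range N := filter_subset _ _
    have hDI : D = I.image f := by
      ext v
      constructor
      · intro hv
        obtain ⟨j, hj, rfl⟩ := mem_image.1 (hD.1 hv)
        exact mem_image_of_mem _ (mem_filter.2 ⟨hj, hv⟩)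
      · intro hv
        obtain ⟨j, hj, rfl⟩ := mem_image.1 hv
        exact (mem_filter.1 hj).2
    rw [hDI, sum_image fun i hi j hj hij => hinj i (hIr hi) j (hIr hj) hij, hzero I hIr] at hs
    rcases hmin k I hIr hs with h1 | h1
    · obtain ⟨v, hv⟩ := hDn
      rw [hDI, h1] at hv
      simp at hv
    · apply hD.2
      rw [hDI, h1]
      exact Subset.refl _

theorem ZZ_unique (S : Sub g h N) (x : Y → ℕ → F) (y : Y → ℕ → Y)
    (hx : ∀ k, ∀ j < N, x k j ∈ Cl g h j)
    (hy : ∀ j < N, Function.Bijective (fun k => y k j)) {a : F} (ha : a ≠ 0) (b : Y) :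
    ∃ p ∈ (univ : Finset Y) ×ˢ Cl g h 0, (a, b) ∈ ZZ N x y p ∧
      ∀ p' ∈ (univ : Finset Y) ×ˢ Cl g h 0, (a, b) ∈ ZZ N x y p' → p' = p := by
  obtain ⟨j, hj, haj⟩ := S.exists_cl ha
  obtain ⟨k, hk⟩ := (hy j hj).2 b
  simp only at hk
  have hxk := hx k j hj
  have hxk0 : x k j ≠ 0 := (mem_Cl.1 hxk).1
  refine ⟨(k, a / x k j), mem_product.2 ⟨mem_univ _, div_cl haj hxk⟩, ?_, ?_⟩
  · refine mem_image.2 ⟨j, mem_range.2 hj, ?_⟩
    simp only
    rw [div_mul_cancel₀ _ hxk0, hk]
  · rintro ⟨k', u'⟩ hp' hmem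
    obtain ⟨j', hj', he⟩ := mem_image.1 hmem
    simp only [Prod.mk.injEq] at he
    have hu' := (mem_product.1 hp').2
    have hj'N := mem_range.1 hj'
    have h1 : a ∈ Cl g h j' := by
      rw [← he.1]
      exact mul_cl hu' (hx k' j' hj'N)
    have h2 : j' = j := S.cl_unique hj'N hj h1 haj
    subst h2
    have h3 : k' = k := (hy j' hj).1 (he.2.trans hk.symm)
    subst h3
    refine Prod.ext rfl ?_
    simp only
    rw [eq_div_iff hxk0]
    exact he.1

theorem ZZ_fst (x : Y → ℕ → F) (y : Y → ℕ → Y) (hx : ∀ k, ∀ j < N, x k j ∈ Cl g h j)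
    {p : Y × F} (hp : p.2 ∈ Cl g h 0) {w : F × Y} (hw : w ∈ ZZ N x y p) : w.1 ≠ 0 := by
  obtain ⟨j, hj, rfl⟩ := mem_image.1 hw
  exact mul_ne_zero (mem_Cl.1 hp).1 (mem_Cl.1 (hx p.1 j (mem_range.1 hj))).1

/-- the partition -/
theorem exists_partition {W' : Type} [AddCommGroup W'] [Module (ZMod 2) W'] [Fintype W']
    [DecidableEq W'] (S : Sub g h N) (x : Y → ℕ → F) (y : Y → ℕ → Y)
    (hx : ∀ k, ∀ j < N, x k j ∈ Cl g h j)
    (hy : ∀ j < N, Function.Bijective (fun k => y k j))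
    (htot : ∀ k, ∑ j ∈ range N, ((x k j, y k j) : F × Y) = 0)
    (hmin : ∀ k, ∀ I ⊆ range N, ∑ j ∈ I, ((x k j, y k j) : F × Y) = 0 → I = ∅ ∨ I = range N)
    (PY : Finpartition ((univ : Finset Y).erase 0)) (hPY : ∀ C ∈ PY.parts, IsCirc C)
    (e : (F × Y) ≃ₗ[ZMod 2] W') :
    ∃ P : Finpartition ((univ : Finset W').erase 0), (∀ C ∈ P.parts, IsCirc C) ∧
      P.parts.card ≤ Fintype.card Y * h + PY.parts.card := by
  classical
  set inr : Y →+ (F × Y) := AddMonoidHom.inr F Y with hinr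
  have hinri : Function.Injective inr := by
    intro a b hab
    have := congrArg Prod.snd hab
    simpa [hinr] using this
  set parts1 : Finset (Finset (F × Y)) :=
    ((univ : Finset Y) ×ˢ Cl g h 0).image (ZZ N x y) with hp1
  set parts2 : Finset (Finset (F × Y)) := PY.parts.image (fun C => C.image inr) with hp2
  set partsW := parts1 ∪ parts2 with hpW
  have hcirc : ∀ t ∈ partsW, IsCirc t := by
    intro t ht
    rcases mem_union.1 ht with h1 | h1
    · obtain ⟨⟨k, u⟩, hp, rfl⟩ := mem_image.1 h1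
      exact ZZ_circ S x y hx htot hmin k (mem_product.1 hp).2
    · obtain ⟨C, hC, rfl⟩ := mem_image.1 h1
      exact (hPY C hC).image inr hinri
  have hfst1 : ∀ t ∈ parts1, ∀ w ∈ t, w.1 ≠ 0 := by
    intro t ht w hw
    obtain ⟨p, hp, rfl⟩ := mem_image.1 ht
    exact ZZ_fst x y hx (mem_product.1 hp).2 hw
  have hfst2 : ∀ t ∈ parts2, ∀ w ∈ t, w.1 = 0 ∧ w.2 ≠ 0 := by
    intro t ht w hw
    obtain ⟨C, hC, rfl⟩ := mem_image.1 ht
    obtain ⟨b, hb, rfl⟩ := mem_image.1 hw
    have h1 := PY.le hC hb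
    exact ⟨rfl, (mem_erase.1 h1).1⟩
  have hne0 : ∀ t ∈ partsW, (0 : F × Y) ∉ t := by
    intro t ht h0
    rcases mem_union.1 ht with h1 | h1
    · exact hfst1 t h1 0 h0 rfl
    · exact (hfst2 t h1 0 h0).2 rfl
  have huniq : ∀ w : F × Y, w ≠ 0 → ∃ t ∈ partsW, w ∈ t ∧ ∀ t' ∈ partsW, w ∈ t' → t' = t := by
    rintro ⟨a, b⟩ hw
    by_cases ha : a = 0
    · subst ha
      have hb : b ≠ 0 := by
        rintro rfl
        exact hw rfl
      obtain ⟨C, ⟨hC, hbC⟩, hCu⟩ := PY.existsUnique_mem (mem_erase.2 ⟨hb, mem_univ b⟩)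
      refine ⟨C.image inr, mem_union_right _ (mem_image_of_mem _ hC),
        mem_image.2 ⟨b, hbC, rfl⟩, ?_⟩
      intro t' ht' hw'
      rcases mem_union.1 ht' with h1 | h1
      · exact absurd rfl (hfst1 t' h1 _ hw')
      · obtain ⟨C', hC', rfl⟩ := mem_image.1 h1
        obtain ⟨b', hb', he⟩ := mem_image.1 hw'
        have hbb : b' = b := by
          have := congrArg Prod.snd he
          simpa [hinr] using this
        subst hbb
        rw [hCu C' ⟨hC', hb'⟩]
    · obtain ⟨p, hp, hmem, hpu⟩ := ZZ_unique S x y hx hy ha b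
      refine ⟨ZZ N x y p, mem_union_left _ (mem_image_of_mem _ hp), hmem, ?_⟩
      intro t' ht' hw'
      rcases mem_union.1 ht' with h1 | h1
      · obtain ⟨p', hp', rfl⟩ := mem_image.1 h1
        rw [hpu p' hp' hw']
      · exact absurd (hfst2 t' h1 _ hw').1 ha
  -- transport
  set parts : Finset (Finset W') := partsW.image (fun t => t.image e) with hparts
  have hmem : ∀ t : Finset (F × Y), ∀ v : W', v ∈ t.image e ↔ e.symm v ∈ t := by
    intro t v
    rw [mem_image]
    constructor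
    · rintro ⟨w, hw, rfl⟩
      rwa [LinearEquiv.symm_apply_apply]
    · intro hv
      exact ⟨_, hv, LinearEquiv.apply_symm_apply _ _⟩
  refine ⟨Finpartition.ofExistsUnique parts ?_ ?_ ?_, ?_, ?_⟩
  · intro p hp v hv
    obtain ⟨t, ht, rfl⟩ := mem_image.1 hp
    rw [mem_erase]
    refine ⟨?_, mem_univ _⟩
    rintro rfl
    rw [hmem, map_zero] at hv
    exact hne0 t ht hv
  · intro v hv
    have hv0 : e.symm v ≠ 0 := by
      intro h0
      apply (mem_erase.1 hv).1
      have := congrArg e h0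
      rwa [LinearEquiv.apply_symm_apply, map_zero] at this
    obtain ⟨t, ht, hvt, htu⟩ := huniq _ hv0
    refine ⟨t.image e, ⟨mem_image_of_mem _ ht, (hmem t v).2 hvt⟩, ?_⟩
    rintro t' ⟨ht', hvt'⟩
    obtain ⟨s, hs, rfl⟩ := mem_image.1 ht'
    rw [htu s hs ((hmem s v).1 hvt')]
  · intro hempty
    obtain ⟨t, ht, hte⟩ := mem_image.1 hempty
    have := (hcirc t ht).1
    rw [image_eq_empty] at hte
    exact this.ne_empty hte
  · intro C hC
    obtain ⟨t, ht, rfl⟩ := mem_image.1 (show C ∈ parts from hC)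
    exact (hcirc t ht).image e.toLinearMap.toAddMonoidHom e.injective
  · change parts.card ≤ _
    refine le_trans card_image_le (le_trans (card_union_le _ _) (Nat.add_le_add ?_ card_image_le))
    refine le_trans card_image_le ?_
    rw [card_product, card_univ, S.card_cl]

end Pool.Agent.H38.CE
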