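import Pool.Agent.H38.CE.Coset

set_option autoImplicit false
set_option linter.unusedSectionVars false

/-!
# A spanning circuit with prescribed classes
-/

namespace Pool.Agent.H38.CE

open Finset

variable {F : Type} [Field F] [Fintype F] [DecidableEq F] [Algebra (ZMod 2) F]
variable {φ : F →ₗ[ZMod 2] ZMod 2} {g : F} {h N : ℕ}

theorem rep (hφ : φ ≠ 0) (ψ : F →ₗ[ZMod 2] ZMod 2) : ∃ c : F, ∀ x, ψ x = φ (c * x) := by
  set T : F →ₗ[ZMod 2] (F →ₗ[ZMod 2] ZMod 2) := (LinearMap.mul (ZMod 2) F).compr₂ φ with hT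
  have hTa : ∀ c x, T c x = φ (c * x) := fun c x => rfl
  have hinj : Function.Injective T := by
    rw [injective_iff_map_eq_zero]
    intro c hc
    by_contra hne
    apply hφ
    apply LinearMap.ext
    intro z
    have h1 := hTa c (c⁻¹ * z)
    rw [hc, ← mul_assoc, mul_inv_cancel₀ hne, one_mul] at h1
    rw [← h1]
    rfl
  have hsurj : Function.Surjective T := by
    refine (LinearMap.injective_iff_surjective_of_finrank_eq_finrank ?_).1 hinj
    exact (Subspace.dual_finrank_eq (K := ZMod 2) (V := F)).symm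
  obtain ⟨c, hc⟩ := hsurj ψ
  exact ⟨c, fun x => by rw [← hc, hTa]⟩

variable {Y : Type} [AddCommGroup Y] [Module (ZMod 2) Y] [Fintype Y] [DecidableEq Y]

theorem zadd_self (z : ZMod 2) : z + z = 0 := by
  revert z; decide

theorem zeq_of_add {a b : ZMod 2} (h : a + b = 0) : a = b := by
  revert a b; decide

theorem greedy_indep (S : Sub g h N) (hφ : φ ≠ 0) {Q : ℝ} (hQ : 0 ≤ Q)
    (hq : (Fintype.card F : ℝ) = Q ^ 2) (hQh : Q < h) (y : ℕ → Y) (m : ℕ)
    (hm : m ≤ Module.finrank (ZMod 2) F) :
    ∃ x : Fin m → F, (∀ i : Fin m, x i ∈ Cl g h i) ∧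
      LinearIndependent (ZMod 2) (fun i : Fin m => ((x i, y i) : F × Y)) := by
  induction m with
  | zero =>
    exact ⟨fun i => i.elim0, fun i => i.elim0, linearIndependent_empty_type⟩
  | succ m ih =>
    obtain ⟨x, hx, hind⟩ := ih (by omega)
    set v : Fin m → F × Y := fun i => (x i, y i) with hv
    set U := Submodule.span (ZMod 2) (Set.range v) with hU
    have hfin : Module.finrank (ZMod 2) U = m := by
      rw [hU, finrank_span_eq_card hind, Fintype.card_fin]
    have hex : ∃ x' ∈ Cl g h m, ((x', y m) : F × Y) ∉ U := by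
      by_contra hno
      push Not at hno
      obtain ⟨z, hz⟩ : ∃ z : F, ((z, 0) : F × Y) ∉ U := by
        by_contra hall
        push Not at hall
        have h1 : Module.finrank (ZMod 2) F ≤ Module.finrank (ZMod 2) U := by
          have hle : LinearMap.range (LinearMap.inl (ZMod 2) F Y) ≤ U := by
            rintro _ ⟨z, rfl⟩
            exact hall z
          have h2 := Submodule.finrank_mono hle
          rwa [LinearMap.finrank_range_of_inj LinearMap.inl_injective] at h2
        omega
      obtain ⟨μ, hμ1, hμ2⟩ := Submodule.exists_dual_map_eq_bot_of_notMem hz inferInstance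
      obtain ⟨c, hc⟩ := rep hφ (μ ∘ₗ LinearMap.inl (ZMod 2) F Y)
      have hc0 : c ≠ 0 := by
        rintro rfl
        apply hμ1
        have := hc z
        rw [zero_mul, map_zero] at this
        exact this
      have hμU : ∀ w ∈ U, μ w = 0 := by
        intro w hw
        have : μ w ∈ U.map μ := Submodule.mem_map_of_mem hw
        rw [hμ2] at this
        exact (Submodule.mem_bot _).1 this
      have h1 : hat φ (idf (Cl g h m)) c = h * sgn (μ (0, y m)) := by
        rw [hat_idf]
        have h2 : ∀ x' ∈ Cl g h m, ch φ c x' = sgn (μ (0, y m)) := by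
          intro x' hx'
          unfold ch
          rw [← hc x']
          congr 1
          have h3 := hμU _ (hno x' hx')
          have h4 : ((x', y m) : F × Y) = (x', 0) + (0, y m) := by simp
          rw [h4, map_add] at h3
          exact zeq_of_add h3
        rw [sum_congr rfl h2, sum_const, nsmul_eq_mul, S.card_cl]
      have h2 := S.bound hφ hQ hq m c hc0
      rw [h1, abs_mul, abs_sgn, mul_one, abs_of_nonneg (Nat.cast_nonneg h)] at h2
      linarith
    obtain ⟨x', hx', hx'U⟩ := hex
    refine ⟨Fin.snoc x x', ?_, ?_⟩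
    · intro i
      refine Fin.lastCases ?_ (fun i => ?_) i
      · simpa using hx'
      · simpa using hx i
    · have heq : (fun i : Fin (m + 1) => ((Fin.snoc (α := fun _ => F) x x' i, y i) : F × Y))
          = Fin.snoc (α := fun _ => F × Y) v (x', y m) := by
        funext i
        refine Fin.lastCases ?_ (fun i => ?_) i
        · simp
        · simp [hv]
      rw [heq]
      exact linearIndependent_finSnoc.2 ⟨hind, hx'U⟩

/-- a spanning circuit with one element in each class and given second coordinates -/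
theorem block (S : Sub g h N) (hφ : φ ≠ 0) {Q : ℝ} (hQ : 0 ≤ Q)
    (hq : (Fintype.card F : ℝ) = Q ^ 2) (hQh : Q < h)
    (hnum : 9 * Q * h + 16 * Q ^ 3 + 9 * Q ^ 2 < (h : ℝ) ^ 2) (y : ℕ → Y) (n0 : ℕ)
    (hdim : Module.finrank (ZMod 2) F + Module.finrank (ZMod 2) Y = n0 + 2)
    (hn0 : n0 ≤ Module.finrank (ZMod 2) F)
    (hspan : ∀ ν : Y →ₗ[ZMod 2] ZMod 2, (∀ j < n0, ν (y j) = 0) → ν = 0)
    (hsum : ∑ j ∈ range (n0 + 3), y j = 0) :
    ∃ x : ℕ → F, (∀ j < n0 + 3, x j ∈ Cl g h j) ∧
      (∑ j ∈ range (n0 + 3), ((x j, y j) : F × Y) = 0) ∧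
      ∀ I ⊆ range (n0 + 3), ∑ j ∈ I, ((x j, y j) : F × Y) = 0 → I = ∅ ∨ I = range (n0 + 3) := by
  classical
  obtain ⟨x0, hx0, hind⟩ := greedy_indep S hφ hQ hq hQh y n0 hn0
  set v0 : Fin n0 → F × Y := fun i => (x0 i, y i) with hv0
  set U := Submodule.span (ZMod 2) (Set.range v0) with hU
  have hfin : Module.finrank (ZMod 2) U = n0 := by
    rw [hU, finrank_span_eq_card hind, Fintype.card_fin]
  have hquot : Module.finrank (ZMod 2) ((F × Y) ⧸ U) = Module.finrank (ZMod 2) (Fin 2 → ZMod 2) := by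
    have h1 := Submodule.finrank_quotient_add_finrank U
    rw [Module.finrank_prod] at h1
    rw [Module.finrank_fin_fun]
    omega
  set e : ((F × Y) ⧸ U) ≃ₗ[ZMod 2] (Fin 2 → ZMod 2) := LinearEquiv.ofFinrankEq _ _ hquot with he
  set π : (F × Y) →ₗ[ZMod 2] (Fin 2 → ZMod 2) := e.toLinearMap ∘ₗ U.mkQ with hπ
  have hπsurj : Function.Surjective π := by
    intro z
    obtain ⟨w, hw⟩ := U.mkQ_surjective (e.symm z)
    refine ⟨w, ?_⟩
    simp [hπ, hw]
  have hπU : ∀ w, π w = 0 ↔ w ∈ U := by
    intro w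
    simp only [hπ, LinearMap.comp_apply, LinearEquiv.coe_coe]
    rw [LinearEquiv.map_eq_zero_iff, Submodule.mkQ_apply, Submodule.Quotient.mk_eq_zero]
  set μ : Fin 2 → (F × Y) →ₗ[ZMod 2] ZMod 2 := fun i => (LinearMap.proj i) ∘ₗ π with hμ
  have hμU : ∀ w, w ∈ U ↔ (μ 0 w = 0 ∧ μ 1 w = 0) := by
    intro w
    rw [← hπU]
    constructor
    · intro hw
      simp [hμ, hw]
    · rintro ⟨h1, h2⟩
      funext i
      fin_cases i
      · exact h1
      · exact h2
  have hv0U : ∀ i, v0 i ∈ U := fun i => Submodule.subset_span ⟨i, rfl⟩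
  -- functionals vanishing on `U` and on the first factor vanish
  have hvan : ∀ l : (F × Y) →ₗ[ZMod 2] ZMod 2, (∀ w ∈ U, l w = 0) → (∀ x : F, l (x, 0) = 0) →
      l = 0 := by
    intro l hl1 hl2
    have h1 : l ∘ₗ LinearMap.inr (ZMod 2) F Y = 0 := by
      apply hspan
      intro j hj
      have h2 := hl1 _ (hv0U ⟨j, hj⟩)
      have h3 : v0 ⟨j, hj⟩ = (x0 ⟨j, hj⟩, 0) + (0, y j) := by simp [hv0]
      rw [h3, map_add, hl2, zero_add] at h2
      exact h2
    apply LinearMap.ext
    rintro ⟨a, b⟩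
    have h4 : ((a, b) : F × Y) = (a, 0) + (0, b) := by simp
    rw [h4, map_add, hl2, zero_add]
    have := LinearMap.congr_fun h1 b
    exact this
  obtain ⟨c1, hc1⟩ := rep hφ (μ 0 ∘ₗ LinearMap.inl (ZMod 2) F Y)
  obtain ⟨c2, hc2⟩ := rep hφ (μ 1 ∘ₗ LinearMap.inl (ZMod 2) F Y)
  have hc1' : ∀ x, μ 0 (x, 0) = φ (c1 * x) := hc1
  have hc2' : ∀ x, μ 1 (x, 0) = φ (c2 * x) := hc2
  obtain ⟨wa, hwa⟩ := hπsurj ![1, 0]
  obtain ⟨wb, hwb⟩ := hπsurj ![0, 1]
  have ea0 : μ 0 wa = 1 := by simp [hμ, hwa]
  have ea1 : μ 1 wa = 0 := by simp [hμ, hwa]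
  have eb1 : μ 1 wb = 1 := by simp [hμ, hwb]
  have n1 : c1 ≠ 0 := by
    intro hc
    have := hvan (μ 0) (fun w hw => ((hμU w).1 hw).1) (fun x => by rw [hc1', hc, zero_mul, map_zero])
    rw [this] at ea0
    simp at ea0
  have n2 : c2 ≠ 0 := by
    intro hc
    have := hvan (μ 1) (fun w hw => ((hμU w).1 hw).2) (fun x => by rw [hc2', hc, zero_mul, map_zero])
    rw [this] at eb1
    simp at eb1
  have n12 : c1 + c2 ≠ 0 := by
    intro hc
    have := hvan (μ 0 + μ 1) (fun w hw => by
      rw [LinearMap.add_apply, ((hμU w).1 hw).1, ((hμU w).1 hw).2, add_zero]) (fun x => by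
      rw [LinearMap.add_apply, hc1', hc2', ← map_add, ← add_mul, hc, zero_mul, map_zero])
    have h5 : (μ 0 + μ 1) wa = 1 := by rw [LinearMap.add_apply, ea0, ea1, add_zero]
    rw [this] at h5
    simp at h5
  obtain ⟨x', hx'C, hx's, hx'b⟩ := exists_triple hφ (h := h) hQ hq
    (C := fun i : Fin 3 => Cl g h (n0 + i)) (fun i => S.card_cl _)
    (fun i c hc => S.bound hφ hQ hq _ c hc) n1 n2 n12
    (fun i => μ 0 (0, y (n0 + i))) (fun i => μ 1 (0, y (n0 + i))) (∑ i, x0 i) hnum
  have hnU : ∀ i : Fin 3, ((x' i, y (n0 + i)) : F × Y) ∉ U := by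
    intro i hi
    apply hx'b i
    have h4 : ((x' i, y (n0 + i)) : F × Y) = (x' i, 0) + (0, y (n0 + i)) := by simp
    have h5 := (hμU _).1 hi
    rw [h4, map_add, map_add, hc1', hc2'] at h5
    exact ⟨zeq_of_add h5.1, zeq_of_add h5.2⟩
  set x : ℕ → F := fun j => if hj : j < n0 then x0 ⟨j, hj⟩ else if j = n0 then x' 0 else
    if j = n0 + 1 then x' 1 else x' 2 with hx
  have ex : ∀ (j : ℕ) (hj : j < n0), x j = x0 ⟨j, hj⟩ := fun j hj => by
    simp only [hx]; rw [dif_pos hj]
  have e0 : x n0 = x' 0 := by simp [hx]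
  have e1 : x (n0 + 1) = x' 1 := by simp [hx]
  have e2 : x (n0 + 2) = x' 2 := by simp [hx]
  set v : ℕ → F × Y := fun j => (x j, y j) with hv
  have hvU : ∀ j < n0, v j ∈ U := by
    intro j hj
    have : v j = v0 ⟨j, hj⟩ := by simp [hv, hv0, ex j hj]
    rw [this]
    exact hv0U _
  have va : v n0 ∉ U := by
    have := hnU 0
    simp only [hv]
    rw [e0]
    simpa using this
  have vb : v (n0 + 1) ∉ U := by
    have := hnU 1
    simp only [hv]
    rw [e1]
    simpa using this
  have vc : v (n0 + 2) ∉ U := by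
    have := hnU 2
    simp only [hv]
    rw [e2]
    simpa using this
  have htot : ∑ j ∈ range (n0 + 3), v j = 0 := by
    have h1 : ∑ j ∈ range (n0 + 3), x j = 0 := by
      rw [sum_range_succ, sum_range_succ, sum_range_succ, e0, e1, e2]
      have h2 : ∑ j ∈ range n0, x j = ∑ i, x0 i := by
        rw [Finset.sum_range]
        exact sum_congr rfl fun i _ => ex i i.2
      rw [h2, ← hx's]
      have := add_self_F (x' 0 + x' 1 + x' 2)
      rw [← this]; ring
    apply Prod.ext
    · rw [Prod.fst_sum]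
      exact h1
    · rw [Prod.snd_sum]
      exact hsum
  have hsmall : ∀ I ⊆ range n0, ∑ j ∈ I, v j = 0 → I = ∅ := by
    intro I hI hs
    have h1 : ∑ i : Fin n0, (if (i : ℕ) ∈ I then (1 : ZMod 2) else 0) • v0 i = 0 := by
      rw [← hs]
      have h2 : ∑ j ∈ I, v j = ∑ j ∈ range n0, if j ∈ I then v j else 0 := by
        rw [← sum_filter]
        congr 1
        ext j
        rw [mem_filter]
        exact ⟨fun h => ⟨hI h, h⟩, fun h => h.2⟩
      rw [h2, Finset.sum_range]
      refine sum_congr rfl fun i _ => ?_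
      have h3 : v i = v0 i := by simp [hv, hv0, ex i i.2]
      rw [h3]
      split_ifs
      · rw [one_smul]
      · rw [zero_smul]
    have h4 := Fintype.linearIndependent_iff.1 hind _ h1
    rw [eq_empty_iff_forall_notMem]
    intro j hj
    have h5 := h4 ⟨j, mem_range.1 (hI hj)⟩
    simp only at h5
    rw [if_pos hj] at h5
    exact one_ne_zero h5
  have hUsum : ∀ I : Finset ℕ, (∑ j ∈ range n0, if j ∈ I then v j else 0) ∈ U := by
    intro I
    apply Submodule.sum_mem
    intro j hj
    split_ifs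
    · exact hvU j (mem_range.1 hj)
    · exact U.zero_mem
  have habc : v n0 + v (n0 + 1) + v (n0 + 2) ∈ U := by
    rw [sum_range_succ, sum_range_succ, sum_range_succ] at htot
    have h1 : ∑ j ∈ range n0, v j ∈ U :=
      Submodule.sum_mem _ fun j hj => hvU j (mem_range.1 hj)
    have h2 : v n0 + v (n0 + 1) + v (n0 + 2) = - ∑ j ∈ range n0, v j := by
      rw [eq_neg_iff_add_eq_zero, ← htot]; abel
    rw [h2]
    exact U.neg_mem h1
  refine ⟨x, ?_, htot, ?_⟩
  · intro j hj
    rcases Nat.lt_or_ge j n0 with h1 | h1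
    · rw [ex j h1]
      exact hx0 ⟨j, h1⟩
    · have h2 : j = n0 ∨ j = n0 + 1 ∨ j = n0 + 2 := by omega
      rcases h2 with rfl | rfl | rfl
      · rw [e0]; simpa using hx'C 0
      · rw [e1]; simpa using hx'C 1
      · rw [e2]; simpa using hx'C 2
  · intro I hI hs
    have h1 : ∑ j ∈ I, v j = ∑ j ∈ range (n0 + 3), if j ∈ I then v j else 0 := by
      rw [← sum_filter]
      congr 1
      ext j
      rw [mem_filter]
      exact ⟨fun h => ⟨hI h, h⟩, fun h => h.2⟩
    have hs' : ∑ j ∈ I, v j = 0 := hs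
    have h2 := h1
    rw [hs', sum_range_succ, sum_range_succ, sum_range_succ] at h2
    have hu := hUsum I
    by_cases m0 : n0 ∈ I <;> by_cases m1 : n0 + 1 ∈ I <;> by_cases m2 : n0 + 2 ∈ I
    · right
      have h3 : ∑ j ∈ range (n0 + 3) \ I, v j = 0 := by
        have := sum_sdiff (f := v) hI
        rwa [hs', add_zero, htot] at this
      have h4 : range (n0 + 3) \ I ⊆ range n0 := by
        intro j hj
        rw [mem_sdiff, mem_range] at hj
        rw [mem_range]
        by_contra hge
        have h5 : j = n0 ∨ j = n0 + 1 ∨ j = n0 + 2 := by omega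
        rcases h5 with rfl | rfl | rfl
        · exact hj.2 m0
        · exact hj.2 m1
        · exact hj.2 m2
      have h5 := hsmall _ h4 h3
      rw [sdiff_eq_empty_iff_subset] at h5
      exact subset_antisymm hI h5
    · exfalso
      rw [if_pos m0, if_pos m1, if_neg m2, add_zero] at h2
      apply vc
      have h3 : v (n0 + 2) = (v n0 + v (n0 + 1) + v (n0 + 2))
          + ∑ j ∈ range n0, (if j ∈ I then v j else 0)
          - (∑ j ∈ range n0, (if j ∈ I then v j else 0) + v n0 + v (n0 + 1)) := by abel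
      rw [h3, ← h2, sub_zero]
      exact U.add_mem habc hu
    · exfalso
      rw [if_pos m0, if_neg m1, if_pos m2, add_zero] at h2
      apply vb
      have h3 : v (n0 + 1) = (v n0 + v (n0 + 1) + v (n0 + 2))
          + ∑ j ∈ range n0, (if j ∈ I then v j else 0)
          - (∑ j ∈ range n0, (if j ∈ I then v j else 0) + v n0 + v (n0 + 2)) := by abel
      rw [h3, ← h2, sub_zero]
      exact U.add_mem habc hu
    · exfalso
      rw [if_pos m0, if_neg m1, if_neg m2, add_zero, add_zero] at h2
      apply va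
      have h3 : v n0 = (∑ j ∈ range n0, (if j ∈ I then v j else 0) + v n0)
          - ∑ j ∈ range n0, (if j ∈ I then v j else 0) := by abel
      rw [h3, ← h2, zero_sub]
      exact U.neg_mem hu
    · exfalso
      rw [if_neg m0, if_pos m1, if_pos m2, add_zero] at h2
      apply va
      have h3 : v n0 = (v n0 + v (n0 + 1) + v (n0 + 2))
          + ∑ j ∈ range n0, (if j ∈ I then v j else 0)
          - (∑ j ∈ range n0, (if j ∈ I then v j else 0) + v (n0 + 1) + v (n0 + 2)) := by abel
      rw [h3, ← h2, sub_zero]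
      exact U.add_mem habc hu
    · exfalso
      rw [if_neg m0, if_pos m1, if_neg m2, add_zero, add_zero] at h2
      apply vb
      have h3 : v (n0 + 1) = (∑ j ∈ range n0, (if j ∈ I then v j else 0) + v (n0 + 1))
          - ∑ j ∈ range n0, (if j ∈ I then v j else 0) := by abel
      rw [h3, ← h2, zero_sub]
      exact U.neg_mem hu
    · exfalso
      rw [if_neg m0, if_neg m1, if_pos m2, add_zero, add_zero] at h2
      apply vc
      have h3 : v (n0 + 2) = (∑ j ∈ range n0, (if j ∈ I then v j else 0) + v (n0 + 2))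
          - ∑ j ∈ range n0, (if j ∈ I then v j else 0) := by abel
      rw [h3, ← h2, zero_sub]
      exact U.neg_mem hu
    · left
      have h3 : I ⊆ range n0 := by
        intro j hj
        have hj' := mem_range.1 (hI hj)
        rw [mem_range]
        by_contra hge
        have h5 : j = n0 ∨ j = n0 + 1 ∨ j = n0 + 2 := by omega
        rcases h5 with rfl | rfl | rfl
        · exact m0 hj
        · exact m1 hj
        · exact m2 hj
      exact hsmall I h3 hs'

end Pool.Agent.H38.CE
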