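import Mathlib

set_option autoImplicit false
set_option linter.unusedSectionVars false

/-!
# Sign characters of a finite field of characteristic two and sums of three elements
-/

namespace Pool.Agent.H38.CE

open Finset

/-- the sign of a residue -/
def sgn (z : ZMod 2) : ℝ := if z = 0 then 1 else -1

theorem zmod2_cases (z : ZMod 2) : z = 0 ∨ z = 1 := by
  revert z; decide

theorem sgn_zero : sgn 0 = 1 := by simp [sgn]

theorem sgn_one : sgn 1 = -1 := by simp [sgn]

theorem sgn_add (a b : ZMod 2) : sgn (a + b) = sgn a * sgn b := by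
  rcases zmod2_cases a with rfl | rfl <;> rcases zmod2_cases b with rfl | rfl
  · simp [sgn]
  · simp [sgn]
  · simp [sgn]
  · have : (1 : ZMod 2) + 1 = 0 := by decide
    rw [this, sgn_zero, sgn_one]
    norm_num

theorem sgn_sq (a : ZMod 2) : sgn a * sgn a = 1 := by
  rcases zmod2_cases a with rfl | rfl <;> simp [sgn]

theorem abs_sgn (a : ZMod 2) : |sgn a| = 1 := by
  rcases zmod2_cases a with rfl | rfl <;> simp [sgn]

variable {F : Type} [Field F] [Fintype F] [DecidableEq F] [Algebra (ZMod 2) F]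

theorem add_self_F (x : F) : x + x = 0 := by
  have : (2 : ZMod 2) • x = 0 := by
    have h2 : (2 : ZMod 2) = 0 := by decide
    rw [h2, zero_smul]
  rwa [show (2 : ZMod 2) = 1 + 1 by decide, add_smul, one_smul] at this

/-- the character with parameter `c` -/
def ch (φ : F →ₗ[ZMod 2] ZMod 2) (c x : F) : ℝ := sgn (φ (c * x))

variable {φ : F →ₗ[ZMod 2] ZMod 2}

theorem ch_add (c x y : F) : ch φ c (x + y) = ch φ c x * ch φ c y := by
  unfold ch
  rw [mul_add, map_add, sgn_add]

theorem ch_add' (c c' x : F) : ch φ (c + c') x = ch φ c x * ch φ c' x := by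
  unfold ch
  rw [add_mul, map_add, sgn_add]

theorem ch_comm (c x : F) : ch φ c x = ch φ x c := by
  unfold ch
  rw [mul_comm]

theorem ch_zero (x : F) : ch φ 0 x = 1 := by
  unfold ch
  rw [zero_mul, map_zero, sgn_zero]

theorem ch_sq (c x : F) : ch φ c x * ch φ c x = 1 := sgn_sq _

theorem sum_ch (hφ : φ ≠ 0) (c : F) : ∑ x, ch φ c x = if c = 0 then (Fintype.card F : ℝ) else 0 := by
  split_ifs with h
  · subst h
    simp [ch_zero]
  · obtain ⟨z, hz⟩ : ∃ z, φ z ≠ 0 := by
      by_contra hno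
      push Not at hno
      exact hφ (LinearMap.ext hno)
    have h1 : φ (c * (c⁻¹ * z)) = 1 := by
      rw [← mul_assoc, mul_inv_cancel₀ h, one_mul]
      exact (zmod2_cases _).resolve_left hz
    have h2 : ∑ x, ch φ c x = ∑ x, ch φ c (x + c⁻¹ * z) :=
      (Equiv.sum_comp (Equiv.addRight (c⁻¹ * z)) (fun x => ch φ c x)).symm
    have h3 : ∑ x, ch φ c (x + c⁻¹ * z) = - ∑ x, ch φ c x := by
      rw [← sum_neg_distrib]
      refine sum_congr rfl fun x _ => ?_
      rw [ch_add]
      have : ch φ c (c⁻¹ * z) = -1 := by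
        unfold ch
        rw [h1, sgn_one]
      rw [this]
      ring
    rw [h3] at h2
    linarith

theorem sum_ch' (hφ : φ ≠ 0) (x : F) : ∑ c, ch φ c x = if x = 0 then (Fintype.card F : ℝ) else 0 := by
  rw [← sum_ch hφ x]
  exact sum_congr rfl fun c _ => ch_comm c x

/-- the transform -/
noncomputable def hat (φ : F →ₗ[ZMod 2] ZMod 2) (f : F → ℝ) (c : F) : ℝ := ∑ x, f x * ch φ c x

theorem parseval (hφ : φ ≠ 0) (f : F → ℝ) :
    ∑ c, hat φ f c ^ 2 = (Fintype.card F : ℝ) * ∑ x, f x ^ 2 := by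
  have h1 : ∀ c, hat φ f c ^ 2 = ∑ x, ∑ y, f x * f y * ch φ c (x + y) := by
    intro c
    unfold hat
    rw [sq, sum_mul_sum]
    refine sum_congr rfl fun x _ => sum_congr rfl fun y _ => ?_
    rw [ch_add]; ring
  simp_rw [h1]
  rw [sum_comm]
  rw [mul_sum]
  refine sum_congr rfl fun x _ => ?_
  rw [sum_comm]
  have h2 : ∀ y, ∑ c, f x * f y * ch φ c (x + y)
      = if y = x then (Fintype.card F : ℝ) * f x ^ 2 else 0 := by
    intro y
    rw [← mul_sum, sum_ch' hφ]
    by_cases h : y = x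
    · subst h
      rw [if_pos (add_self_F y), if_pos rfl]; ring
    · rw [if_neg, if_neg h, mul_zero]
      intro h'
      apply h
      have : x + y + y = y := by rw [h', zero_add]
      rw [add_assoc, add_self_F, add_zero] at this
      exact this.symm
  simp_rw [h2]
  rw [sum_ite_eq' univ x, if_pos (mem_univ _)]

/-- weighted number of representations of `w` as a sum of three elements -/
noncomputable def tri (f g k : F → ℝ) (w : F) : ℝ :=
  ∑ x, ∑ y, ∑ z, if x + y + z = w then f x * g y * k z else 0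

theorem tri_eq (hφ : φ ≠ 0) (f g k : F → ℝ) (w : F) :
    (Fintype.card F : ℝ) * tri f g k w = ∑ c, hat φ f c * hat φ g c * hat φ k c * ch φ c w := by
  have h1 : ∀ c, hat φ f c * hat φ g c * hat φ k c * ch φ c w
      = ∑ x, ∑ y, ∑ z, f x * g y * k z * ch φ c (x + y + z + w) := by
    intro c
    unfold hat
    rw [sum_mul_sum, sum_mul, sum_mul]
    refine sum_congr rfl fun x _ => ?_
    rw [sum_mul, sum_mul]
    refine sum_congr rfl fun y _ => ?_
    rw [mul_sum, sum_mul]
    refine sum_congr rfl fun z _ => ?_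
    rw [ch_add, ch_add, ch_add]; ring
  simp_rw [h1]
  conv_rhs => rw [sum_comm]
  unfold tri
  rw [mul_sum]
  refine sum_congr rfl fun x _ => ?_
  conv_rhs => rw [sum_comm]
  rw [mul_sum]
  refine sum_congr rfl fun y _ => ?_
  conv_rhs => rw [sum_comm]
  rw [mul_sum]
  refine sum_congr rfl fun z _ => ?_
  rw [← mul_sum, sum_ch' hφ]
  have h2 : x + y + z + w = 0 ↔ x + y + z = w := by
    constructor
    · intro h
      have : x + y + z + w + w = w := by rw [h, zero_add]
      rwa [add_assoc, add_self_F, add_zero] at this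
    · intro h
      rw [h, add_self_F]
  by_cases h : x + y + z = w
  · rw [if_pos h, if_pos (h2.2 h)]; ring
  · rw [if_neg h, if_neg (fun h' => h (h2.1 h'))]; ring

theorem tri_close (hφ : φ ≠ 0) (f g k : F → ℝ) (w : F) :
    |(Fintype.card F : ℝ) * tri f g k w - hat φ f 0 * hat φ g 0 * hat φ k 0|
      ≤ ∑ c ∈ univ.erase 0, |hat φ f c| * |hat φ g c| * |hat φ k c| := by
  rw [tri_eq hφ, ← add_sum_erase univ _ (mem_univ (0 : F)), ch_zero, mul_one, add_sub_cancel_left]
  refine le_trans (abs_sum_le_sum_abs _ _) (sum_le_sum fun c _ => ?_)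
  rw [abs_mul, abs_mul, abs_mul]
  have : |ch φ c w| = 1 := abs_sgn _
  rw [this, mul_one]

/-- the indicator function of a set -/
def idf (C : Finset F) (x : F) : ℝ := if x ∈ C then 1 else 0

theorem idf_sq (C : Finset F) : ∑ x, idf C x ^ 2 = (C.card : ℝ) := by
  have : ∀ x, idf C x ^ 2 = if x ∈ C then (1 : ℝ) else 0 := by
    intro x
    unfold idf
    split_ifs <;> norm_num
  simp_rw [this]
  rw [← sum_filter, filter_mem_eq_inter, univ_inter, sum_const, nsmul_eq_mul, mul_one]

theorem hat_idf (C : Finset F) (c : F) : hat φ (idf C) c = ∑ x ∈ C, ch φ c x := by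
  unfold hat idf
  simp_rw [ite_mul, one_mul, zero_mul]
  rw [← sum_filter, filter_mem_eq_inter, univ_inter]

theorem hat_idf_zero (C : Finset F) : hat φ (idf C) 0 = (C.card : ℝ) := by
  rw [hat_idf]
  simp [ch_zero]

theorem prod_bound (hφ : φ ≠ 0) {h : ℕ} {B C : Finset F} (hB : B.card = h) (hC : C.card = h) :
    ∑ c, |hat φ (idf B) c| * |hat φ (idf C) c| ≤ (Fintype.card F : ℝ) * h := by
  have h1 : ∀ c, |hat φ (idf B) c| * |hat φ (idf C) c|
      ≤ (hat φ (idf B) c ^ 2 + hat φ (idf C) c ^ 2) / 2 := by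
    intro c
    have := sq_nonneg (|hat φ (idf B) c| - |hat φ (idf C) c|)
    have h2 := sq_abs (hat φ (idf B) c)
    have h3 := sq_abs (hat φ (idf C) c)
    nlinarith
  refine le_trans (sum_le_sum fun c _ => h1 c) ?_
  rw [← sum_div, sum_add_distrib, parseval hφ, parseval hφ, idf_sq, idf_sq, hB, hC]
  linarith

/-- the part of a set on which two functionals have given values -/
noncomputable def cut (φ : F →ₗ[ZMod 2] ZMod 2) (C : Finset F) (c₁ c₂ : F) (β γ : ZMod 2) :
    F → ℝ :=
  fun x => if x ∈ C ∧ φ (c₁ * x) = β ∧ φ (c₂ * x) = γ then 1 else 0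

theorem cut_eq (C : Finset F) (c₁ c₂ : F) (β γ : ZMod 2) (x : F) :
    cut φ C c₁ c₂ β γ x = idf C x * ((1 + sgn β * ch φ c₁ x) * (1 + sgn γ * ch φ c₂ x) / 4) := by
  have key : ∀ a b : ZMod 2, (1 + sgn b * sgn a) = if a = b then 2 else 0 := by
    intro a b
    rcases zmod2_cases a with rfl | rfl <;> rcases zmod2_cases b with rfl | rfl <;>
      (simp [sgn]; try norm_num)
  unfold cut idf ch
  rw [key, key]
  by_cases h0 : x ∈ C <;> by_cases h1 : φ (c₁ * x) = β <;> by_cases h2 : φ (c₂ * x) = γ <;>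
    simp [h0, h1, h2] <;> norm_num

theorem hat_cut (C : Finset F) (c₁ c₂ : F) (β γ : ZMod 2) (c : F) :
    hat φ (cut φ C c₁ c₂ β γ) c = (hat φ (idf C) c + sgn β * hat φ (idf C) (c + c₁)
      + sgn γ * hat φ (idf C) (c + c₂) + sgn β * sgn γ * hat φ (idf C) (c + (c₁ + c₂))) / 4 := by
  unfold hat
  rw [mul_sum, mul_sum, mul_sum, ← sum_add_distrib, ← sum_add_distrib, ← sum_add_distrib, sum_div]
  refine sum_congr rfl fun x _ => ?_
  rw [cut_eq, ch_add', ch_add', ch_add', ch_add']
  ring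

/-- the transform is bounded by `Q` away from `0`, and by `h` at `0` -/
theorem abs_hat_cut {h : ℕ} {Q : ℝ} (hQ : 0 ≤ Q) {C : Finset F} (hC : C.card = h)
    (hb : ∀ c, c ≠ 0 → |hat φ (idf C) c| ≤ Q) (c₁ c₂ : F) (β γ : ZMod 2) (c : F) :
    |hat φ (cut φ C c₁ c₂ β γ) c| ≤ Q + (h : ℝ) / 4 * ((if c = 0 then 1 else 0)
      + (if c = c₁ then 1 else 0) + (if c = c₂ then 1 else 0) + (if c = c₁ + c₂ then 1 else 0)) := by
  have hg : ∀ d e : F, |hat φ (idf C) (d + e)| ≤ Q + h * (if d = e then 1 else 0) := by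
    intro d e
    by_cases hd : d = e
    · subst hd
      rw [add_self_F, hat_idf_zero, hC, if_pos rfl, mul_one]
      rw [abs_of_nonneg (Nat.cast_nonneg h)]
      linarith
    · rw [if_neg hd, mul_zero, add_zero]
      apply hb
      intro h'
      apply hd
      have : d + e + e = e := by rw [h', zero_add]
      rwa [add_assoc, add_self_F, add_zero] at this
  have h0 : |hat φ (idf C) c| ≤ Q + h * (if c = 0 then 1 else 0) := by
    have := hg c 0
    rwa [add_zero] at this
  rw [hat_cut, abs_div, abs_of_pos (by norm_num : (0 : ℝ) < 4)]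
  have t1 := abs_add_le (hat φ (idf C) c + sgn β * hat φ (idf C) (c + c₁)
      + sgn γ * hat φ (idf C) (c + c₂)) (sgn β * sgn γ * hat φ (idf C) (c + (c₁ + c₂)))
  have t2 := abs_add_le (hat φ (idf C) c + sgn β * hat φ (idf C) (c + c₁))
      (sgn γ * hat φ (idf C) (c + c₂))
  have t3 := abs_add_le (hat φ (idf C) c) (sgn β * hat φ (idf C) (c + c₁))
  rw [abs_mul, abs_mul, abs_sgn, abs_sgn, one_mul, one_mul] at t1
  rw [abs_mul (sgn γ), abs_sgn, one_mul] at t2
  rw [abs_mul (sgn β), abs_sgn, one_mul] at t3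
  have h1 := hg c c₁
  have h2 := hg c c₂
  have h3 := hg c (c₁ + c₂)
  linarith

/-- existence of three elements with given sum, none of them in the forbidden part -/
theorem exists_triple (hφ : φ ≠ 0) {h : ℕ} {Q : ℝ} (hQ : 0 ≤ Q)
    (hq : (Fintype.card F : ℝ) = Q ^ 2) {C : Fin 3 → Finset F} (hC : ∀ i, (C i).card = h)
    (hb : ∀ i c, c ≠ 0 → |hat φ (idf (C i)) c| ≤ Q) {c₁ c₂ : F} (h1 : c₁ ≠ 0) (h2 : c₂ ≠ 0)
    (h12 : c₁ + c₂ ≠ 0) (β γ : Fin 3 → ZMod 2) (w : F)
    (hnum : 9 * Q * h + 16 * Q ^ 3 + 9 * Q ^ 2 < (h : ℝ) ^ 2) :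
    ∃ x : Fin 3 → F, (∀ i, x i ∈ C i) ∧ x 0 + x 1 + x 2 = w ∧
      ∀ i, ¬ (φ (c₁ * x i) = β i ∧ φ (c₂ * x i) = γ i) := by
  by_contra hno
  push Not at hno
  set q : ℝ := (Fintype.card F : ℝ) with hqdef
  have hh0 : (0 : ℝ) ≤ h := Nat.cast_nonneg h
  set f : Fin 3 → F → ℝ := fun i => idf (C i) with hf
  set b : Fin 3 → F → ℝ := fun i => cut φ (C i) c₁ c₂ (β i) (γ i) with hbdef
  -- the union bound
  have hunion : tri (f 0) (f 1) (f 2) w ≤ tri (b 0) (f 1) (f 2) w + tri (f 0) (b 1) (f 2) w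
      + tri (f 0) (f 1) (b 2) w := by
    unfold tri
    rw [← sum_add_distrib, ← sum_add_distrib]
    refine sum_le_sum fun x _ => ?_
    rw [← sum_add_distrib, ← sum_add_distrib]
    refine sum_le_sum fun y _ => ?_
    rw [← sum_add_distrib, ← sum_add_distrib]
    refine sum_le_sum fun z _ => ?_
    have fn : ∀ i x, 0 ≤ f i x := fun i x => by
      simp only [hf, idf]; split_ifs <;> norm_num
    have bn : ∀ i x, 0 ≤ b i x := fun i x => by
      simp only [hbdef, cut]; split_ifs <;> norm_num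
    split_ifs with hs
    · by_cases hx : x ∈ C 0 <;> by_cases hy : y ∈ C 1 <;> by_cases hz : z ∈ C 2
      · have hno' := hno ![x, y, z] (by
          intro i
          fin_cases i
          · exact hx
          · exact hy
          · exact hz) hs
        obtain ⟨i, hi1, hi2⟩ := hno'
        have e0 : f 0 x = 1 := by simp [hf, idf, hx]
        have e1 : f 1 y = 1 := by simp [hf, idf, hy]
        have e2 : f 2 z = 1 := by simp [hf, idf, hz]
        rw [e0, e1, e2]
        have n0 := bn 0 x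
        have n1 := bn 1 y
        have n2 := bn 2 z
        fin_cases i
        · have : b 0 x = 1 := by
            simp only [hbdef, cut]
            rw [if_pos ⟨hx, hi1, hi2⟩]
          rw [this]; nlinarith
        · have : b 1 y = 1 := by
            simp only [hbdef, cut]
            rw [if_pos ⟨hy, hi1, hi2⟩]
          rw [this]; nlinarith
        · have : b 2 z = 1 := by
            simp only [hbdef, cut]
            rw [if_pos ⟨hz, hi1, hi2⟩]
          rw [this]; nlinarith
      all_goals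
        have : f 0 x * f 1 y * f 2 z = 0 := by simp [idf, *]
        rw [this]
        have := mul_nonneg (mul_nonneg (bn 0 x) (fn 1 y)) (fn 2 z)
        have := mul_nonneg (mul_nonneg (fn 0 x) (bn 1 y)) (fn 2 z)
        have := mul_nonneg (mul_nonneg (fn 0 x) (fn 1 y)) (bn 2 z)
        linarith
    · norm_num
  -- main term
  have hmain : (h : ℝ) ^ 3 - Q * (q * h) ≤ q * tri (f 0) (f 1) (f 2) w := by
    have t := tri_close hφ (f 0) (f 1) (f 2) w
    have z0 : hat φ (f 0) 0 = h := by simp only [hf]; rw [hat_idf_zero, hC]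
    have z1 : hat φ (f 1) 0 = h := by simp only [hf]; rw [hat_idf_zero, hC]
    have z2 : hat φ (f 2) 0 = h := by simp only [hf]; rw [hat_idf_zero, hC]
    rw [z0, z1, z2] at t
    have t2 : ∑ c ∈ univ.erase 0, |hat φ (f 0) c| * |hat φ (f 1) c| * |hat φ (f 2) c|
        ≤ Q * (q * h) := by
      calc ∑ c ∈ univ.erase 0, |hat φ (f 0) c| * |hat φ (f 1) c| * |hat φ (f 2) c|
          ≤ ∑ c ∈ univ.erase 0, Q * (|hat φ (f 1) c| * |hat φ (f 2) c|) := by
            refine sum_le_sum fun c hc => ?_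
            rw [mem_erase] at hc
            rw [mul_assoc]
            exact mul_le_mul_of_nonneg_right (hb 0 c hc.1) (by positivity)
        _ ≤ ∑ c, Q * (|hat φ (f 1) c| * |hat φ (f 2) c|) :=
            sum_le_sum_of_subset_of_nonneg (erase_subset _ _) (fun _ _ _ => by positivity)
        _ = Q * ∑ c, (|hat φ (f 1) c| * |hat φ (f 2) c|) := by rw [mul_sum]
        _ ≤ Q * (q * h) := mul_le_mul_of_nonneg_left (prod_bound hφ (hC 1) (hC 2)) hQ
    have t3 := (abs_le.1 (le_trans t t2)).1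
    have t4 : (h : ℝ) * h * h = (h : ℝ) ^ 3 := by ring
    linarith
  -- bad terms
  have hbad : ∀ (i j l : Fin 3) (B : F → ℝ), B = b i → ∀ T : ℝ,
      |q * T - hat φ B 0 * hat φ (f j) 0 * hat φ (f l) 0|
        ≤ ∑ c ∈ univ.erase 0, |hat φ B c| * (|hat φ (f j) c| * |hat φ (f l) c|) →
      q * T ≤ (h + 3 * Q) / 4 * h ^ 2 + Q * (q * h) + 3 / 4 * h * q := by
    intro i j l B hB T hT
    have zj : hat φ (f j) 0 = h := by simp only [hf]; rw [hat_idf_zero, hC]
    have zl : hat φ (f l) 0 = h := by simp only [hf]; rw [hat_idf_zero, hC]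
    rw [zj, zl] at hT
    have hB0 : hat φ B 0 ≤ (h + 3 * Q) / 4 := by
      rw [hB]
      simp only [hbdef]
      rw [hat_cut, zero_add, zero_add, zero_add, hat_idf_zero, hC]
      have a1 : |sgn (β i) * hat φ (idf (C i)) c₁| ≤ Q := by
        rw [abs_mul, abs_sgn, one_mul]; exact hb i c₁ h1
      have a2 : |sgn (γ i) * hat φ (idf (C i)) c₂| ≤ Q := by
        rw [abs_mul, abs_sgn, one_mul]; exact hb i c₂ h2
      have a3 : |sgn (β i) * sgn (γ i) * hat φ (idf (C i)) (c₁ + c₂)| ≤ Q := by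
        rw [abs_mul, abs_mul, abs_sgn, abs_sgn, one_mul, one_mul]; exact hb i _ h12
      have a1' := (abs_le.1 a1).2
      have a2' := (abs_le.1 a2).2
      have a3' := (abs_le.1 a3).2
      linarith
    have hsum : ∑ c ∈ univ.erase 0, |hat φ B c| * (|hat φ (f j) c| * |hat φ (f l) c|)
        ≤ Q * (q * h) + 3 / 4 * h * q := by
      have p1 : ∀ c ∈ univ.erase (0 : F), |hat φ B c| * (|hat φ (f j) c| * |hat φ (f l) c|)
          ≤ Q * (|hat φ (f j) c| * |hat φ (f l) c|) + (h : ℝ) / 4 * Q ^ 2 *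
            ((if c = c₁ then 1 else 0) + (if c = c₂ then 1 else 0)
              + (if c = c₁ + c₂ then 1 else 0)) := by
        intro c hc
        rw [mem_erase] at hc
        have p2 := abs_hat_cut hQ (hC i) (hb i) c₁ c₂ (β i) (γ i) c
        rw [if_neg hc.1, zero_add] at p2
        have p3 : |hat φ (f j) c| * |hat φ (f l) c| ≤ Q ^ 2 := by
          rw [sq]
          exact mul_le_mul (hb j c hc.1) (hb l c hc.1) (abs_nonneg _) hQ
        set I : ℝ := (if c = c₁ then 1 else 0) + (if c = c₂ then 1 else 0)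
              + (if c = c₁ + c₂ then 1 else 0) with hI
        have hI0 : 0 ≤ I := by rw [hI]; positivity
        have p4 : |hat φ B c| ≤ Q + (h : ℝ) / 4 * I := by rw [hB]; exact p2
        calc |hat φ B c| * (|hat φ (f j) c| * |hat φ (f l) c|)
            ≤ (Q + (h : ℝ) / 4 * I) * (|hat φ (f j) c| * |hat φ (f l) c|) :=
              mul_le_mul_of_nonneg_right p4 (by positivity)
          _ = Q * (|hat φ (f j) c| * |hat φ (f l) c|)
              + (h : ℝ) / 4 * I * (|hat φ (f j) c| * |hat φ (f l) c|) := by ring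
          _ ≤ Q * (|hat φ (f j) c| * |hat φ (f l) c|) + (h : ℝ) / 4 * I * Q ^ 2 := by
              have := mul_le_mul_of_nonneg_left p3 (by positivity : 0 ≤ (h : ℝ) / 4 * I)
              linarith
          _ = _ := by ring
      refine le_trans (sum_le_sum p1) ?_
      rw [sum_add_distrib]
      have p5 : ∑ c ∈ univ.erase (0 : F), Q * (|hat φ (f j) c| * |hat φ (f l) c|) ≤ Q * (q * h) := by
        calc ∑ c ∈ univ.erase (0 : F), Q * (|hat φ (f j) c| * |hat φ (f l) c|)
            ≤ ∑ c, Q * (|hat φ (f j) c| * |hat φ (f l) c|) :=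
              sum_le_sum_of_subset_of_nonneg (erase_subset _ _) (fun _ _ _ => by positivity)
          _ = Q * ∑ c, (|hat φ (f j) c| * |hat φ (f l) c|) := by rw [mul_sum]
          _ ≤ Q * (q * h) := mul_le_mul_of_nonneg_left (prod_bound hφ (hC j) (hC l)) hQ
      have p6 : ∑ c ∈ univ.erase (0 : F), (h : ℝ) / 4 * Q ^ 2 *
            ((if c = c₁ then 1 else 0) + (if c = c₂ then 1 else 0)
              + (if c = c₁ + c₂ then 1 else 0)) ≤ 3 / 4 * h * q := by
        rw [← mul_sum, sum_add_distrib, sum_add_distrib]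
        have p7 : ∀ d : F, ∑ c ∈ univ.erase (0 : F), (if c = d then (1 : ℝ) else 0) ≤ 1 := by
          intro d
          rw [sum_ite_eq' (univ.erase (0 : F)) d]
          split_ifs <;> norm_num
        have := p7 c₁
        have := p7 c₂
        have := p7 (c₁ + c₂)
        have p8 : 0 ≤ (h : ℝ) / 4 * Q ^ 2 := by positivity
        calc (h : ℝ) / 4 * Q ^ 2 * _ ≤ (h : ℝ) / 4 * Q ^ 2 * 3 :=
              mul_le_mul_of_nonneg_left (by linarith) p8
          _ = 3 / 4 * h * q := by rw [hq]; ring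
      linarith
    have t3 := (abs_le.1 (le_trans hT hsum)).2
    have t4 : hat φ B 0 * h * h ≤ (h + 3 * Q) / 4 * h ^ 2 := by
      have := mul_le_mul_of_nonneg_right hB0 (by positivity : 0 ≤ (h : ℝ) ^ 2)
      calc hat φ B 0 * h * h = hat φ B 0 * h ^ 2 := by ring
        _ ≤ _ := this
    linarith
  have hb0 := hbad 0 1 2 (b 0) rfl (tri (b 0) (f 1) (f 2) w) (by
    have t := tri_close hφ (b 0) (f 1) (f 2) w
    refine le_trans t (le_of_eq (sum_congr rfl fun c _ => ?_)); ring)
  have hb1 := hbad 1 0 2 (b 1) rfl (tri (f 0) (b 1) (f 2) w) (by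
    have t := tri_close hφ (f 0) (b 1) (f 2) w
    have e : hat φ (b 1) 0 * hat φ (f 0) 0 * hat φ (f 2) 0
        = hat φ (f 0) 0 * hat φ (b 1) 0 * hat φ (f 2) 0 := by ring
    rw [e]
    refine le_trans t (le_of_eq (sum_congr rfl fun c _ => ?_)); ring)
  have hb2 := hbad 2 0 1 (b 2) rfl (tri (f 0) (f 1) (b 2) w) (by
    have t := tri_close hφ (f 0) (f 1) (b 2) w
    have e : hat φ (b 2) 0 * hat φ (f 0) 0 * hat φ (f 1) 0
        = hat φ (f 0) 0 * hat φ (f 1) 0 * hat φ (b 2) 0 := by ring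
    rw [e]
    refine le_trans t (le_of_eq (sum_congr rfl fun c _ => ?_)); ring)
  have hq0 : 0 ≤ q := by rw [hq]; positivity
  have hfin : q * tri (f 0) (f 1) (f 2) w ≤ q * tri (b 0) (f 1) (f 2) w
      + q * tri (f 0) (b 1) (f 2) w + q * tri (f 0) (f 1) (b 2) w := by
    have := mul_le_mul_of_nonneg_left hunion hq0
    linarith
  have hpos : 0 < (h : ℝ) := by
    rcases hh0.lt_or_eq with h' | h'
    · exact h'
    · rw [← h'] at hnum
      nlinarith [pow_nonneg hQ 3, pow_nonneg hQ 2]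
  have hlast : (h : ℝ) * (h ^ 2) ≤ h * (9 * Q * h + 16 * Q ^ 3 + 9 * Q ^ 2) := by
    rw [hq] at hmain hb0 hb1 hb2 hfin
    nlinarith
  have := le_of_mul_le_mul_left hlast hpos
  linarith

end Pool.Agent.H38.CE
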