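import Pool.Agent.H38.CE.Char

set_option autoImplicit false
set_option linter.unusedSectionVars false

/-!
# Cosets of a subgroup of the multiplicative group
-/

namespace Pool.Agent.H38.CE

open Finset

variable {F : Type} [Field F] [Fintype F] [DecidableEq F] [Algebra (ZMod 2) F]

theorem exists_gen : ∃ g : F, g ≠ 0 ∧ (∀ x : F, x ≠ 0 → ∃ k : ℕ, g ^ k = x) ∧
    orderOf g = Fintype.card F - 1 := by
  obtain ⟨g, hg⟩ := IsCyclic.exists_generator (α := Fˣ)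
  refine ⟨(g : F), g.ne_zero, fun x hx => ?_, ?_⟩
  · have h1 := hg (Units.mk0 x hx)
    rw [← mem_powers_iff_mem_zpowers, Submonoid.mem_powers_iff] at h1
    obtain ⟨k, hk⟩ := h1
    refine ⟨k, ?_⟩
    have := congrArg (fun u : Fˣ => (u : F)) hk
    simpa using this
  · rw [orderOf_units, orderOf_eq_card_of_forall_mem_zpowers hg, Nat.card_eq_fintype_card,
      Fintype.card_units]

/-- the class number `j` -/
def Cl (g : F) (h j : ℕ) : Finset F := univ.filter fun x => x ≠ 0 ∧ x ^ h = (g ^ h) ^ j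

theorem mem_Cl {g : F} {h j : ℕ} {x : F} : x ∈ Cl g h j ↔ x ≠ 0 ∧ x ^ h = (g ^ h) ^ j := by
  simp [Cl]

/-- the data of the subgroup -/
structure Sub (g : F) (h N : ℕ) : Prop where
  g0 : g ≠ 0
  gen : ∀ x : F, x ≠ 0 → ∃ k : ℕ, g ^ k = x
  ord : orderOf g = h * N
  hpos : 0 < h
  Npos : 0 < N
  card : Fintype.card F = h * N + 1

variable {g : F} {h N : ℕ}

theorem Sub.ordh (S : Sub g h N) : orderOf (g ^ h) = N := by
  rw [orderOf_pow_of_dvd S.hpos.ne' (by rw [S.ord]; exact Dvd.intro _ rfl), S.ord]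
  exact Nat.mul_div_cancel_left _ S.hpos

theorem Sub.pow_inj (S : Sub g h N) {i j : ℕ} (hi : i < N) (hj : j < N)
    (hij : (g ^ h) ^ i = (g ^ h) ^ j) : i = j := by
  have hinj := pow_injOn_Iio_orderOf (x := g ^ h)
  rw [S.ordh] at hinj
  exact hinj hi hj hij

theorem Sub.exists_cl (S : Sub g h N) {x : F} (hx : x ≠ 0) : ∃ j < N, x ∈ Cl g h j := by
  obtain ⟨k, rfl⟩ := S.gen x hx
  refine ⟨k % N, Nat.mod_lt _ S.Npos, mem_Cl.2 ⟨hx, ?_⟩⟩
  rw [← pow_mul, mul_comm k h, pow_mul]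
  have h1 : (g ^ h) ^ k = (g ^ h) ^ (k % orderOf (g ^ h)) := (pow_mod_orderOf _ _).symm
  rw [h1, S.ordh]

theorem Sub.cl_unique (S : Sub g h N) {x : F} {i j : ℕ} (hi : i < N) (hj : j < N)
    (h1 : x ∈ Cl g h i) (h2 : x ∈ Cl g h j) : i = j := by
  rw [mem_Cl] at h1 h2
  exact S.pow_inj hi hj (h1.2.symm.trans h2.2)

theorem mul_cl {u x : F} {j : ℕ} (hu : u ∈ Cl g h 0) (hx : x ∈ Cl g h j) : u * x ∈ Cl g h j := by
  rw [mem_Cl] at *
  refine ⟨mul_ne_zero hu.1 hx.1, ?_⟩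
  rw [mul_pow, hu.2, hx.2, pow_zero, one_mul]

theorem div_cl {x y : F} {j : ℕ} (hx : x ∈ Cl g h j) (hy : y ∈ Cl g h j) : x / y ∈ Cl g h 0 := by
  rw [mem_Cl] at *
  refine ⟨div_ne_zero hx.1 hy.1, ?_⟩
  rw [div_pow, hx.2, hy.2, pow_zero, div_self]
  rw [← hy.2]
  exact pow_ne_zero _ hy.1

theorem one_cl : (1 : F) ∈ Cl g h 0 := by
  rw [mem_Cl]
  exact ⟨one_ne_zero, by simp⟩

theorem Sub.card_cl (S : Sub g h N) (j : ℕ) : (Cl g h j).card = h := by
  have h1 : ∀ i : ℕ, (Cl g h i).card = (Cl g h 0).card := by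
    intro i
    have hgi : g ^ i ∈ Cl g h i := by
      rw [mem_Cl]
      refine ⟨pow_ne_zero _ S.g0, ?_⟩
      rw [← pow_mul, ← pow_mul, mul_comm]
    apply card_bij (fun x _ => x / g ^ i)
    · intro x hx
      exact div_cl hx hgi
    · intro x _ y _ hxy
      exact (div_left_inj' (pow_ne_zero _ S.g0)).1 hxy
    · intro u hu
      refine ⟨u * g ^ i, mul_cl hu hgi, ?_⟩
      exact mul_div_cancel_right₀ _ (pow_ne_zero _ S.g0)
  have h2 : (univ.erase (0 : F)).card = ∑ i ∈ range N, (Cl g h i).card := by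
    rw [← card_biUnion]
    · congr 1
      ext x
      rw [mem_erase, mem_biUnion]
      constructor
      · rintro ⟨hx, -⟩
        obtain ⟨i, hi, hi2⟩ := S.exists_cl hx
        exact ⟨i, mem_range.2 hi, hi2⟩
      · rintro ⟨i, -, hi2⟩
        exact ⟨(mem_Cl.1 hi2).1, mem_univ _⟩
    · intro i hi i' hi' hne
      rw [Function.onFun, disjoint_left]
      intro x hx hx'
      exact hne (S.cl_unique (mem_range.1 hi) (mem_range.1 hi') hx hx')
  rw [sum_congr rfl (fun i _ => h1 i), sum_const, card_range, smul_eq_mul,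
    card_erase_of_mem (mem_univ _), card_univ, S.card] at h2
  rw [h1 j]
  have h3 : h * N = N * (Cl g h 0).card := by omega
  rw [mul_comm] at h3
  exact (Nat.eq_of_mul_eq_mul_left S.Npos h3).symm

variable {φ : F →ₗ[ZMod 2] ZMod 2}

theorem Sub.hat_mul (_S : Sub g h N) (j : ℕ) {u : F} (hu : u ∈ Cl g h 0) (c : F) :
    hat φ (idf (Cl g h j)) (c * u) = hat φ (idf (Cl g h j)) c := by
  rw [hat_idf, hat_idf]
  have hu0 : u ≠ 0 := (mem_Cl.1 hu).1
  apply sum_bij (fun x _ => u * x)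
  · intro x hx
    exact mul_cl hu hx
  · intro x _ y _ hxy
    exact mul_left_cancel₀ hu0 hxy
  · intro x hx
    refine ⟨x / u, ?_, mul_div_cancel₀ _ hu0⟩
    rw [mem_Cl] at *
    refine ⟨div_ne_zero hx.1 hu0, ?_⟩
    rw [div_pow, hx.2, hu.2, pow_zero, div_one]
  · intro x _
    unfold ch
    rw [mul_assoc]

theorem Sub.bound (S : Sub g h N) (hφ : φ ≠ 0) {Q : ℝ} (hQ : 0 ≤ Q)
    (hq : (Fintype.card F : ℝ) = Q ^ 2) (j : ℕ) (c : F) (hc : c ≠ 0) :
    |hat φ (idf (Cl g h j)) c| ≤ Q := by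
  have h1 := parseval hφ (idf (Cl g h j))
  rw [idf_sq, S.card_cl] at h1
  have h2 : ∑ u ∈ Cl g h 0, hat φ (idf (Cl g h j)) (c * u) ^ 2
      ≤ ∑ d, hat φ (idf (Cl g h j)) d ^ 2 := by
    have h3 : ∑ u ∈ Cl g h 0, hat φ (idf (Cl g h j)) (c * u) ^ 2
        = ∑ d ∈ (Cl g h 0).image (fun u => c * u), hat φ (idf (Cl g h j)) d ^ 2 := by
      rw [sum_image]
      intro x _ y _ hxy
      exact mul_left_cancel₀ hc hxy
    rw [h3]
    exact sum_le_sum_of_subset_of_nonneg (subset_univ _) (fun _ _ _ => sq_nonneg _)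
  have h4 : ∑ u ∈ Cl g h 0, hat φ (idf (Cl g h j)) (c * u) ^ 2
      = h * hat φ (idf (Cl g h j)) c ^ 2 := by
    rw [sum_congr rfl (fun u hu => by rw [S.hat_mul j hu c]), sum_const, nsmul_eq_mul, S.card_cl]
  rw [h4, h1, hq] at h2
  have hpos : (0 : ℝ) < h := by exact_mod_cast S.hpos
  have h5 : hat φ (idf (Cl g h j)) c ^ 2 ≤ Q ^ 2 := by
    have : (h : ℝ) * hat φ (idf (Cl g h j)) c ^ 2 ≤ h * Q ^ 2 := by linarith
    exact le_of_mul_le_mul_left this hpos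
  exact abs_le_of_sq_le_sq h5 hQ

end Pool.Agent.H38.CE
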