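import Pool.Agent.H38.CE.Final

set_option autoImplicit false
set_option linter.unusedSectionVars false

/-!
# A circuit of codimension one with prescribed classes, two elements in each class
-/

namespace Pool.Agent.H38.CE

open Finset

variable {F : Type} [Field F] [Fintype F] [DecidableEq F] [Algebra (ZMod 2) F]
variable {φ : F →ₗ[ZMod 2] ZMod 2} {g : F} {h N : ℕ}

theorem exists_notMem (S : Sub g h N) (hφ : φ ≠ 0) {Q : ℝ} (hQ : 0 ≤ Q)
    (hq : (Fintype.card F : ℝ) = Q ^ 2) (hQh : Q < h) (j : ℕ) (U : Submodule (ZMod 2) F)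
    (hU : Module.finrank (ZMod 2) U < Module.finrank (ZMod 2) F) : ∃ x ∈ Cl g h j, x ∉ U := by
  by_contra hno
  push Not at hno
  obtain ⟨z, hz⟩ : ∃ z : F, z ∉ U := by
    by_contra hall
    push Not at hall
    have h1 : U = ⊤ := by
      rw [eq_top_iff]
      intro z _
      exact hall z
    rw [h1, finrank_top] at hU
    omega
  obtain ⟨μ, hμ1, hμ2⟩ := Submodule.exists_dual_map_eq_bot_of_notMem hz inferInstance
  obtain ⟨c, hc⟩ := rep hφ μ
  have hc0 : c ≠ 0 := by
    rintro rfl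
    apply hμ1
    rw [hc, zero_mul, map_zero]
  have hμU : ∀ w ∈ U, μ w = 0 := by
    intro w hw
    have : μ w ∈ U.map μ := Submodule.mem_map_of_mem hw
    rw [hμ2] at this
    exact (Submodule.mem_bot _).1 this
  have h1 : hat φ (idf (Cl g h j)) c = h := by
    rw [hat_idf]
    have h2 : ∀ x' ∈ Cl g h j, ch φ c x' = 1 := by
      intro x' hx'
      unfold ch
      rw [← hc x', hμU _ (hno x' hx'), sgn_zero]
    rw [sum_congr rfl h2, sum_const, nsmul_eq_mul, S.card_cl, mul_one]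
  have h2 := S.bound hφ hQ hq j c hc0
  rw [h1, abs_of_nonneg (Nat.cast_nonneg h)] at h2
  linarith

theorem greedy2 (S : Sub g h N) (hφ : φ ≠ 0) {Q : ℝ} (hQ : 0 ≤ Q)
    (hq : (Fintype.card F : ℝ) = Q ^ 2) (hQh : Q < h) (κ : ℕ → ℕ) {p0 p1 : F}
    (h0 : p0 ∈ Cl g h (κ 0)) (h1 : p1 ∈ Cl g h (κ 1)) (hne : p0 ≠ p1) (m : ℕ) (hm2 : 2 ≤ m) :
    m ≤ Module.finrank (ZMod 2) F →
    ∃ x : ℕ → F, x 0 = p0 ∧ x 1 = p1 ∧ (∀ i < m, x i ∈ Cl g h (κ i)) ∧
      LinearIndependent (ZMod 2) (fun i : Fin m => x i) := by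
  induction m, hm2 using Nat.le_induction with
  | base =>
    intro _
    refine ⟨fun i => if i = 0 then p0 else p1, rfl, rfl, ?_, ?_⟩
    · intro i hi
      have : i = 0 ∨ i = 1 := by omega
      rcases this with rfl | rfl
      · exact h0
      · exact h1
    · have heq : (fun i : Fin 2 => (if (i : ℕ) = 0 then p0 else p1)) = ![p0, p1] := by
        funext i
        fin_cases i <;> rfl
      rw [heq, LinearIndependent.pair_iff]
      intro s t hst
      have n0 : p0 ≠ 0 := (mem_Cl.1 h0).1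
      have n1 : p1 ≠ 0 := (mem_Cl.1 h1).1
      rcases zmod2_cases s with rfl | rfl <;> rcases zmod2_cases t with rfl | rfl
      · exact ⟨rfl, rfl⟩
      · rw [zero_smul, one_smul, zero_add] at hst
        exact absurd hst n1
      · rw [zero_smul, one_smul, add_zero] at hst
        exact absurd hst n0
      · rw [one_smul, one_smul] at hst
        exfalso
        apply hne
        have : p0 + p1 + p1 = p1 := by rw [hst, zero_add]
        rwa [add_assoc, add_self_F, add_zero] at this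
  | succ m hm2 ih =>
    intro hm
    obtain ⟨x, hx0, hx1, hx, hind⟩ := ih (by omega)
    set v : Fin m → F := fun i => x i with hv
    set U := Submodule.span (ZMod 2) (Set.range v) with hU
    have hfin : Module.finrank (ZMod 2) U = m := by
      rw [hU, finrank_span_eq_card hind, Fintype.card_fin]
    obtain ⟨x', hx', hx'U⟩ := exists_notMem S hφ hQ hq hQh (κ m) U (by omega)
    refine ⟨fun i => if i = m then x' else x i, ?_, ?_, ?_, ?_⟩
    · dsimp only
      rw [if_neg (by omega)]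
      exact hx0
    · dsimp only
      rw [if_neg (by omega)]
      exact hx1
    · intro i hi
      dsimp only
      rcases Nat.lt_succ_iff_lt_or_eq.1 hi with h2 | h2
      · rw [if_neg (by omega)]
        exact hx i h2
      · rw [if_pos h2, h2]
        exact hx'
    · have heq : (fun i : Fin (m + 1) => (if (i : ℕ) = m then x' else x i))
          = Fin.snoc (α := fun _ => F) v x' := by
        funext i
        refine Fin.lastCases ?_ (fun i => ?_) i
        · simp
        · have : (i : ℕ) ≠ m := by omega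
          simp [hv, this]
      rw [heq]
      exact linearIndependent_finSnoc.2 ⟨hind, hx'U⟩

theorem block2 (S : Sub g h N) (hφ : φ ≠ 0) {Q : ℝ} (hQ : 0 ≤ Q)
    (hq : (Fintype.card F : ℝ) = Q ^ 2) (hQh : Q < h)
    (hnum : 9 * Q * h + 16 * Q ^ 3 + 9 * Q ^ 2 < (h : ℝ) ^ 2) (κ : ℕ → ℕ) {p0 p1 : F}
    (h0 : p0 ∈ Cl g h (κ 0)) (h1 : p1 ∈ Cl g h (κ 1)) (hne : p0 ≠ p1) (n0 : ℕ) (hn0 : 3 ≤ n0)
    (hdim : Module.finrank (ZMod 2) F = n0 + 2) :
    ∃ x : ℕ → F, x 0 = p0 ∧ x 1 = p1 ∧ (∀ j < n0 + 3, x j ∈ Cl g h (κ j)) ∧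
      (∑ j ∈ (range (n0 + 3)).erase 2, x j = 0) ∧
      ∀ e : ℕ → ZMod 2, ∑ j ∈ range (n0 + 3), e j • x j = 0 →
        (∀ j < n0 + 3, e j = 0) ∨ (∀ j < n0 + 3, e j = if j = 2 then 0 else 1) := by
  classical
  obtain ⟨x0, hx00, hx01, hx0, hind⟩ := greedy2 S hφ hQ hq hQh κ h0 h1 hne n0 (by omega) (by omega)
  set v0 : Fin n0 → F := fun i => x0 i with hv0
  set U := Submodule.span (ZMod 2) (Set.range v0) with hU
  have hfin : Module.finrank (ZMod 2) U = n0 := by
    rw [hU, finrank_span_eq_card hind, Fintype.card_fin]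
  have hquot : Module.finrank (ZMod 2) (F ⧸ U) = Module.finrank (ZMod 2) (Fin 2 → ZMod 2) := by
    have h1 := Submodule.finrank_quotient_add_finrank U
    rw [Module.finrank_fin_fun]
    omega
  set e : (F ⧸ U) ≃ₗ[ZMod 2] (Fin 2 → ZMod 2) := LinearEquiv.ofFinrankEq _ _ hquot with he
  set π : F →ₗ[ZMod 2] (Fin 2 → ZMod 2) := e.toLinearMap ∘ₗ U.mkQ with hπ
  have hπsurj : Function.Surjective π := by
    intro z
    obtain ⟨w, hw⟩ := U.mkQ_surjective (e.symm z)
    refine ⟨w, ?_⟩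
    simp [hπ, hw]
  have hπU : ∀ w, π w = 0 ↔ w ∈ U := by
    intro w
    simp only [hπ, LinearMap.comp_apply, LinearEquiv.coe_coe]
    rw [LinearEquiv.map_eq_zero_iff, Submodule.mkQ_apply, Submodule.Quotient.mk_eq_zero]
  set μ : Fin 2 → F →ₗ[ZMod 2] ZMod 2 := fun i => (LinearMap.proj i) ∘ₗ π with hμ
  have hμU : ∀ w, w ∈ U → (μ 0 w = 0 ∧ μ 1 w = 0) := by
    intro w hw
    rw [← hπU] at hw
    simp [hμ, hw]
  obtain ⟨c1, hc1⟩ := rep hφ (μ 0)
  obtain ⟨c2, hc2⟩ := rep hφ (μ 1)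
  obtain ⟨wa, hwa⟩ := hπsurj ![1, 0]
  obtain ⟨wb, hwb⟩ := hπsurj ![0, 1]
  have ea0 : μ 0 wa = 1 := by simp [hμ, hwa]
  have ea1 : μ 1 wa = 0 := by simp [hμ, hwa]
  have eb1 : μ 1 wb = 1 := by simp [hμ, hwb]
  have n1 : c1 ≠ 0 := by
    intro hc
    rw [hc1, hc, zero_mul, map_zero] at ea0
    exact zero_ne_one ea0
  have n2 : c2 ≠ 0 := by
    intro hc
    rw [hc2, hc, zero_mul, map_zero] at eb1
    exact zero_ne_one eb1
  have n12 : c1 + c2 ≠ 0 := by
    intro hc
    have h5 : μ 0 wa + μ 1 wa = 1 := by rw [ea0, ea1, add_zero]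
    rw [hc1, hc2, ← map_add, ← add_mul, hc, zero_mul, map_zero] at h5
    exact zero_ne_one h5
  obtain ⟨x', hx'C, hx's, hx'b⟩ := exists_triple hφ (h := h) hQ hq
    (C := fun i : Fin 3 => Cl g h (κ (n0 + i))) (fun i => S.card_cl _)
    (fun i c hc => S.bound hφ hQ hq _ c hc) n1 n2 n12
    (fun _ => 0) (fun _ => 0) (∑ i ∈ (range n0).erase 2, x0 i) hnum
  have hnU : ∀ i : Fin 3, x' i ∉ U := by
    intro i hi
    apply hx'b i
    have h5 := hμU _ hi
    rw [hc1, hc2] at h5
    exact h5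
  set x : ℕ → F := fun j => if j < n0 then x0 j else if j = n0 then x' 0 else
    if j = n0 + 1 then x' 1 else x' 2 with hx
  have ex : ∀ (j : ℕ) (hj : j < n0), x j = x0 j := fun j hj => by
    simp only [hx]; rw [if_pos hj]
  have e0 : x n0 = x' 0 := by simp [hx]
  have e1 : x (n0 + 1) = x' 1 := by simp [hx]
  have e2 : x (n0 + 2) = x' 2 := by simp [hx]
  have hU0 : ∀ j < n0, x j ∈ U := by
    intro j hj
    rw [ex j hj]
    exact Submodule.subset_span ⟨⟨j, hj⟩, rfl⟩
  have hrange : ∑ j ∈ range (n0 + 3), x j = x 2 := by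
    rw [sum_range_succ, sum_range_succ, sum_range_succ, e0, e1, e2, add_assoc, add_assoc,
      ← add_assoc (x' 0), hx's, sum_congr rfl (fun j hj => ex j (mem_range.1 hj)),
      ← add_sum_erase (range n0) x0 (mem_range.2 (by omega : 2 < n0)), ex 2 (by omega), add_assoc,
      add_self_F, add_zero]
  have htot : ∑ j ∈ (range (n0 + 3)).erase 2, x j = 0 := by
    have h2 := add_sum_erase (range (n0 + 3)) x (mem_range.2 (by omega : 2 < n0 + 3))
    rw [hrange] at h2
    exact add_eq_left.1 h2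
  have key0 : ∀ e : ℕ → ZMod 2, e n0 = 0 → e (n0 + 1) = 0 → e (n0 + 2) = 0 →
      ∑ j ∈ range (n0 + 3), e j • x j = 0 → ∀ j < n0 + 3, e j = 0 := by
    intro e z0 z1 z2 hs
    rw [sum_range_succ, sum_range_succ, sum_range_succ, z0, z1, z2, zero_smul, zero_smul,
      zero_smul, add_zero, add_zero, add_zero, Finset.sum_range] at hs
    have hs' : ∑ i : Fin n0, e i • v0 i = 0 := by
      rw [← hs]
      refine sum_congr rfl fun i _ => ?_
      rw [ex i i.2]
    have h4 := Fintype.linearIndependent_iff.1 hind (fun i => e i) hs'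
    intro j hj
    rcases Nat.lt_or_ge j n0 with h5 | h5
    · exact h4 ⟨j, h5⟩
    · have h6 : j = n0 ∨ j = n0 + 1 ∨ j = n0 + 2 := by omega
      rcases h6 with rfl | rfl | rfl
      · exact z0
      · exact z1
      · exact z2
  have hq0 : ∀ w, U.mkQ w = 0 ↔ w ∈ U := fun w => by
    rw [Submodule.mkQ_apply, Submodule.Quotient.mk_eq_zero]
  have qa : U.mkQ (x' 0) ≠ 0 := fun h' => hnU 0 ((hq0 _).1 h')
  have qb : U.mkQ (x' 1) ≠ 0 := fun h' => hnU 1 ((hq0 _).1 h')
  have qc : U.mkQ (x' 2) ≠ 0 := fun h' => hnU 2 ((hq0 _).1 h')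
  have qabc : U.mkQ (x' 0) + U.mkQ (x' 1) + U.mkQ (x' 2) = 0 := by
    rw [← map_add, ← map_add, hq0, hx's]
    refine Submodule.sum_mem _ fun j hj => ?_
    have hj' := mem_range.1 (mem_erase.1 hj).2
    rw [← ex j hj']
    exact hU0 j hj'
  have key1 : ∀ e : ℕ → ZMod 2, ∑ j ∈ range (n0 + 3), e j • x j = 0 →
      (e n0 = 0 ∧ e (n0 + 1) = 0 ∧ e (n0 + 2) = 0) ∨
      (e n0 = 1 ∧ e (n0 + 1) = 1 ∧ e (n0 + 2) = 1) := by
    intro e hs
    have h2 := congrArg U.mkQ hs
    rw [sum_range_succ, sum_range_succ, sum_range_succ, map_add, map_add, map_add, map_zero,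
      e0, e1, e2] at h2
    have h3 : U.mkQ (∑ j ∈ range n0, e j • x j) = 0 := by
      rw [hq0]
      exact Submodule.sum_mem _ fun j hj => U.smul_mem _ (hU0 j (mem_range.1 hj))
    rw [h3, zero_add, map_smul, map_smul, map_smul] at h2
    rcases zmod2_cases (e n0) with ha | ha <;> rcases zmod2_cases (e (n0 + 1)) with hb | hb <;>
      rcases zmod2_cases (e (n0 + 2)) with hc | hc <;>
      rw [ha, hb, hc] at h2 <;> simp only [zero_smul, one_smul, zero_add, add_zero] at h2
    · exact Or.inl ⟨ha, hb, hc⟩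
    · exact absurd h2 qc
    · exact absurd h2 qb
    · exfalso
      apply qa
      have : U.mkQ (x' 0) = (U.mkQ (x' 0) + U.mkQ (x' 1) + U.mkQ (x' 2))
        - (U.mkQ (x' 1) + U.mkQ (x' 2)) := by abel
      rw [this, qabc, h2, sub_zero]
    · exact absurd h2 qa
    · exfalso
      apply qb
      have : U.mkQ (x' 1) = (U.mkQ (x' 0) + U.mkQ (x' 1) + U.mkQ (x' 2))
        - (U.mkQ (x' 0) + U.mkQ (x' 2)) := by abel
      rw [this, qabc, h2, sub_zero]
    · exfalso
      apply qc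
      rw [h2, zero_add] at qabc
      exact qabc
    · exact Or.inr ⟨ha, hb, hc⟩
  refine ⟨x, ?_, ?_, ?_, htot, ?_⟩
  · rw [ex 0 (by omega), hx00]
  · rw [ex 1 (by omega), hx01]
  · intro j hj
    rcases Nat.lt_or_ge j n0 with h5 | h5
    · rw [ex j h5]
      exact hx0 j h5
    · have h6 : j = n0 ∨ j = n0 + 1 ∨ j = n0 + 2 := by omega
      rcases h6 with rfl | rfl | rfl
      · rw [e0]; simpa using hx'C 0
      · rw [e1]; simpa using hx'C 1
      · rw [e2]; simpa using hx'C 2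
  · intro e hs
    rcases key1 e hs with ⟨z0, z1, z2⟩ | ⟨z0, z1, z2⟩
    · exact Or.inl (key0 e z0 z1 z2 hs)
    · right
      have h11 : (1 : ZMod 2) + 1 = 0 := by decide
      have h2 : ∑ j ∈ range (n0 + 3), (e j + if j = 2 then 0 else 1) • x j = 0 := by
        simp_rw [add_smul]
        rw [sum_add_distrib, hs, zero_add, ← add_sum_erase (range (n0 + 3)) _
          (mem_range.2 (by omega : 2 < n0 + 3)), if_pos rfl, zero_smul, zero_add, ← htot]
        refine sum_congr rfl fun j hj => ?_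
        rw [if_neg (mem_erase.1 hj).1, one_smul]
      have h3 := key0 (fun j => e j + if j = 2 then 0 else 1)
        (by rw [if_neg (by omega), z0, h11])
        (by rw [if_neg (by omega), z1, h11])
        (by rw [if_neg (by omega), z2, h11]) h2
      intro j hj
      exact zeq_of_add (h3 j hj)

end Pool.Agent.H38.CE
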