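import Pool.Agent.H38.CE.Even1

set_option autoImplicit false
set_option linter.unusedSectionVars false

/-!
# Labels and the pieces of the partition in the even case
-/

namespace Pool.Agent.H38.CE

open Finset

variable {F : Type} [Field F] [Fintype F] [DecidableEq F] [Algebra (ZMod 2) F]
variable {g : F} {h q : ℕ} {x : ℕ → F}

/-- the classes of the base elements -/
def kap (j : ℕ) : ℕ := if j = 2 then 0 else if j ≤ 1 then 1 else (j + 1) / 2

open Classical in
/-- the parity of the discrete logarithm -/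
noncomputable def lg (h : ℕ) (t u : F) : ZMod 2 := if ∃ k, k < h ∧ Odd k ∧ t ^ k = u then 1 else 0

theorem lg_pow {t : F} (ht : orderOf t = h) {k : ℕ} (hk : k < h) : lg h t (t ^ k) = (k : ZMod 2) := by
  unfold lg
  rcases Nat.even_or_odd k with he | ho
  · rw [if_neg, (ZMod.natCast_eq_zero_iff_even).2 he]
    rintro ⟨k', hk', ho', hp⟩
    have hinj := pow_injOn_Iio_orderOf (x := t)
    rw [ht] at hinj
    have := hinj hk' hk hp
    subst this
    exact (Nat.not_even_iff_odd.2 ho') he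
  · rw [if_pos ⟨k, hk, ho, rfl⟩, (ZMod.natCast_eq_one_iff_odd).2 ho]

/-- the data of the construction -/
structure Dat (g : F) (h q : ℕ) (x : ℕ → F) : Prop where
  S : Sub g h (2 * q + 1)
  hodd : Odd h
  hq : 1 ≤ q
  x1 : x 1 = g ^ (2 * q + 1) * x 0
  cls : ∀ j < 4 * q + 1, x j ∈ Cl g h (kap j)
  tot : ∑ j ∈ (range (4 * q + 1)).erase 2, x j = 0
  rel : ∀ e : ℕ → ZMod 2, ∑ j ∈ range (4 * q + 1), e j • x j = 0 →
        (∀ j < 4 * q + 1, e j = 0) ∨ (∀ j < 4 * q + 1, e j = if j = 2 then 0 else 1)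

theorem Sub.ordt {N : ℕ} (S : Sub g h N) : orderOf (g ^ N) = h := by
  rw [orderOf_pow_of_dvd S.Npos.ne' (by rw [S.ord]; exact Dvd.intro_left _ rfl), S.ord]
  exact Nat.mul_div_cancel _ S.Npos

theorem Sub.exists_log {N : ℕ} (S : Sub g h N) {u : F} (hu : u ∈ Cl g h 0) :
    ∃ k < h, (g ^ N) ^ k = u := by
  rw [mem_Cl, pow_zero] at hu
  obtain ⟨i, rfl⟩ := S.gen u hu.1
  have h1 : h * N ∣ i * h := by
    rw [← S.ord]
    apply orderOf_dvd_of_pow_eq_one
    rw [pow_mul]
    exact hu.2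
  rw [mul_comm i h] at h1
  obtain ⟨c, rfl⟩ := Nat.dvd_of_mul_dvd_mul_left S.hpos h1
  refine ⟨c % h, Nat.mod_lt _ S.hpos, ?_⟩
  have h2 := pow_mod_orderOf (g ^ N) c
  rw [S.ordt] at h2
  rw [h2, pow_mul]

theorem Dat.lg_sum (D : Dat g h q x) {u : F} (hu : u ∈ Cl g h 0) (hu1 : u ≠ 1) :
    lg h (g ^ (2 * q + 1)) u + lg h (g ^ (2 * q + 1)) (u / g ^ (2 * q + 1)) = 1 := by
  obtain ⟨k, hk, rfl⟩ := D.S.exists_log hu
  have hk0 : k ≠ 0 := by
    rintro rfl
    exact hu1 (pow_zero _)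
  have hg0 : g ^ (2 * q + 1) ≠ 0 := pow_ne_zero _ D.S.g0
  have h1 : (g ^ (2 * q + 1)) ^ k / g ^ (2 * q + 1) = (g ^ (2 * q + 1)) ^ (k - 1) := by
    rw [div_eq_iff hg0, ← pow_succ]
    congr 1
    omega
  rw [h1, lg_pow D.S.ordt hk, lg_pow D.S.ordt (by omega)]
  have h2 : ((k - 1 + 1 : ℕ) : ZMod 2) = (k : ZMod 2) := by
    congr 1
    omega
  rw [← h2, Nat.cast_add, add_right_comm, zadd_self, zero_add, Nat.cast_one]

theorem Dat.lg_one (D : Dat g h q x) :
    lg h (g ^ (2 * q + 1)) 1 + lg h (g ^ (2 * q + 1)) (1 / g ^ (2 * q + 1)) = 0 := by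
  have hg0 : g ^ (2 * q + 1) ≠ 0 := pow_ne_zero _ D.S.g0
  have hh := D.S.hpos
  have h0 : lg h (g ^ (2 * q + 1)) 1 = 0 := by
    have := lg_pow D.S.ordt hh
    rwa [pow_zero, Nat.cast_zero] at this
  have h1 : 1 / g ^ (2 * q + 1) = (g ^ (2 * q + 1)) ^ (h - 1) := by
    rw [div_eq_iff hg0, ← pow_succ]
    have h2 : h - 1 + 1 = h := by omega
    rw [h2]
    have h3 := pow_orderOf_eq_one (g ^ (2 * q + 1))
    rw [D.S.ordt] at h3
    exact h3.symm
  rw [h0, h1, lg_pow D.S.ordt (by omega), zero_add, ZMod.natCast_eq_zero_iff_even]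
  obtain ⟨c, hc⟩ := D.hodd
  exact ⟨c, by omega⟩

/-- the index of the base element -/
def sg (q i : ℕ) : ℕ := if i = 4 * q + 1 then 2 else i

/-- the labels of the base elements with index different from `2` -/
noncomputable def LL (q h : ℕ) (g u : F) (j : ℕ) : ZMod 2 :=
  if j = 0 then 1 + lg h (g ^ (2 * q + 1)) (u / g ^ (2 * q + 1)) else
  if j = 1 then lg h (g ^ (2 * q + 1)) u else ((j + 1 : ℕ) : ZMod 2)

/-- all labels -/
noncomputable def lam (q h : ℕ) (g u : F) (i : ℕ) : ZMod 2 :=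
  if i = 4 * q + 1 then 1 else if i = 2 then 0 else LL q h g u i

/-- the vectors -/
noncomputable def VV (q h : ℕ) (g : F) (x : ℕ → F) (u : F) (i : ℕ) : F × ZMod 2 :=
  (u * x (sg q i), lam q h g u i)

theorem sum_par (q : ℕ) : ∑ k ∈ range (4 * q + 3), ((k + 3 : ℕ) : ZMod 2) = 0 := by
  induction q with
  | zero => decide
  | succ q ih =>
    have h1 : 4 * (q + 1) + 3 = 4 * q + 3 + 1 + 1 + 1 + 1 := by ring
    rw [h1, sum_range_succ, sum_range_succ, sum_range_succ, sum_range_succ, ih]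
    have h2 : (0 : ZMod 2) + ((4 * q + 3 + 3 : ℕ) : ZMod 2) + ((4 * q + 3 + 1 + 3 : ℕ) : ZMod 2)
        + ((4 * q + 3 + 1 + 1 + 3 : ℕ) : ZMod 2) + ((4 * q + 3 + 1 + 1 + 1 + 3 : ℕ) : ZMod 2)
        = ((2 * (8 * q + 15) : ℕ) : ZMod 2) := by
      push_cast; ring
    rw [h2, ZMod.natCast_eq_zero_iff_even]
    exact ⟨8 * q + 15, by ring⟩

theorem sum_LL (hq : 1 ≤ q) (u : F) : ∑ j ∈ (range (4 * q + 1)).erase 2, LL q h g u j
    = lg h (g ^ (2 * q + 1)) u + lg h (g ^ (2 * q + 1)) (u / g ^ (2 * q + 1)) := by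
  have h1 := add_sum_erase (range (4 * q + 1)) (LL q h g u) (mem_range.2 (by omega : 2 < 4 * q + 1))
  have h2 : LL q h g u 2 = 1 := by
    unfold LL
    rw [if_neg (by norm_num), if_neg (by norm_num)]
    decide
  have h3 : ∑ j ∈ range (4 * q + 1), LL q h g u j = (1 + lg h (g ^ (2 * q + 1))
      (u / g ^ (2 * q + 1))) + lg h (g ^ (2 * q + 1)) u := by
    have e1 : 4 * q + 1 = (4 * (q - 1) + 3) + 1 + 1 := by omega
    rw [e1, sum_range_succ', sum_range_succ']
    have e2 : ∑ k ∈ range (4 * (q - 1) + 3), LL q h g u (k + 1 + 1) = 0 := by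
      rw [← sum_par (q - 1)]
      refine sum_congr rfl fun k _ => ?_
      unfold LL
      rw [if_neg (by omega), if_neg (by omega)]
    rw [e2]
    have e3 : LL q h g u (0 + 1) = lg h (g ^ (2 * q + 1)) u := by simp [LL]
    have e4 : LL q h g u 0 = 1 + lg h (g ^ (2 * q + 1)) (u / g ^ (2 * q + 1)) := by simp [LL]
    rw [e3, e4]
    ring
  rw [h2, h3] at h1
  have h4 : ∀ a b c : ZMod 2, 1 + a = 1 + b + c → a = c + b := by decide
  exact h4 _ _ _ h1

/-- indicator with values in the field with two elements -/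
def ind (I : Finset ℕ) (j : ℕ) : ZMod 2 := if j ∈ I then 1 else 0

theorem ind_zero {I : Finset ℕ} {j : ℕ} (hj : ind I j = 0) : j ∉ I := by
  intro h1
  unfold ind at hj
  rw [if_pos h1] at hj
  exact one_ne_zero hj

theorem ind_one {I : Finset ℕ} {j : ℕ} (hj : ind I j = 1) : j ∈ I := by
  by_contra h1
  unfold ind at hj
  rw [if_neg h1] at hj
  exact zero_ne_one hj

theorem sum_ind {W : Type} [AddCommGroup W] [Module (ZMod 2) W] {n : ℕ} {I : Finset ℕ}
    (hI : I ⊆ range n) (f : ℕ → W) : ∑ j ∈ I, f j = ∑ j ∈ range n, ind I j • f j := by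
  have h1 : ∀ j, ind I j • f j = if j ∈ I then f j else 0 := by
    intro j
    unfold ind
    split_ifs
    · rw [one_smul]
    · rw [zero_smul]
  simp_rw [h1]
  rw [← sum_filter]
  congr 1
  ext j
  rw [mem_filter]
  exact ⟨fun h => ⟨hI h, h⟩, fun h => h.2⟩

/-- subsets with sum zero in the first coordinate -/
theorem Dat.rel1 (D : Dat g h q x) {u : F} (hu : u ∈ Cl g h 0) {I : Finset ℕ}
    (hI : I ⊆ range (4 * q + 2)) (hs : ∑ i ∈ I, VV q h g x u i = 0) :
    (∀ j < 4 * q + 1, (ind I j + if j = 2 then ind I (4 * q + 1) else 0) = 0) ∨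
    (∀ j < 4 * q + 1, (ind I j + if j = 2 then ind I (4 * q + 1) else 0)
      = if j = 2 then 0 else 1) := by
  have hu0 : u ≠ 0 := (mem_Cl.1 hu).1
  apply D.rel
  have h1 := congrArg Prod.fst hs
  rw [Prod.fst_sum] at h1
  have h2 : ∑ i ∈ I, (VV q h g x u i).1 = u * ∑ i ∈ I, x (sg q i) := by
    rw [mul_sum]
    rfl
  rw [h2] at h1
  have h3 : ∑ i ∈ I, x (sg q i) = 0 := by
    rcases mul_eq_zero.1 h1 with h4 | h4
    · exact absurd h4 hu0
    · exact h4
  rw [sum_ind hI, sum_range_succ] at h3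
  have h4 : x (sg q (4 * q + 1)) = x 2 := by simp [sg]
  rw [h4] at h3
  simp_rw [add_smul]
  rw [sum_add_distrib, ← h3]
  congr 1
  · refine sum_congr rfl fun j hj => ?_
    have : j ≠ 4 * q + 1 := by
      have := mem_range.1 hj
      omega
    simp [sg, this]
  · have hq := D.hq
    have h5 : ∀ j, (if j = 2 then ind I (4 * q + 1) else 0 : ZMod 2) • x j
        = if j = 2 then ind I (4 * q + 1) • x 2 else 0 := by
      intro j
      split_ifs with h6
      · rw [h6]
      · rw [zero_smul]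
    simp_rw [h5]
    rw [sum_ite_eq' (range (4 * q + 1)) 2, if_pos (mem_range.2 (by omega))]

theorem Dat.sum_snd (D : Dat g h q x) {u : F} {I : Finset ℕ}
    (hI : I ⊆ range (4 * q + 2)) :
    (∑ i ∈ I, VV q h g x u i).2 = ∑ j ∈ (range (4 * q + 1)).erase 2, ind I j * LL q h g u j
      + ind I (4 * q + 1) := by
  have hq := D.hq
  rw [Prod.snd_sum, sum_ind hI, sum_range_succ, ← add_sum_erase (range (4 * q + 1)) _
    (mem_range.2 (by omega : 2 < 4 * q + 1))]
  have h1 : (VV q h g x u 2).2 = 0 := by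
    simp only [VV, lam]
    rw [if_neg (by omega), if_pos trivial]
  have h2 : (VV q h g x u (4 * q + 1)).2 = 1 := by
    simp only [VV, lam]
    rw [if_pos trivial]
  rw [h1, h2, smul_zero, zero_add, smul_eq_mul, mul_one]
  congr 1
  refine sum_congr rfl fun j hj => ?_
  rw [mem_erase, mem_range] at hj
  simp only [VV, lam]
  rw [if_neg (by omega), if_neg hj.1, smul_eq_mul]

theorem circ_of {W : Type} [AddCommGroup W] [DecidableEq W] {I0 : Finset ℕ} {f : ℕ → W}
    (hne : I0.Nonempty) (hinj : ∀ i ∈ I0, ∀ j ∈ I0, f i = f j → i = j) (htot : ∑ i ∈ I0, f i = 0)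
    (hmin : ∀ I ⊆ I0, ∑ i ∈ I, f i = 0 → I = ∅ ∨ I = I0) : IsCirc (I0.image f) := by
  classical
  refine ⟨hne.image f, ?_, ?_⟩
  · rw [sum_image hinj]
    exact htot
  · intro D hD hDn hs
    set I := I0.filter fun j => f j ∈ D with hI
    have hIr : I ⊆ I0 := filter_subset _ _
    have hDI : D = I.image f := by
      ext v
      constructor
      · intro hv
        obtain ⟨j, hj, rfl⟩ := mem_image.1 (hD.1 hv)
        exact mem_image_of_mem _ (mem_filter.2 ⟨hj, hv⟩)
      · intro hv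
        obtain ⟨j, hj, rfl⟩ := mem_image.1 hv
        exact (mem_filter.1 hj).2
    rw [hDI, sum_image fun i hi j hj hij => hinj i (hIr hi) j (hIr hj) hij] at hs
    rcases hmin I hIr hs with h1 | h1
    · obtain ⟨v, hv⟩ := hDn
      rw [hDI, h1] at hv
      simp at hv
    · apply hD.2
      rw [hDI, h1]

theorem kap_lt (hq : 1 ≤ q) {j : ℕ} (hj : j < 4 * q + 1) : kap j < 2 * q + 1 := by
  unfold kap
  split_ifs <;> omega

theorem sg_lt (hq : 1 ≤ q) {i : ℕ} (hi : i < 4 * q + 2) : sg q i < 4 * q + 1 := by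
  unfold sg
  split_ifs <;> omega

/-- every vector with nonzero first coordinate occurs exactly once -/
theorem Dat.cover (D : Dat g h q x) {z : F} (hz : z ≠ 0) (y : ZMod 2) :
    ∃ i < 4 * q + 2, ∃ u ∈ Cl g h 0, VV q h g x u i = (z, y) ∧
      ∀ i' < 4 * q + 2, ∀ u' ∈ Cl g h 0, VV q h g x u' i' = (z, y) → i' = i ∧ u' = u := by
  obtain ⟨j0, hj0, hzj⟩ := D.S.exists_cl hz
  have hq := D.hq
  have hxc : ∀ i < 4 * q + 2, x (sg q i) ∈ Cl g h (kap (sg q i)) := fun i hi =>
    D.cls _ (sg_lt hq hi)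
  suffices hR : ∃ i < 4 * q + 2, (kap (sg q i) = j0 ∧ lam q h g (z / x (sg q i)) i = y) ∧
      ∀ i' < 4 * q + 2, (kap (sg q i') = j0 ∧ lam q h g (z / x (sg q i')) i' = y) → i' = i by
    obtain ⟨i, hi, ⟨h1, h2⟩, hiu⟩ := hR
    have hx0 : x (sg q i) ≠ 0 := (mem_Cl.1 (hxc i hi)).1
    refine ⟨i, hi, z / x (sg q i), div_cl hzj (by rw [← h1]; exact hxc i hi), ?_, ?_⟩
    · simp only [VV]
      rw [h2, div_mul_cancel₀ _ hx0]
    · intro i' hi' u' hu' he
      simp only [VV, Prod.mk.injEq] at he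
      have hx0' : x (sg q i') ≠ 0 := (mem_Cl.1 (hxc i' hi')).1
      have hu'' : u' = z / x (sg q i') := by
        rw [eq_div_iff hx0']
        exact he.1
      have h3 : z ∈ Cl g h (kap (sg q i')) := by
        rw [← he.1]
        exact mul_cl hu' (hxc i' hi')
      have h4 := D.S.cl_unique (kap_lt hq (sg_lt hq hi')) hj0 h3 hzj
      have h5 := hiu i' hi' ⟨h4, by rw [← hu'']; exact he.2⟩
      refine ⟨h5, ?_⟩
      rw [hu'', h5]
  have hx1 : z / x 1 = z / x 0 / g ^ (2 * q + 1) := by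
    rw [D.x1, div_div, mul_comm]
  have hcases : j0 = 0 ∨ j0 = 1 ∨ 2 ≤ j0 := by omega
  have one_cases : ∀ a b : ZMod 2, a = b ∨ 1 + a = b := by decide
  have one_excl : ∀ a b : ZMod 2, a = b → 1 + a = b → False := by decide
  rcases hcases with h1 | h1 | h1
  · subst h1
    have hidx : ∀ i' < 4 * q + 2, kap (sg q i') = 0 → i' = 2 ∨ i' = 4 * q + 1 := by
      intro i' hi' hk
      unfold kap sg at hk
      split_ifs at hk <;> omega
    have l2 : ∀ u, lam q h g u 2 = 0 := by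
      intro u
      unfold lam
      rw [if_neg (by omega), if_pos rfl]
    have lM : ∀ u, lam q h g u (4 * q + 1) = 1 := by
      intro u
      unfold lam
      rw [if_pos rfl]
    have k2 : kap (sg q 2) = 0 := by
      unfold sg
      rw [if_neg (by omega)]
      rfl
    have kM : kap (sg q (4 * q + 1)) = 0 := by
      unfold sg
      rw [if_pos rfl]
      rfl
    rcases zmod2_cases y with rfl | rfl
    · refine ⟨2, by omega, ⟨k2, l2 _⟩, ?_⟩
      rintro i' hi' ⟨hk, hl⟩
      rcases hidx i' hi' hk with rfl | rfl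
      · rfl
      · rw [lM] at hl
        exact absurd hl one_ne_zero
    · refine ⟨4 * q + 1, by omega, ⟨kM, lM _⟩, ?_⟩
      rintro i' hi' ⟨hk, hl⟩
      rcases hidx i' hi' hk with rfl | rfl
      · rw [l2] at hl
        exact absurd hl zero_ne_one
      · rfl
  · subst h1
    have hidx : ∀ i' < 4 * q + 2, kap (sg q i') = 1 → i' = 0 ∨ i' = 1 := by
      intro i' hi' hk
      unfold kap sg at hk
      split_ifs at hk <;> omega
    have s0 : sg q 0 = 0 := by
      unfold sg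
      rw [if_neg (by omega)]
    have s1 : sg q 1 = 1 := by
      unfold sg
      rw [if_neg (by omega)]
    have l0 : ∀ u, lam q h g u 0 = 1 + lg h (g ^ (2 * q + 1)) (u / g ^ (2 * q + 1)) := by
      intro u
      unfold lam LL
      rw [if_neg (by omega), if_neg (by omega), if_pos rfl]
    have l1 : ∀ u, lam q h g u 1 = lg h (g ^ (2 * q + 1)) u := by
      intro u
      unfold lam LL
      rw [if_neg (by omega), if_neg (by omega), if_neg (by omega), if_pos rfl]
    rcases one_cases (lg h (g ^ (2 * q + 1)) (z / x 0 / g ^ (2 * q + 1))) y with hy | hy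
    · refine ⟨1, by omega, ⟨by rw [s1]; rfl, by rw [s1, l1, hx1]; exact hy⟩, ?_⟩
      rintro i' hi' ⟨hk, hl⟩
      rcases hidx i' hi' hk with rfl | rfl
      · rw [s0, l0] at hl
        exact (one_excl _ _ hy hl).elim
      · rfl
    · refine ⟨0, by omega, ⟨by rw [s0]; rfl, by rw [s0, l0]; exact hy⟩, ?_⟩
      rintro i' hi' ⟨hk, hl⟩
      rcases hidx i' hi' hk with rfl | rfl
      · rfl
      · rw [s1, l1, hx1] at hl
        exact (one_excl _ _ hl hy).elim
  · have hidx : ∀ i' < 4 * q + 2, kap (sg q i') = j0 → i' = 2 * j0 - 1 ∨ i' = 2 * j0 := by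
      intro i' hi' hk
      unfold kap sg at hk
      split_ifs at hk <;> omega
    have ks : ∀ i, (i = 2 * j0 - 1 ∨ i = 2 * j0) → kap (sg q i) = j0 ∧
        ∀ u, lam q h g u i = ((i + 1 : ℕ) : ZMod 2) := by
      intro i hi
      have h2 : sg q i = i := by
        unfold sg
        rw [if_neg (by omega)]
      refine ⟨?_, fun u => ?_⟩
      · rw [h2]
        unfold kap
        rw [if_neg (by omega), if_neg (by omega)]
        omega
      · unfold lam LL
        rw [if_neg (by omega), if_neg (by omega), if_neg (by omega), if_neg (by omega)]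
    have c1 : ((2 * j0 - 1 + 1 : ℕ) : ZMod 2) = 0 := by
      rw [ZMod.natCast_eq_zero_iff_even]
      exact ⟨j0, by omega⟩
    have c2 : ((2 * j0 + 1 : ℕ) : ZMod 2) = 1 := by
      rw [ZMod.natCast_eq_one_iff_odd]
      exact ⟨j0, by omega⟩
    obtain ⟨ka, la⟩ := ks (2 * j0 - 1) (Or.inl rfl)
    obtain ⟨kb, lb⟩ := ks (2 * j0) (Or.inr rfl)
    rcases zmod2_cases y with rfl | rfl
    · refine ⟨2 * j0 - 1, by omega, ⟨ka, by rw [la, c1]⟩, ?_⟩
      rintro i' hi' ⟨hk, hl⟩
      rcases hidx i' hi' hk with rfl | rfl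
      · rfl
      · rw [lb, c2] at hl
        exact absurd hl one_ne_zero
    · refine ⟨2 * j0, by omega, ⟨kb, by rw [lb, c2]⟩, ?_⟩
      rintro i' hi' ⟨hk, hl⟩
      rcases hidx i' hi' hk with rfl | rfl
      · rw [la, c1] at hl
        exact absurd hl zero_ne_one
      · rfl

end Pool.Agent.H38.CE
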