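import Pool.Agent.H38.CE.Even2

set_option autoImplicit false
set_option linter.unusedSectionVars false

/-!
# The partition in the even case
-/

namespace Pool.Agent.H38.CE

open Finset

variable {F : Type} [Field F] [Fintype F] [DecidableEq F] [Algebra (ZMod 2) F]
variable {g : F} {h q : ℕ} {x : ℕ → F}

theorem Dat.x_ne (D : Dat g h q x) {i : ℕ} (hi : i < 4 * q + 2) : x (sg q i) ≠ 0 :=
  (mem_Cl.1 (D.cls _ (sg_lt D.hq hi))).1

theorem Dat.VV_fst (D : Dat g h q x) {u : F} (hu : u ∈ Cl g h 0) {i : ℕ} (hi : i < 4 * q + 2) :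
    (VV q h g x u i).1 ≠ 0 := mul_ne_zero (mem_Cl.1 hu).1 (D.x_ne hi)

theorem Dat.inj (D : Dat g h q x) {u u' : F} (hu : u ∈ Cl g h 0) (hu' : u' ∈ Cl g h 0) {i i' : ℕ}
    (hi : i < 4 * q + 2) (hi' : i' < 4 * q + 2) (he : VV q h g x u i = VV q h g x u' i') :
    i = i' ∧ u = u' := by
  obtain ⟨i0, -, u0, -, -, hun⟩ := D.cover (D.VV_fst hu hi) (VV q h g x u i).2
  have h1 := hun i hi u hu rfl
  have h2 := hun i' hi' u' hu' he.symm
  exact ⟨h1.1.trans h2.1.symm, h1.2.trans h2.2.symm⟩

/-- the main circuits -/
theorem Dat.circ1 (D : Dat g h q x) {u : F} (hu : u ∈ Cl g h 0) (hu1 : u ≠ 1) :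
    IsCirc ((range (4 * q + 2)).image (VV q h g x u)) := by
  have hq := D.hq
  have hlab : ∑ j ∈ (range (4 * q + 1)).erase 2, LL q h g u j = 1 := by
    rw [sum_LL hq, D.lg_sum hu hu1]
  have hfst : ∀ I : Finset ℕ, (∑ i ∈ I, VV q h g x u i).1 = u * ∑ i ∈ I, x (sg q i) := by
    intro I
    rw [Prod.fst_sum, mul_sum]
    rfl
  refine circ_of ⟨0, mem_range.2 (by omega)⟩ ?_ ?_ ?_
  · intro i hi j hj hij
    exact (D.inj hu hu (mem_range.1 hi) (mem_range.1 hj) hij).1
  · apply Prod.ext
    · rw [hfst, sum_range_succ, ← add_sum_erase (range (4 * q + 1)) _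
        (mem_range.2 (by omega : 2 < 4 * q + 1))]
      have h1 : ∑ j ∈ (range (4 * q + 1)).erase 2, x (sg q j) = 0 := by
        rw [← D.tot]
        refine sum_congr rfl fun j hj => ?_
        rw [mem_erase, mem_range] at hj
        unfold sg
        rw [if_neg (by omega)]
      have h2 : x (sg q 2) = x 2 := by
        unfold sg
        rw [if_neg (by omega)]
      have h3 : x (sg q (4 * q + 1)) = x 2 := by
        unfold sg
        rw [if_pos rfl]
      rw [h1, h2, h3, add_zero, add_self_F, mul_zero]
      rfl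
    · rw [D.sum_snd (Subset.refl _)]
      have h1 : ∀ j ∈ (range (4 * q + 1)).erase 2, ind (range (4 * q + 2)) j * LL q h g u j
          = LL q h g u j := by
        intro j hj
        rw [mem_erase, mem_range] at hj
        unfold ind
        rw [if_pos (mem_range.2 (by omega)), one_mul]
      rw [sum_congr rfl h1, hlab]
      unfold ind
      rw [if_pos (mem_range.2 (by omega))]
      change (1 : ZMod 2) + 1 = 0
      decide
  · intro I hI hs
    have hsnd : (∑ i ∈ I, VV q h g x u i).2 = 0 := by rw [hs]; rfl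
    rw [D.sum_snd hI] at hsnd
    rcases D.rel1 hu hI hs with h1 | h1
    · left
      have h2 : ∀ j < 4 * q + 1, j ≠ 2 → ind I j = 0 := by
        intro j hj hj2
        have := h1 j hj
        rwa [if_neg hj2, add_zero] at this
      have h3 : ∑ j ∈ (range (4 * q + 1)).erase 2, ind I j * LL q h g u j = 0 := by
        refine sum_eq_zero fun j hj => ?_
        rw [mem_erase, mem_range] at hj
        rw [h2 j hj.2 hj.1, zero_mul]
      rw [h3, zero_add] at hsnd
      have h4 := h1 2 (by omega)
      rw [if_pos rfl, hsnd, add_zero] at h4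
      rw [eq_empty_iff_forall_notMem]
      intro j hj
      have hj' := mem_range.1 (hI hj)
      rcases Nat.lt_or_ge j (4 * q + 1) with h5 | h5
      · by_cases h6 : j = 2
        · subst h6
          exact ind_zero h4 hj
        · exact ind_zero (h2 j h5 h6) hj
      · have h6 : j = 4 * q + 1 := by omega
        subst h6
        exact ind_zero hsnd hj
    · right
      have h2 : ∀ j < 4 * q + 1, j ≠ 2 → ind I j = 1 := by
        intro j hj hj2
        have := h1 j hj
        rwa [if_neg hj2, if_neg hj2, add_zero] at this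
      have h3 : ∑ j ∈ (range (4 * q + 1)).erase 2, ind I j * LL q h g u j = 1 := by
        rw [← hlab]
        refine sum_congr rfl fun j hj => ?_
        rw [mem_erase, mem_range] at hj
        rw [h2 j hj.2 hj.1, one_mul]
      rw [h3] at hsnd
      have h6 : ind I (4 * q + 1) = 1 := (zeq_of_add hsnd).symm
      have h4 := h1 2 (by omega)
      rw [if_pos rfl, if_pos rfl, h6] at h4
      have h7 : ind I 2 = 1 := zeq_of_add h4
      refine subset_antisymm hI fun j hj => ?_
      have hj' := mem_range.1 hj
      rcases Nat.lt_or_ge j (4 * q + 1) with h5 | h5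
      · by_cases h8 : j = 2
        · subst h8
          exact ind_one h7
        · exact ind_one (h2 j h5 h8)
      · have h8 : j = 4 * q + 1 := by omega
        subst h8
        exact ind_one h6

/-- the special circuit -/
theorem Dat.circ2 (D : Dat g h q x) :
    IsCirc (((range (4 * q + 1)).erase 2).image (VV q h g x 1)) := by
  have hq := D.hq
  have hone : (1 : F) ∈ Cl g h 0 := one_cl
  have hlab : ∑ j ∈ (range (4 * q + 1)).erase 2, LL q h g 1 j = 0 := by
    rw [sum_LL hq, D.lg_one]
  have hsub : (range (4 * q + 1)).erase 2 ⊆ range (4 * q + 2) := by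
    intro j hj
    rw [mem_erase, mem_range] at hj
    exact mem_range.2 (by omega)
  refine circ_of ⟨0, mem_erase.2 ⟨by omega, mem_range.2 (by omega)⟩⟩ ?_ ?_ ?_
  · intro i hi j hj hij
    exact (D.inj hone hone (mem_range.1 (hsub hi)) (mem_range.1 (hsub hj)) hij).1
  · apply Prod.ext
    · rw [Prod.fst_sum]
      have h1 : ∑ j ∈ (range (4 * q + 1)).erase 2, (VV q h g x 1 j).1
          = ∑ j ∈ (range (4 * q + 1)).erase 2, x j := by
        refine sum_congr rfl fun j hj => ?_
        rw [mem_erase, mem_range] at hj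
        simp only [VV]
        unfold sg
        rw [if_neg (by omega), one_mul]
      rw [h1, D.tot]
      rfl
    · rw [D.sum_snd hsub]
      have h1 : ∀ j ∈ (range (4 * q + 1)).erase 2,
          ind ((range (4 * q + 1)).erase 2) j * LL q h g 1 j = LL q h g 1 j := by
        intro j hj
        unfold ind
        rw [if_pos hj, one_mul]
      rw [sum_congr rfl h1, hlab]
      unfold ind
      rw [if_neg (by
        rw [mem_erase, mem_range]
        omega)]
      change (0 : ZMod 2) + 0 = 0
      decide
  · intro I hI hs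
    have h2n : ind I 2 = 0 := by
      unfold ind
      rw [if_neg (fun h' => (mem_erase.1 (hI h')).1 rfl)]
    have hMn : ind I (4 * q + 1) = 0 := by
      unfold ind
      rw [if_neg (fun h' => by
        have := mem_range.1 (mem_erase.1 (hI h')).2
        omega)]
    rcases D.rel1 hone (hI.trans hsub) hs with h1 | h1
    · left
      rw [eq_empty_iff_forall_notMem]
      intro j hj
      have hj' := mem_erase.1 (hI hj)
      have h2 := h1 j (mem_range.1 hj'.2)
      rw [if_neg hj'.1, add_zero] at h2
      exact ind_zero h2 hj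
    · right
      refine subset_antisymm hI fun j hj => ?_
      have hj' := mem_erase.1 hj
      have h2 := h1 j (mem_range.1 hj'.2)
      rw [if_neg hj'.1, if_neg hj'.1, add_zero] at h2
      exact ind_one h2

/-- the small circuit -/
theorem circ3 {z : F} (hz : z ≠ 0) :
    IsCirc ((range 3).image fun i => if i = 0 then ((z, 0) : F × ZMod 2) else
      if i = 1 then (z, 1) else (0, 1)) := by
  refine circ_of ⟨0, by simp⟩ ?_ ?_ ?_
  · intro i hi j hj hij
    have hi' := mem_range.1 hi
    have hj' := mem_range.1 hj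
    interval_cases i <;> interval_cases j <;> simp_all
  · rw [sum_range_succ, sum_range_succ, sum_range_one]
    apply Prod.ext
    · simp [add_self_F]
    · simp only [Prod.snd_add]
      norm_num
      decide
  · intro I hI hs
    rw [sum_ind hI, sum_range_succ, sum_range_succ, sum_range_one] at hs
    have h1 := congrArg Prod.fst hs
    have h2 := congrArg Prod.snd hs
    simp at h1 h2
    rcases zmod2_cases (ind I 0) with a0 | a0 <;> rcases zmod2_cases (ind I 1) with a1 | a1 <;>
      rcases zmod2_cases (ind I 2) with a2 | a2 <;> rw [a0, a1] at h1 <;> rw [a1, a2] at h2 <;>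
      simp at h1 h2
    · left
      rw [eq_empty_iff_forall_notMem]
      intro j hj
      have hj' := mem_range.1 (hI hj)
      interval_cases j
      · exact ind_zero a0 hj
      · exact ind_zero a1 hj
      · exact ind_zero a2 hj
    all_goals first | exact absurd h1 hz | skip
    right
    refine subset_antisymm hI fun j hj => ?_
    have hj' := mem_range.1 hj
    interval_cases j
    · exact ind_one a0
    · exact ind_one a1
    · exact ind_one a2

/-- the pieces -/
theorem Dat.pieces (D : Dat g h q x) : ∃ parts : Finset (Finset (F × ZMod 2)),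
    (∀ t ∈ parts, IsCirc t) ∧ (∀ t ∈ parts, (0 : F × ZMod 2) ∉ t) ∧
    (∀ w : F × ZMod 2, w ≠ 0 → ∃ t ∈ parts, w ∈ t ∧ ∀ t' ∈ parts, w ∈ t' → t' = t) ∧
    parts.card ≤ h + 1 := by
  classical
  have hq := D.hq
  have hone : (1 : F) ∈ Cl g h 0 := one_cl
  have hx2 : x 2 ≠ 0 := (mem_Cl.1 (D.cls 2 (by omega))).1
  set CC : F → Finset (F × ZMod 2) := fun u => (range (4 * q + 2)).image (VV q h g x u) with hCC
  set A : Finset (F × ZMod 2) := ((range (4 * q + 1)).erase 2).image (VV q h g x 1) with hA
  set B : Finset (F × ZMod 2) := (range 3).image fun i => if i = 0 then ((x 2, 0) : F × ZMod 2)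
    else if i = 1 then (x 2, 1) else (0, 1) with hB
  have e2 : VV q h g x 1 2 = (x 2, 0) := by
    unfold VV sg lam
    rw [if_neg (by omega), if_neg (by omega), if_pos rfl, one_mul]
  have eM : VV q h g x 1 (4 * q + 1) = (x 2, 1) := by
    unfold VV sg lam
    rw [if_pos rfl, if_pos rfl, one_mul]
  have mC : ∀ u w, w ∈ CC u → ∃ i < 4 * q + 2, VV q h g x u i = w := by
    intro u w hw
    obtain ⟨i, hi, he⟩ := mem_image.1 hw
    exact ⟨i, mem_range.1 hi, he⟩
  have mA : ∀ w, w ∈ A → ∃ i, i ≠ 2 ∧ i < 4 * q + 1 ∧ VV q h g x 1 i = w := by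
    intro w hw
    obtain ⟨i, hi, he⟩ := mem_image.1 hw
    rw [mem_erase, mem_range] at hi
    exact ⟨i, hi.1, hi.2, he⟩
  have mB : ∀ w, w ∈ B ↔ (w = (x 2, 0) ∨ w = (x 2, 1) ∨ w = (0, 1)) := by
    intro w
    rw [hB, mem_image]
    constructor
    · rintro ⟨i, hi, he⟩
      have hi' := mem_range.1 hi
      interval_cases i
      · left; rw [← he, if_pos rfl]
      · right; left; rw [← he, if_neg (by norm_num), if_pos rfl]
      · right; right; rw [← he, if_neg (by norm_num), if_neg (by norm_num)]
    · rintro (h1 | h1 | h1)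
      · exact ⟨0, by simp, by rw [h1, if_pos rfl]⟩
      · exact ⟨1, by simp, by rw [h1, if_neg (by norm_num), if_pos rfl]⟩
      · exact ⟨2, by simp, by rw [h1, if_neg (by norm_num), if_neg (by norm_num)]⟩
  set parts : Finset (Finset (F × ZMod 2)) := ((Cl g h 0).erase 1).image CC ∪ {A, B} with hparts
  have mem_parts : ∀ t, t ∈ parts ↔ ((∃ u ∈ Cl g h 0, u ≠ 1 ∧ CC u = t) ∨ t = A ∨ t = B) := by
    intro t
    rw [hparts, mem_union, mem_image, mem_insert, mem_singleton]
    constructor
    · rintro (⟨u, hu, he⟩ | h1)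
      · exact Or.inl ⟨u, (mem_erase.1 hu).2, (mem_erase.1 hu).1, he⟩
      · exact Or.inr h1
    · rintro (⟨u, hu, hu1, he⟩ | h1)
      · exact Or.inl ⟨u, mem_erase.2 ⟨hu1, hu⟩, he⟩
      · exact Or.inr h1
  refine ⟨parts, ?_, ?_, ?_, ?_⟩
  · intro t ht
    rcases (mem_parts t).1 ht with ⟨u, hu, hu1, rfl⟩ | rfl | rfl
    · exact D.circ1 hu hu1
    · exact D.circ2
    · exact circ3 hx2
  · intro t ht h0
    rcases (mem_parts t).1 ht with ⟨u, hu, hu1, rfl⟩ | rfl | rfl
    · obtain ⟨i, hi, he⟩ := mC u 0 h0
      have := D.VV_fst hu hi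
      rw [he] at this
      exact this rfl
    · obtain ⟨i, -, hi, he⟩ := mA 0 h0
      have := D.VV_fst hone (show i < 4 * q + 2 by omega)
      rw [he] at this
      exact this rfl
    · rcases (mB 0).1 h0 with h1 | h1 | h1
      · exact hx2 (congrArg Prod.fst h1).symm
      · exact hx2 (congrArg Prod.fst h1).symm
      · exact zero_ne_one (congrArg Prod.snd h1)
  · rintro ⟨z, y⟩ hw
    by_cases hz : z = 0
    · subst hz
      have hy : y = 1 := by
        rcases zmod2_cases y with rfl | rfl
        · exact absurd rfl hw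
        · rfl
      subst hy
      refine ⟨B, (mem_parts B).2 (Or.inr (Or.inr rfl)), (mB _).2 (Or.inr (Or.inr rfl)), ?_⟩
      intro t' ht' hwt
      rcases (mem_parts t').1 ht' with ⟨u, hu, hu1, rfl⟩ | rfl | rfl
      · obtain ⟨i, hi, he⟩ := mC u _ hwt
        have := D.VV_fst hu hi
        rw [he] at this
        exact absurd rfl this
      · obtain ⟨i, -, hi, he⟩ := mA _ hwt
        have := D.VV_fst hone (show i < 4 * q + 2 by omega)
        rw [he] at this
        exact absurd rfl this
      · rfl
    · obtain ⟨i, hi, u, hu, he, hun⟩ := D.cover hz y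
      -- consequences of membership
      have cC : ∀ u' ∈ Cl g h 0, (z, y) ∈ CC u' → u' = u := by
        intro u' hu' hm
        obtain ⟨i', hi', he'⟩ := mC u' _ hm
        exact (hun i' hi' u' hu' he').2
      have cA : (z, y) ∈ A → 1 = u ∧ i ≠ 2 ∧ i ≠ 4 * q + 1 := by
        intro hm
        obtain ⟨i', h2, hi', he'⟩ := mA _ hm
        have := hun i' (by omega) 1 hone he'
        refine ⟨this.2, ?_, ?_⟩
        · rw [← this.1]; exact h2
        · rw [← this.1]; omega
      have cB : (z, y) ∈ B → 1 = u ∧ (i = 2 ∨ i = 4 * q + 1) := by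
        intro hm
        rcases (mB _).1 hm with h1 | h1 | h1
        · have := hun 2 (by omega) 1 hone (e2.trans h1.symm)
          exact ⟨this.2, Or.inl this.1.symm⟩
        · have := hun (4 * q + 1) (by omega) 1 hone (eM.trans h1.symm)
          exact ⟨this.2, Or.inr this.1.symm⟩
        · exact absurd (congrArg Prod.fst h1) hz
      by_cases hu1 : u = 1
      · subst hu1
        by_cases hi2 : i = 2 ∨ i = 4 * q + 1
        · refine ⟨B, (mem_parts B).2 (Or.inr (Or.inr rfl)), (mB _).2 ?_, ?_⟩
          · rcases hi2 with rfl | rfl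
            · left; rw [← he, e2]
            · right; left; rw [← he, eM]
          · intro t' ht' hwt
            rcases (mem_parts t').1 ht' with ⟨u', hu', hu1', rfl⟩ | rfl | rfl
            · exact absurd (cC u' hu' hwt) hu1'
            · obtain ⟨-, h2, h3⟩ := cA hwt
              rcases hi2 with h4 | h4
              · exact absurd h4 h2
              · exact absurd h4 h3
            · rfl
        · push Not at hi2
          refine ⟨A, (mem_parts A).2 (Or.inr (Or.inl rfl)), ?_, ?_⟩
          · rw [hA, mem_image]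
            exact ⟨i, mem_erase.2 ⟨hi2.1, mem_range.2 (by omega)⟩, he⟩
          · intro t' ht' hwt
            rcases (mem_parts t').1 ht' with ⟨u', hu', hu1', rfl⟩ | rfl | rfl
            · exact absurd (cC u' hu' hwt) hu1'
            · rfl
            · rcases (cB hwt).2 with h4 | h4
              · exact absurd h4 hi2.1
              · exact absurd h4 hi2.2
      · refine ⟨CC u, (mem_parts _).2 (Or.inl ⟨u, hu, hu1, rfl⟩),
          mem_image.2 ⟨i, mem_range.2 hi, he⟩, ?_⟩
        intro t' ht' hwt
        rcases (mem_parts t').1 ht' with ⟨u', hu', hu1', rfl⟩ | rfl | rfl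
        · rw [cC u' hu' hwt]
        · exact absurd (cA hwt).1.symm hu1
        · exact absurd (cB hwt).1.symm hu1
  · refine le_trans (card_union_le _ _) ?_
    have h1 : (((Cl g h 0).erase 1).image CC).card ≤ h - 1 := by
      refine le_trans card_image_le ?_
      rw [card_erase_of_mem hone, D.S.card_cl]
    have h2 : ({A, B} : Finset (Finset (F × ZMod 2))).card ≤ 2 := card_le_two
    have h3 := D.S.hpos
    omega

/-- transport of a partition -/
theorem transport {W W' : Type} [AddCommGroup W] [Module (ZMod 2) W] [DecidableEq W]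
    [AddCommGroup W'] [Module (ZMod 2) W'] [Fintype W'] [DecidableEq W']
    (partsW : Finset (Finset W)) (hcirc : ∀ t ∈ partsW, IsCirc t)
    (hne0 : ∀ t ∈ partsW, (0 : W) ∉ t)
    (huniq : ∀ w : W, w ≠ 0 → ∃ t ∈ partsW, w ∈ t ∧ ∀ t' ∈ partsW, w ∈ t' → t' = t)
    (e : W ≃ₗ[ZMod 2] W') :
    ∃ P : Finpartition ((univ : Finset W').erase 0), (∀ C ∈ P.parts, IsCirc C) ∧
      P.parts.card ≤ partsW.card := by
  classical
  set parts : Finset (Finset W') := partsW.image (fun t => t.image e) with hparts
  have hmem : ∀ t : Finset W, ∀ v : W', v ∈ t.image e ↔ e.symm v ∈ t := by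
    intro t v
    rw [mem_image]
    constructor
    · rintro ⟨w, hw, rfl⟩
      rwa [LinearEquiv.symm_apply_apply]
    · intro hv
      exact ⟨_, hv, LinearEquiv.apply_symm_apply _ _⟩
  refine ⟨Finpartition.ofExistsUnique parts ?_ ?_ ?_, ?_, ?_⟩
  · intro p hp v hv
    obtain ⟨t, ht, rfl⟩ := mem_image.1 hp
    rw [mem_erase]
    refine ⟨?_, mem_univ _⟩
    rintro rfl
    rw [hmem, map_zero] at hv
    exact hne0 t ht hv
  · intro v hv
    have hv0 : e.symm v ≠ 0 := by
      intro h0
      apply (mem_erase.1 hv).1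
      have := congrArg e h0
      rwa [LinearEquiv.apply_symm_apply, map_zero] at this
    obtain ⟨t, ht, hvt, htu⟩ := huniq _ hv0
    refine ⟨t.image e, ⟨mem_image_of_mem _ ht, (hmem t v).2 hvt⟩, ?_⟩
    rintro t' ⟨ht', hvt'⟩
    obtain ⟨s, hs, rfl⟩ := mem_image.1 ht'
    rw [htu s hs ((hmem s v).1 hvt')]
  · intro hempty
    obtain ⟨t, ht, hte⟩ := mem_image.1 hempty
    have := (hcirc t ht).1
    rw [image_eq_empty] at hte
    exact this.ne_empty hte
  · intro C hC
    obtain ⟨t, ht, rfl⟩ := mem_image.1 (show C ∈ parts from hC)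
    exact (hcirc t ht).image e.toLinearMap.toAddMonoidHom e.injective
  · change parts.card ≤ _
    exact card_image_le

end Pool.Agent.H38.CE
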