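import Pool.Agent.H38.CE.Even3

set_option autoImplicit false
set_option linter.unusedSectionVars false

/-!
# The complete binary matroid of odd rank `r` for `r + 1` dividing `2 ^ r - 2`
-/

namespace Pool.Agent.H38.CE

open Finset

theorem numeric2 {h : ℕ} {n Q : ℝ} (hn : 0 < n) (hQ : 20 * n ^ 2 ≤ Q) (hQ660 : 660 * n ≤ Q)
    (hQ1 : 20000 ≤ Q) (hh : n * h = Q ^ 2 - 1) :
    Q < h ∧ 9 * Q * h + 16 * Q ^ 3 + 9 * Q ^ 2 < (h : ℝ) ^ 2 := by
  generalize (h : ℝ) = k at *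
  have hQ0 : 0 < Q := by linarith
  constructor
  · have h1 : n * Q < n * k := by
      rw [hh]
      nlinarith
    exact lt_of_mul_lt_mul_left h1 hn.le
  · have h2 : n ^ 2 * (9 * Q * k + 16 * Q ^ 3 + 9 * Q ^ 2) < n ^ 2 * k ^ 2 := by
      have e1 : n ^ 2 * (9 * Q * k + 16 * Q ^ 3 + 9 * Q ^ 2)
          = 9 * Q * n * (n * k) + 16 * Q ^ 3 * n ^ 2 + 9 * Q ^ 2 * n ^ 2 := by ring
      have e2 : n ^ 2 * k ^ 2 = (n * k) ^ 2 := by ring
      rw [e1, e2, hh]
      have a1 : 9 * Q * n * (Q ^ 2 - 1) ≤ 9 / 660 * Q ^ 4 := by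
        have t1 : 0 ≤ Q ^ 2 - 1 := by nlinarith
        have t2 : 9 * Q * n * (Q ^ 2 - 1) ≤ 9 * Q * n * Q ^ 2 := by
          apply mul_le_mul_of_nonneg_left _ (by positivity)
          linarith
        have t3 : 9 * Q * n * Q ^ 2 = 9 * Q ^ 3 * n := by ring
        have t4 : 9 * Q ^ 3 * n ≤ 9 * Q ^ 3 * (Q / 660) := by
          apply mul_le_mul_of_nonneg_left _ (by positivity)
          linarith
        have t5 : 9 * Q ^ 3 * (Q / 660) = 9 / 660 * Q ^ 4 := by ring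
        linarith
      have a2 : 16 * Q ^ 3 * n ^ 2 ≤ 4 / 5 * Q ^ 4 := by
        have t4 : 16 * Q ^ 3 * n ^ 2 ≤ 16 * Q ^ 3 * (Q / 20) := by
          apply mul_le_mul_of_nonneg_left _ (by positivity)
          linarith
        have t5 : 16 * Q ^ 3 * (Q / 20) = 4 / 5 * Q ^ 4 := by ring
        linarith
      have a3 : 9 * Q ^ 2 * n ^ 2 ≤ 9 / 20 * Q ^ 3 := by
        have t4 : 9 * Q ^ 2 * n ^ 2 ≤ 9 * Q ^ 2 * (Q / 20) := by
          apply mul_le_mul_of_nonneg_left _ (by positivity)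
          linarith
        have t5 : 9 * Q ^ 2 * (Q / 20) = 9 / 20 * Q ^ 3 := by ring
        linarith
      have a4 : 9 / 20 * Q ^ 3 ≤ 1 / 1000 * Q ^ 4 := by
        have : Q ^ 4 = Q * Q ^ 3 := by ring
        rw [this]
        nlinarith [pow_pos hQ0 3]
      have a5 : 2 * Q ^ 2 ≤ 1 / 1000 * Q ^ 4 := by
        have : Q ^ 4 = Q ^ 2 * Q ^ 2 := by ring
        rw [this]
        nlinarith [pow_pos hQ0 2]
      have a6 : (0 : ℝ) < Q ^ 4 := by positivity
      nlinarith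
    exact lt_of_mul_lt_mul_left h2 (by positivity)

/-- the data exist -/
theorem exists_dat {q : ℕ} (hq : 8 ≤ q) (hdvd : (2 * q + 1) ∣ 2 ^ (4 * q) - 1) :
    ∃ (F : Type) (_ : Field F) (_ : Fintype F) (_ : DecidableEq F) (_ : Algebra (ZMod 2) F)
      (g : F) (h : ℕ) (x : ℕ → F), Dat g h q x ∧ Module.finrank (ZMod 2) F = 4 * q ∧
      h * (2 * q + 1) = 2 ^ (4 * q) - 1 := by
  classical
  have ha0 : 4 * q ≠ 0 := by omega
  let _ : Fintype (GaloisField 2 (4 * q)) := Fintype.ofFinite _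
  have hcard : Fintype.card (GaloisField 2 (4 * q)) = 2 ^ (4 * q) := by
    rw [← Nat.card_eq_fintype_card, GaloisField.card 2 (4 * q) ha0]
  obtain ⟨g, hg0, hgen, hord⟩ := exists_gen (F := GaloisField 2 (4 * q))
  obtain ⟨h, hh⟩ := hdvd
  have hpow : 2 ^ 1 ≤ 2 ^ (4 * q) := Nat.pow_le_pow_right (by norm_num) (by omega)
  have hh' : h * (2 * q + 1) = 2 ^ (4 * q) - 1 := by rw [hh, mul_comm]
  have hhN : h * (2 * q + 1) + 1 = 2 ^ (4 * q) := by omega
  have hhpos : 0 < h := by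
    rcases Nat.eq_zero_or_pos h with h0 | h0
    · rw [h0] at hhN
      omega
    · exact h0
  have S : Sub g h (2 * q + 1) := by
    refine ⟨hg0, hgen, ?_, hhpos, by omega, ?_⟩
    · rw [hord, hcard, hh']
    · rw [hcard, hhN]
  have hodd : Odd h := by
    have h1 : ¬ Even (h * (2 * q + 1)) := by
      intro he
      have h2 : Even (2 ^ (4 * q)) := (even_two.pow_of_ne_zero ha0)
      rw [← hhN] at h2
      exact (Nat.even_add_one.1 h2) he
    rw [← Nat.not_even_iff_odd]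
    intro he
    exact h1 (he.mul_right _)
  have hQn := twenty_sq_le (2 * q) (by omega)
  have hQa : (20 : ℝ) * (2 * (2 * (q : ℝ)) + 3) ^ 2 ≤ 2 ^ (2 * q) := by exact_mod_cast hQn
  have hq' : (8 : ℝ) ≤ q := by exact_mod_cast hq
  have hNh : (2 * (q : ℝ) + 1) * h = ((2 : ℝ) ^ (2 * q)) ^ 2 - 1 := by
    have h1 : ((h * (2 * q + 1) + 1 : ℕ) : ℝ) = ((2 ^ (4 * q) : ℕ) : ℝ) := by rw [hhN]
    push_cast at h1
    have h2 : ((2 : ℝ) ^ (2 * q)) ^ 2 = 2 ^ (4 * q) := by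
      rw [← pow_mul]
      congr 1
      ring
    rw [h2]
    linarith
  obtain ⟨hQh, hnum⟩ := numeric2 (h := h) (n := 2 * (q : ℝ) + 1) (Q := (2 : ℝ) ^ (2 * q))
    (by positivity) (by nlinarith) (by nlinarith) (by nlinarith) hNh
  obtain ⟨φ, hφ⟩ := exists_phi (GaloisField 2 (4 * q))
  have hQ0 : (0 : ℝ) ≤ (2 : ℝ) ^ (2 * q) := by positivity
  have hqc : (Fintype.card (GaloisField 2 (4 * q)) : ℝ) = ((2 : ℝ) ^ (2 * q)) ^ 2 := by
    rw [hcard, ← pow_mul]
    push_cast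
    congr 1
    ring
  have hp0 : g ∈ Cl g h (kap 0) := by
    rw [mem_Cl]
    refine ⟨hg0, ?_⟩
    have : kap 0 = 1 := rfl
    rw [this, pow_one]
  have ht : g ^ (2 * q + 1) ∈ Cl g h 0 := by
    rw [mem_Cl]
    refine ⟨pow_ne_zero _ hg0, ?_⟩
    have := pow_orderOf_eq_one (g ^ (2 * q + 1))
    rw [S.ordt] at this
    rw [this, pow_zero]
  have hp1 : g ^ (2 * q + 1) * g ∈ Cl g h (kap 1) := by
    have : kap 1 = kap 0 := rfl
    rw [this]
    exact mul_cl ht hp0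
  have hne : g ≠ g ^ (2 * q + 1) * g := by
    intro he
    have h1 : g ^ (2 * q + 1) = 1 := by
      have : g ^ (2 * q + 1) * g = 1 * g := by rw [one_mul]; exact he.symm
      exact mul_right_cancel₀ hg0 this
    have h2 := S.ordt
    rw [h1, orderOf_one] at h2
    rw [← h2] at hQh
    have h3 : (1 : ℝ) ≤ 2 ^ (2 * q) := one_le_pow₀ (by norm_num)
    push_cast at hQh
    linarith
  have hfr : Module.finrank (ZMod 2) (GaloisField 2 (4 * q)) = (4 * q - 2) + 2 := by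
    rw [GaloisField.finrank 2 ha0]
    omega
  obtain ⟨x, hx0, hx1, hxc, hxt, hxr⟩ := block2 S hφ hQ0 hqc hQh hnum kap hp0 hp1 hne (4 * q - 2)
    (by omega) hfr
  have h3 : 4 * q - 2 + 3 = 4 * q + 1 := by omega
  rw [h3] at hxc hxt hxr
  refine ⟨GaloisField 2 (4 * q), inferInstance, inferInstance, inferInstance, inferInstance, g, h,
    x, ⟨S, hodd, by omega, ?_, hxc, hxt, hxr⟩, GaloisField.finrank 2 ha0, hh'⟩
  rw [hx1, hx0]

open Pool.Agent.H38.CD in
theorem complete_even {q : ℕ} (hq : 8 ≤ q) (hdvd : (2 * q + 1) ∣ 2 ^ (4 * q) - 1) :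
    ∃ P : Finpartition ((univ : Finset (V (4 * q + 1))).erase 0), IsDecomp P ∧
      P.parts.card * (4 * q + 1 + 1) < 2 ^ (4 * q + 1) - 1 + (4 * q + 1 + 1) := by
  obtain ⟨F, _, _, _, _, g, h, x, D, hfin, hh⟩ := exists_dat hq hdvd
  obtain ⟨parts, hc, h0, hu, hcard⟩ := D.pieces
  have hfr : Module.finrank (ZMod 2) (F × ZMod 2)
      = Module.finrank (ZMod 2) (Fin (4 * q + 1) → ZMod 2) := by
    rw [Module.finrank_prod, Module.finrank_fin_fun, hfin, Module.finrank_self]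
  obtain ⟨P, hP, hPc⟩ := transport parts hc h0 hu
    (LinearEquiv.ofFinrankEq (F × ZMod 2) (Fin (4 * q + 1) → ZMod 2) hfr)
  refine ⟨P, hP, ?_⟩
  have h1 := Nat.mul_le_mul_right (4 * q + 1 + 1) (hPc.trans hcard)
  have h2 : (h + 1) * (4 * q + 1 + 1) = 2 * (h * (2 * q + 1)) + (4 * q + 1 + 1) := by ring
  rw [h2, hh] at h1
  have h3 : 2 ^ (4 * q + 1) = 2 * 2 ^ (4 * q) := by rw [pow_succ]; ring
  have h4 : 0 < 2 ^ (4 * q) := by positivity
  omega

open Pool.Agent.H38.CD in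
/-- **Main theorem**, with the third divisibility. -/
theorem complete3 (r : ℕ) (hr : 32 ≤ r) (hd : (r + 1) ∣ 2 ^ r - 1 ∨ (r + 1) ∣ 2 ^ (r - 2) - 1 ∨
      (Odd r ∧ (r + 1) ∣ 2 ^ r - 2)) :
    ∃ P : Finpartition ((univ : Finset (V r)).erase 0), IsDecomp P ∧
      P.parts.card * (r + 1) < 2 ^ r - 1 + (r + 1) := by
  rcases hd with hd | hd | ⟨ho, hd⟩
  · exact complete r hr (Or.inl hd)
  · exact complete r hr (Or.inr hd)
  · obtain ⟨p, hp⟩ := ho
    have h1 : 2 ^ r - 2 = 2 * (2 ^ (r - 1) - 1) := by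
      have : 2 ^ r = 2 * 2 ^ (r - 1) := by
        rw [← pow_succ']
        congr 1
        omega
      omega
    have h2 : r + 1 = 2 * (p + 1) := by omega
    rw [h1, h2] at hd
    have h3 : (p + 1) ∣ 2 ^ (r - 1) - 1 := Nat.dvd_of_mul_dvd_mul_left (by norm_num) hd
    obtain ⟨q, hq⟩ := odd_of_dvd (by omega) h3
    have h4 : r = 4 * q + 1 := by omega
    subst h4
    have h5 : p + 1 = 2 * q + 1 := hq
    rw [h5] at h3
    exact complete_even (by omega) (by simpa using h3)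

end Pool.Agent.H38.CE
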