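import Pool.Agent.H38.CE.Unif2

set_option autoImplicit false
set_option linter.unusedSectionVars false

/-!
# The uniform bound in terms of the rank
-/

namespace Pool.Agent.H38.CE

open Finset Pool.Agent.H38.CD

theorem transport_sub {r n : ℕ} (g : V r →ₗ[ZMod 2] V n) (hg : Function.Injective g)
    (M' : Finset (V r)) (P' : Finpartition M') (hP' : IsDecomp P') :
    ∃ P : Finpartition (M'.image g), IsDecomp P ∧ P.parts.card ≤ P'.parts.card := by
  classical
  set parts : Finset (Finset (V n)) := P'.parts.image (fun t => t.image g) with hparts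
  refine ⟨Finpartition.ofExistsUnique parts ?_ ?_ ?_, ?_, ?_⟩
  · intro p hp v hv
    obtain ⟨t, ht, rfl⟩ := mem_image.1 hp
    obtain ⟨w, hw, rfl⟩ := mem_image.1 hv
    exact mem_image_of_mem _ (P'.le ht hw)
  · intro v hv
    obtain ⟨w, hw, rfl⟩ := mem_image.1 hv
    obtain ⟨t, ⟨ht, hwt⟩, htu⟩ := P'.existsUnique_mem hw
    refine ⟨t.image g, ⟨mem_image_of_mem _ ht, mem_image_of_mem _ hwt⟩, ?_⟩
    rintro t' ⟨ht', hvt'⟩
    obtain ⟨s, hs, rfl⟩ := mem_image.1 ht'
    obtain ⟨w', hw', he⟩ := mem_image.1 hvt'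
    have := hg he
    subst this
    rw [htu s ⟨hs, hw'⟩]
  · intro hempty
    obtain ⟨t, ht, hte⟩ := mem_image.1 hempty
    rw [image_eq_empty] at hte
    exact (hP' t ht).1.ne_empty hte
  · intro C hC
    obtain ⟨t, ht, rfl⟩ := mem_image.1 (show C ∈ parts from hC)
    exact (show IsCirc t from hP' t ht).image g.toAddMonoidHom hg
  · change parts.card ≤ _
    exact card_image_le

theorem uniform_rank {n : ℕ} (M : Finset (V n)) (h0 : (0 : V n) ∉ M)
    (hs : ∑ v ∈ M, v = 0) (hr : 1600 ≤ rk M) :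
    ∃ P : Finpartition M, IsDecomp P ∧
      (P.parts.card : ℝ) * (rk M + 1)
        ≤ 2 ^ rk M * (1 + 1500 * (Nat.log 2 (rk M) : ℝ) / (rk M : ℝ) ^ 2) := by
  classical
  set W := Submodule.span (ZMod 2) (M : Set (V n)) with hW
  have hfr : Module.finrank (ZMod 2) W = Module.finrank (ZMod 2) (Fin (rk M) → ZMod 2) := by
    rw [Module.finrank_fin_fun]
    rfl
  set e : W ≃ₗ[ZMod 2] (Fin (rk M) → ZMod 2) := LinearEquiv.ofFinrankEq W _ hfr with he
  set g : V (rk M) →ₗ[ZMod 2] V n := W.subtype ∘ₗ e.symm.toLinearMap with hg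
  have hginj : Function.Injective g := by
    intro a b hab
    have h1 : (W.subtype (e.symm a)) = W.subtype (e.symm b) := hab
    exact e.symm.injective (W.injective_subtype h1)
  set M' : Finset (V (rk M)) := univ.filter fun v => g v ∈ M with hM'
  have himg : M'.image g = M := by
    ext v
    rw [mem_image]
    constructor
    · rintro ⟨w, hw, rfl⟩
      exact (mem_filter.1 hw).2
    · intro hv
      have hvW : v ∈ W := Submodule.subset_span hv
      have h1 : g (e ⟨v, hvW⟩) = v := by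
        change W.subtype (e.symm (e ⟨v, hvW⟩)) = v
        rw [LinearEquiv.symm_apply_apply]
        rfl
      exact ⟨e ⟨v, hvW⟩, mem_filter.2 ⟨mem_univ _, by rw [h1]; exact hv⟩, h1⟩
  have h0' : (0 : V (rk M)) ∉ M' := by
    intro h
    apply h0
    have := (mem_filter.1 h).2
    rwa [map_zero] at this
  have hs' : ∑ v ∈ M', v = 0 := by
    apply hginj
    rw [map_sum, map_zero, ← hs]
    conv_rhs => rw [← himg]
    rw [sum_image (fun a _ b _ h => hginj h)]
  obtain ⟨P', hP', hPc⟩ := uniform hr M' h0' hs'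
  obtain ⟨P, hP, hc⟩ := transport_sub g hginj M' P' hP'
  rw [himg] at P
  clear P
  obtain ⟨P, hP, hc⟩ : ∃ P : Finpartition M, IsDecomp P ∧ P.parts.card ≤ P'.parts.card := by
    have := transport_sub g hginj M' P' hP'
    rwa [himg] at this
  refine ⟨P, hP, le_trans ?_ hPc⟩
  have h1 : (P.parts.card : ℝ) ≤ P'.parts.card := by exact_mod_cast hc
  have h2 : (0 : ℝ) ≤ (rk M : ℝ) + 1 := by positivity
  exact mul_le_mul_of_nonneg_right h1 h2

end Pool.Agent.H38.CE
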