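import Pool.Agent.H38.CE.Exact1
import Pool.Agent.H38.CE.Unif3

set_option autoImplicit false
set_option linter.unusedSectionVars false

/-!
# The exact bound: numbers
-/

namespace Pool.Agent.H38.CE

open Finset Pool.Agent.H38.CD

theorem fin2 {q R ng sg k p l t eE c β : ℝ} (hc : c ≤ k + (t / 3 + p / l))
    (hk : k * (R + 1) = sg - ng) (hp : p + sg + β ≤ q + ng) (hq' : q ≤ sg + 2 * (R + 1) * eE)
    (hE : 2 * (R + 1) * eE ≤ β) (ht : (R + 1) * t ≤ β) (hng : ng ≤ 170 * β)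
    (hl : 400 * (R + 1) ≤ 401 * l) (hl0 : 0 < l) (hp0 : 0 ≤ p) (hR : 0 ≤ R) (hβ : 0 ≤ β) :
    c * (R + 1) ≤ q := by
  have h1 : c * (R + 1) ≤ (k + (t / 3 + p / l)) * (R + 1) :=
    mul_le_mul_of_nonneg_right hc (by linarith)
  have h2 : (k + (t / 3 + p / l)) * (R + 1) = k * (R + 1) + (R + 1) * t / 3
      + p / l * (R + 1) := by ring
  have h3 : p / l * (R + 1) ≤ 401 / 400 * p := by
    rw [div_mul_eq_mul_div, div_le_iff₀ hl0]
    have := mul_le_mul_of_nonneg_left hl hp0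
    linarith
  linarith

theorem log_facts2 {r : ℕ} (hr : 300000 ≤ r) : 18 ≤ Nat.log 2 r ∧ 5000 * Nat.log 2 r ≤ r ∧
    r + 1 ≤ 2 ^ (Nat.log 2 r + 1) := by
  have h1 : 2 ^ Nat.log 2 r ≤ r := Nat.pow_log_le_self 2 (by omega)
  have h2 : r < 2 ^ (Nat.log 2 r + 1) := Nat.lt_pow_succ_log_self (by norm_num) r
  generalize Nat.log 2 r = l at *
  have h10 : 18 ≤ l := by
    by_contra h
    have h3 : 2 ^ (l + 1) ≤ 2 ^ 18 := Nat.pow_le_pow_right (by norm_num) (by omega)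
    norm_num at h3
    omega
  refine ⟨h10, ?_, h2⟩
  have h4 : ∀ m, 18 ≤ m → 5000 * m ≤ 2 ^ m := by
    intro m hm
    induction m, hm using Nat.le_induction with
    | base => norm_num
    | succ m hm ih =>
      rw [pow_succ]
      omega
  exact (h4 l h10).trans h1

theorem exact_core {r : ℕ} (hr : 300000 ≤ r) (M : Finset (V r)) (h0 : (0 : V r) ∉ M)
    (hs : ∑ v ∈ M, v = 0) (hX : 2 ^ (r - r / 2000) + M.card ≤ 2 ^ r) :
    ∃ P : Finpartition M, IsDecomp P ∧ (P.parts.card : ℝ) * (r + 1) ≤ 2 ^ r := by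
  classical
  obtain ⟨h18, h5000, hrL⟩ := log_facts2 hr
  rcases Nat.lt_or_ge (r * (2 ^ r - M.card)) (22 * 2 ^ r) with hM | hM
  swap
  · exact sparse_case (by omega) M h0 hs hM
  obtain ⟨b, S0, γ, fam, hb14, hb5, hc, hdis, hγ, hγ2, hcard, hTP⟩ := exists_groupsV (r := r)
    (by omega)
  obtain ⟨hSγ, hβlow, hβN⟩ := fam_facts M fam hc hdis hγ
  obtain ⟨β, hβ⟩ : ∃ β, (((range S0).biUnion fam).filter fun C => ¬ C ⊆ M).card = β := ⟨_, rfl⟩
  rw [hβ] at hβlow hβN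
  obtain ⟨Lg, hLg⟩ : ∃ Lg, Nat.log 2 r = Lg := ⟨_, rfl⟩
  rw [hLg] at h18 h5000 hrL
  obtain ⟨E, hE⟩ : ∃ E, (4 * r + 6) / 5 = E := ⟨_, rfl⟩
  rw [hE] at hγ2 hcard
  obtain ⟨d, hd⟩ : ∃ d, r / 1000 = d := ⟨_, rfl⟩
  have hd1 : d * 1000 ≤ r := by omega
  have hd2 : r < d * 1000 + 1000 := by omega
  have hEle : 5 * E ≤ 4 * r + 6 := by omega
  -- small quantities
  have hsm : 2 * (r + 1) * 2 ^ E ≤ 2 ^ (Lg + 2 + E) := by
    calc 2 * (r + 1) * 2 ^ E ≤ 2 * 2 ^ (Lg + 1) * 2 ^ E :=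
          Nat.mul_le_mul_right _ (Nat.mul_le_mul_left _ hrL)
      _ = 2 ^ (Lg + 2 + E) := by
          rw [← pow_succ', ← pow_add]
  -- lower bound for the number of broken circuits
  have hβbig : 2 ^ (r - d) ≤ β := by
    by_contra hlt
    push Not at hlt
    have a1 : β * (r + 1) ≤ 2 ^ (r - d) * 2 ^ (Lg + 1) := Nat.mul_le_mul hlt.le hrL
    rw [← pow_add] at a1
    have a2 : 2 ^ (Lg + 2 + E) ≤ 2 ^ (r - d + (Lg + 1)) :=
      Nat.pow_le_pow_right (by norm_num) (by omega)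
    have a3 : 2 * 2 ^ (r - d + (Lg + 1)) = 2 ^ (r - d + (Lg + 2)) := by
      rw [← pow_succ']
      congr 1
    have a4 : 2 ^ (r - d + (Lg + 2)) < 2 ^ (r - r / 2000) :=
      Nat.pow_lt_pow_right (by norm_num) (by omega)
    omega
  have hβpos : 0 < β := lt_of_lt_of_le (by positivity) hβbig
  set T0 := 2 ^ r / (160 * β) with hT0
  have t1 : T0 * (160 * β) ≤ 2 ^ r := Nat.div_mul_le_self _ _
  have t2 : 2 ^ r ≤ (T0 + 1) * (160 * β) := by
    have := Nat.lt_div_mul_add (a := 2 ^ r) (b := 160 * β) (by omega)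
    rw [← hT0] at this
    rw [add_mul, one_mul]
    omega
  have t3 : 1000 ≤ T0 := by
    rw [hT0, Nat.le_div_iff_mul_le (by omega)]
    have : β * 300001 ≤ β * (r + 1) := Nat.mul_le_mul_left _ (by omega)
    omega
  have t4 : T0 * 160 ≤ 2 ^ d := by
    have a1 : T0 * 160 * 2 ^ (r - d) ≤ 2 ^ d * 2 ^ (r - d) := by
      calc T0 * 160 * 2 ^ (r - d) ≤ T0 * 160 * β := Nat.mul_le_mul_left _ hβbig
        _ = T0 * (160 * β) := by ring
        _ ≤ 2 ^ r := t1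
        _ = 2 ^ d * 2 ^ (r - d) := by
            rw [← pow_add]
            congr 1
            omega
    exact Nat.le_of_mul_le_mul_right a1 (by positivity)
  have t5 : 1024 * (T0 * γ) ≤ 2 ^ r := by
    calc 1024 * (T0 * γ) ≤ 2 ^ 10 * (2 ^ d * 2 ^ (Lg + 2 + E)) := by
          apply Nat.mul_le_mul (by norm_num)
          apply Nat.mul_le_mul (by omega) (hγ2.trans hsm)
      _ = 2 ^ (10 + (d + (Lg + 2 + E))) := by rw [← pow_add, ← pow_add]
      _ ≤ 2 ^ r := Nat.pow_le_pow_right (by norm_num) (by omega)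
  have t6 : 1024 * (2 * (r + 1) * 2 ^ E) ≤ 2 ^ r := by
    calc 1024 * (2 * (r + 1) * 2 ^ E) ≤ 2 ^ 10 * 2 ^ (Lg + 2 + E) :=
          Nat.mul_le_mul (by norm_num) hsm
      _ = 2 ^ (10 + (Lg + 2 + E)) := by rw [← pow_add]
      _ ≤ 2 ^ r := Nat.pow_le_pow_right (by norm_num) (by omega)
  have t7 : 2 * (r + 1) * 2 ^ E ≤ β :=
    (hsm.trans (Nat.pow_le_pow_right (by norm_num) (by omega))).trans hβbig
  set n := S0 / T0 with hn
  have hnT : n * T0 ≤ S0 := Nat.div_mul_le_self _ _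
  have hnT2 : S0 ≤ (n + 1) * T0 := by
    have := Nat.lt_div_mul_add (a := S0) (b := T0) (by omega)
    rw [← hn] at this
    rw [add_mul, one_mul]
    omega
  have hnS : n ≤ S0 := Nat.div_le_self _ _
  have r1 : n * γ * T0 ≤ S0 * γ := by
    calc n * γ * T0 = n * T0 * γ := by ring
      _ ≤ S0 * γ := Nat.mul_le_mul_right γ hnT
  have r2 : S0 * γ ≤ n * γ * T0 + T0 * γ := by
    calc S0 * γ ≤ (n + 1) * T0 * γ := Nat.mul_le_mul_right γ hnT2
      _ = n * γ * T0 + T0 * γ := by ring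
  -- the blocks are large
  have big : 99 * 2 ^ r ≤ 100 * (n * γ * T0) := by omega
  have small : n * γ ≤ 170 * β := by
    have a1 : n * γ * T0 ≤ 170 * β * T0 := by
      have a2 : (T0 + 1) * (160 * β) = 160 * (β * T0) + 160 * β := by ring
      have a3 : 170 * β * T0 = 170 * (β * T0) := by ring
      have a4 : β * 1000 ≤ β * T0 := Nat.mul_le_mul_left _ t3
      omega
    exact Nat.le_of_mul_le_mul_right a1 (by omega)
  have hM50 : 50 * (2 ^ r - M.card) ≤ 2 ^ r := by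
    have a1 : 1100 * (2 ^ r - M.card) ≤ r * (2 ^ r - M.card) := Nat.mul_le_mul_right _ (by omega)
    omega
  have hnum1 : ∀ x : ℕ, T0 * x ≤ 2 ^ r - M.card → 24 * (x + 3 * β) ≤ n * γ := by
    intro x hx
    have a1 : 24 * (x + 3 * β) * T0 ≤ n * γ * T0 := by
      have a2 : 24 * (x + 3 * β) * T0 = 24 * (T0 * x) + 72 * (T0 * β) := by ring
      have a3 : T0 * (160 * β) = 160 * (T0 * β) := by ring
      omega
    exact Nat.le_of_mul_le_mul_right a1 (by omega)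
  have hnum2 : 40 * 2 ^ r ≤ n * γ * 2 ^ b := by
    have a1 : 40 * 2 ^ r * T0 ≤ n * γ * 2 ^ b * T0 := by
      have a2 : T0 * 160 ≤ 2 ^ b := t4.trans (Nat.pow_le_pow_right (by norm_num) (by omega))
      have a3 : 99 * 2 ^ r * (T0 * 160) ≤ 100 * (n * γ * T0) * 2 ^ b := Nat.mul_le_mul big a2
      have a4 : 99 * 2 ^ r * (T0 * 160) = 15840 * (2 ^ r * T0) := by ring
      have a5 : 100 * (n * γ * T0) * 2 ^ b = 100 * (n * γ * 2 ^ b * T0) := by ring
      have a6 : 40 * 2 ^ r * T0 = 40 * (2 ^ r * T0) := by ring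
      omega
    exact Nat.le_of_mul_le_mul_right a1 (by omega)
  obtain ⟨P, hP, k, p, hk, hp, hPc⟩ := core2 (by omega) M h0 hs fam hc hdis hγ hTP
    (show 1 ≤ T0 by omega) hβ hnum1 hnum2
  refine ⟨P, hP, ?_⟩
  obtain ⟨τ, hτ⟩ : ∃ τ, r - d - Lg - 2 = τ := ⟨_, rfl⟩
  have hlT : ((r : ℝ) - 2 * d - 2 * Lg - 6) ≤ (L r (2 ^ τ) : ℝ) := by
    have h3 : r ≤ L r (2 ^ τ) + 2 * d + 2 * Lg + 6 := by
      unfold L
      rw [Nat.log_pow (by norm_num)]
      omega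
    have h4 : (r : ℝ) ≤ (L r (2 ^ τ) : ℝ) + 2 * d + 2 * Lg + 6 := by exact_mod_cast h3
    linarith
  have hrr : (300000 : ℝ) ≤ r := by exact_mod_cast hr
  have hdr : (d : ℝ) * 1000 ≤ r := by exact_mod_cast hd1
  have hLr : 5000 * (Lg : ℝ) ≤ r := by exact_mod_cast h5000
  have hl0 : (0 : ℝ) < (r : ℝ) - 2 * d - 2 * Lg - 6 := by linarith
  have hPhi := Phi_split (m := p) hl0 hlT
  rw [Nat.cast_pow, Nat.cast_ofNat] at hPhi
  have hkr : (k : ℝ) * (r + 1) = S0 * γ - n * γ := by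
    have : ((k * (r + 1) : ℕ) : ℝ) = (((S0 - n) * γ : ℕ) : ℝ) := by rw [hk]
    push_cast [Nat.cast_sub hnS] at this
    rw [this]; ring
  have hpr : (p : ℝ) + S0 * γ + β ≤ 2 ^ r + n * γ := by exact_mod_cast hp
  have hq' : (2 : ℝ) ^ r ≤ S0 * γ + 2 * (r + 1) * 2 ^ E := by exact_mod_cast hcard
  have hEr : 2 * ((r : ℝ) + 1) * 2 ^ E ≤ β := by exact_mod_cast t7
  have htr : ((r : ℝ) + 1) * 2 ^ τ ≤ β := by
    have a1 : (r + 1) * 2 ^ τ ≤ β := by
      calc (r + 1) * 2 ^ τ ≤ 2 ^ (Lg + 1) * 2 ^ τ := Nat.mul_le_mul_right _ hrL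
        _ = 2 ^ (Lg + 1 + τ) := by rw [← pow_add]
        _ ≤ 2 ^ (r - d) := Nat.pow_le_pow_right (by norm_num) (by omega)
        _ ≤ β := hβbig
    exact_mod_cast a1
  have hngr : (n : ℝ) * γ ≤ 170 * β := by exact_mod_cast small
  exact fin2 (q := 2 ^ r) (R := r) (ng := n * γ) (sg := S0 * γ) (k := k) (p := p)
    (l := (r : ℝ) - 2 * d - 2 * Lg - 6) (t := 2 ^ τ) (eE := 2 ^ E) (β := β) (by linarith) hkr hpr
    hq' hEr htr hngr (by linarith) hl0 (Nat.cast_nonneg _) (by linarith) (Nat.cast_nonneg _)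

end Pool.Agent.H38.CE
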