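import Pool.Agent.H38.CE.Exact2

set_option autoImplicit false
set_option linter.unusedSectionVars false

/-!
# The exact bound in terms of the rank
-/

namespace Pool.Agent.H38.CE

open Finset Pool.Agent.H38.CD

theorem to_rank {n : ℕ} (M : Finset (V n)) (h0 : (0 : V n) ∉ M) (hs : ∑ v ∈ M, v = 0) :
    ∃ M' : Finset (V (rk M)), (0 : V (rk M)) ∉ M' ∧ ∑ v ∈ M', v = 0 ∧ M'.card = M.card ∧
      ∀ P' : Finpartition M', IsDecomp P' →
        ∃ P : Finpartition M, IsDecomp P ∧ P.parts.card ≤ P'.parts.card := by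
  classical
  set W := Submodule.span (ZMod 2) (M : Set (V n)) with hW
  have hfr : Module.finrank (ZMod 2) W = Module.finrank (ZMod 2) (Fin (rk M) → ZMod 2) := by
    rw [Module.finrank_fin_fun]
    rfl
  set e : W ≃ₗ[ZMod 2] (Fin (rk M) → ZMod 2) := LinearEquiv.ofFinrankEq W _ hfr with he
  set g : V (rk M) →ₗ[ZMod 2] V n := W.subtype ∘ₗ e.symm.toLinearMap with hg
  have hginj : Function.Injective g := by
    intro a b hab
    have h1 : (W.subtype (e.symm a)) = W.subtype (e.symm b) := hab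
    exact e.symm.injective (W.injective_subtype h1)
  set M' : Finset (V (rk M)) := univ.filter fun v => g v ∈ M with hM'
  have himg : M'.image g = M := by
    ext v
    rw [mem_image]
    constructor
    · rintro ⟨w, hw, rfl⟩
      exact (mem_filter.1 hw).2
    · intro hv
      have hvW : v ∈ W := Submodule.subset_span hv
      have h1 : g (e ⟨v, hvW⟩) = v := by
        change W.subtype (e.symm (e ⟨v, hvW⟩)) = v
        rw [LinearEquiv.symm_apply_apply]
        rfl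
      exact ⟨e ⟨v, hvW⟩, mem_filter.2 ⟨mem_univ _, by rw [h1]; exact hv⟩, h1⟩
  refine ⟨M', ?_, ?_, ?_, ?_⟩
  · intro h
    apply h0
    have := (mem_filter.1 h).2
    rwa [map_zero] at this
  · apply hginj
    rw [map_sum, map_zero, ← hs]
    conv_rhs => rw [← himg]
    rw [sum_image (fun a _ b _ h => hginj h)]
  · conv_rhs => rw [← himg]
    rw [card_image_of_injective _ hginj]
  · intro P' hP'
    have := transport_sub g hginj M' P' hP'
    rwa [himg] at this

/-- **The exact bound.** -/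
theorem exact_rank {n : ℕ} (M : Finset (V n)) (h0 : (0 : V n) ∉ M) (hs : ∑ v ∈ M, v = 0)
    (hr : 300000 ≤ rk M) (hX : 2 ^ (rk M - rk M / 2000) + M.card ≤ 2 ^ rk M) :
    ∃ P : Finpartition M, IsDecomp P ∧ (P.parts.card : ℝ) * (rk M + 1) ≤ 2 ^ rk M := by
  obtain ⟨M', h0', hs', hc, hP⟩ := to_rank M h0 hs
  obtain ⟨P', hP', hb⟩ := exact_core hr M' h0' hs' (by rw [hc]; exact hX)
  obtain ⟨P, hPd, hPc⟩ := hP P' hP'
  refine ⟨P, hPd, le_trans ?_ hb⟩
  have h1 : (P.parts.card : ℝ) ≤ P'.parts.card := by exact_mod_cast hPc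
  exact mul_le_mul_of_nonneg_right h1 (by positivity)

theorem ceil_form {r c : ℕ} (hr : 1 ≤ r) (h : (c : ℝ) * (r + 1) ≤ 2 ^ r) :
    (c : ℤ) ≤ ⌈((2 : ℚ) ^ r - 1) / (r + 1)⌉ := by
  have hn : c * (r + 1) ≤ 2 ^ r := by exact_mod_cast h
  have hpos : (0 : ℚ) < (r : ℚ) + 1 := by positivity
  have h1 : (c : ℤ) - 1 < ⌈((2 : ℚ) ^ r - 1) / (r + 1)⌉ := by
    rw [Int.lt_ceil, lt_div_iff₀ hpos]
    have h4 : ((c * (r + 1) : ℕ) : ℚ) ≤ ((2 ^ r : ℕ) : ℚ) := by exact_mod_cast hn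
    have h5 : (1 : ℚ) ≤ r := by exact_mod_cast hr
    push_cast at h4 ⊢
    linarith
  omega

/-- the uniform bound with an exponentially small error -/
theorem expo_rank {n : ℕ} (M : Finset (V n)) (h0 : (0 : V n) ∉ M) (hs : ∑ v ∈ M, v = 0)
    (hr : 300000 ≤ rk M) :
    ∃ P : Finpartition M, IsDecomp P ∧ (P.parts.card : ℝ) ≤
      (2 ^ rk M - 1) / (rk M + 1) + 2 * 2 ^ (rk M - rk M / 2000) := by
  classical
  rcases Nat.lt_or_ge (2 ^ rk M) (2 ^ (rk M - rk M / 2000) + M.card) with hX | hX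
  · obtain ⟨M', h0', hs', hc, hP⟩ := to_rank M h0 hs
    obtain ⟨P', hP', hb⟩ := near_complete (r := rk M) (by omega) M' h0' hs'
    obtain ⟨P, hPd, hPc⟩ := hP P' hP'
    refine ⟨P, hPd, ?_⟩
    rw [hc] at hb
    generalize rk M = r at *
    have h1 : (P.parts.card : ℝ) ≤ P'.parts.card := by exact_mod_cast hPc
    have h2 : (2 : ℝ) ^ r ≤ 2 ^ (r - r / 2000) + M.card := by exact_mod_cast hX.le
    have h3 : (4 : ℝ) * 2 ^ ((4 * r + 6) / 5) ≤ 2 ^ (r - r / 2000) := by
      have : 4 * 2 ^ ((4 * r + 6) / 5) ≤ 2 ^ (r - r / 2000) := by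
        calc 4 * 2 ^ ((4 * r + 6) / 5) = 2 ^ (2 + (4 * r + 6) / 5) := by rw [pow_add]; norm_num
          _ ≤ 2 ^ (r - r / 2000) := Nat.pow_le_pow_right (by norm_num) (by omega)
      exact_mod_cast this
    linarith
  · obtain ⟨P, hP, hb⟩ := exact_rank M h0 hs hr hX
    refine ⟨P, hP, ?_⟩
    generalize rk M = r at *
    have hr0 : (0 : ℝ) < (r : ℝ) + 1 := by positivity
    have h1 : (P.parts.card : ℝ) ≤ 2 ^ r / (r + 1) := by
      rw [le_div_iff₀ hr0]
      exact hb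
    have h2 : (2 : ℝ) ^ r / (r + 1) = (2 ^ r - 1) / (r + 1) + 1 / (r + 1) := by
      rw [← add_div]
      congr 1
      ring
    have h3 : 1 / ((r : ℝ) + 1) ≤ 1 := by
      rw [div_le_one hr0]
      have : (0 : ℝ) ≤ r := Nat.cast_nonneg _
      linarith
    have h4 : (1 : ℝ) ≤ 2 ^ (r - r / 2000) := one_le_pow₀ (by norm_num)
    linarith

end Pool.Agent.H38.CE
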