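import Pool.Agent.H38.CE.Tri

set_option autoImplicit false
set_option linter.unusedSectionVars false

/-!
# Groups of disjoint spanning circuits with pseudorandom unions
-/

namespace Pool.Agent.H38.CE

open Finset

/-- the field, with a quantitative bound -/
theorem setupH {b : ℕ} (hb : 14 ≤ b) :
    ∃ (F : Type) (_ : Field F) (_ : Fintype F) (_ : DecidableEq F) (_ : Algebra (ZMod 2) F)
      (g : F) (h : ℕ) (Q : ℝ), Sub g h (2 ^ b - 1) ∧ Module.finrank (ZMod 2) F = 5 * b ∧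
      0 ≤ Q ∧ (Fintype.card F : ℝ) = Q ^ 2 ∧ Q < h ∧
      9 * Q * h + 16 * Q ^ 3 + 9 * Q ^ 2 < (h : ℝ) ^ 2 ∧ h + 1 ≤ 2 * 2 ^ (4 * b) ∧
      h * (2 ^ b - 1) + 1 = 2 ^ (5 * b) ∧ Q * 2 ^ b ≤ h := by
  obtain ⟨F, i1, i2, i3, i4, g, h, Q, S, hfin, hQ, hq, hQh, hnum, hle, hprod⟩ := setupG hb
  refine ⟨F, i1, i2, i3, i4, g, h, Q, S, hfin, hQ, hq, hQh, hnum, hle, hprod, ?_⟩
  -- `Q ^ 2 = 2 ^ (5 b)` and `h ≥ 2 ^ (4 b)`
  have h1 : ((h * (2 ^ b - 1) + 1 : ℕ) : ℝ) = ((2 ^ (5 * b) : ℕ) : ℝ) := by rw [hprod]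
  have hb1 : 1 ≤ 2 ^ b := Nat.one_le_two_pow
  have h2 : (h : ℝ) * (2 ^ b - 1) + 1 = Q ^ 2 := by
    have h3 : ((2 ^ b - 1 : ℕ) : ℝ) = (2 : ℝ) ^ b - 1 := by
      push_cast [Nat.cast_sub hb1]
      ring
    rw [← hq, S.card]
    push_cast
    rw [h3]
  have h4 : Q ^ 2 ≤ h * 2 ^ b := by
    have : (1 : ℝ) ≤ h := by exact_mod_cast S.hpos
    nlinarith
  have h5 : (2 : ℝ) ^ (5 * b) = Q ^ 2 := by
    rw [← hq, S.card, hprod]
    push_cast
    ring
  set t : ℝ := (2 : ℝ) ^ b with ht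
  have ht0 : 0 < t := by positivity
  have h6 : t ^ 5 = Q ^ 2 := by
    rw [← h5, ht, ← pow_mul, mul_comm]
  have h7 : t ^ 4 ≤ h := by
    have h8 : t * t ^ 4 ≤ t * h := by
      calc t * t ^ 4 = t ^ 5 := by ring
        _ = Q ^ 2 := h6
        _ ≤ h * t := h4
        _ = t * h := by ring
    exact le_of_mul_le_mul_left h8 ht0
  have ht1 : 1 ≤ t := one_le_pow₀ (by norm_num)
  have h9 : Q ≤ t ^ 3 := by
    have : Q ^ 2 ≤ (t ^ 3) ^ 2 := by
      rw [← h6]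
      calc t ^ 5 ≤ t ^ 6 := pow_le_pow_right₀ ht1 (by norm_num)
        _ = (t ^ 3) ^ 2 := by ring
    exact le_of_sq_le_sq this (by positivity)
  calc Q * t ≤ t ^ 3 * t := mul_le_mul_of_nonneg_right h9 ht0.le
    _ = t ^ 4 := by ring
    _ ≤ h := h7

theorem sum_sgn {Y : Type} [AddCommGroup Y] [Module (ZMod 2) Y] [Fintype Y]
    (ν : Y →ₗ[ZMod 2] ZMod 2) (hν : ν ≠ 0) : ∑ y, sgn (ν y) = 0 := by
  obtain ⟨z, hz⟩ : ∃ z, ν z ≠ 0 := by
    by_contra hno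
    push Not at hno
    exact hν (LinearMap.ext hno)
  have hz1 : ν z = 1 := (zmod2_cases _).resolve_left hz
  have h2 : ∑ y, sgn (ν y) = ∑ y, sgn (ν (y + z)) :=
    (Equiv.sum_comp (Equiv.addRight z) (fun y => sgn (ν y))).symm
  have h3 : ∑ y, sgn (ν (y + z)) = - ∑ y, sgn (ν y) := by
    rw [← sum_neg_distrib]
    refine sum_congr rfl fun y _ => ?_
    rw [map_add, sgn_add, hz1, sgn_one]
    ring
  rw [h3] at h2
  linarith

theorem final_numeric {B R z t q : ℝ} (hB : 0 ≤ B) (g1 : 24 * z ≤ R) (g2 : 40 * q ≤ R * t)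
    (g3 : B * t ≤ R) (g4 : 16384 ≤ t) (g5 : 0 < q) :
    3 * (z + (R + 3 * B) / 4) * R + 4 * B * q < R ^ 2 := by
  have g6 : 0 < R := by
    by_contra hneg
    push Not at hneg
    nlinarith
  have g7 : 16384 * B ≤ R := by nlinarith
  have g8 : 40 * (B * q) ≤ R ^ 2 := by
    have h1 : 40 * (B * q) ≤ B * (R * t) := by nlinarith
    have h2 : B * (R * t) = R * (B * t) := by ring
    have h3 : R * (B * t) ≤ R * R := mul_le_mul_of_nonneg_left g3 g6.le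
    nlinarith
  nlinarith

theorem exists_field (n : ℕ) (hn : n ≠ 0) : ∃ (E : Type) (_ : Field E) (_ : Fintype E)
    (_ : DecidableEq E) (_ : Algebra (ZMod 2) E), Module.finrank (ZMod 2) E = n ∧
    Fintype.card E = 2 ^ n := by
  classical
  let _ : Fintype (GaloisField 2 n) := Fintype.ofFinite _
  refine ⟨GaloisField 2 n, inferInstance, inferInstance, inferInstance, inferInstance,
    GaloisField.finrank 2 hn, ?_⟩
  rw [← Nat.card_eq_fintype_card, GaloisField.card 2 n hn]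

theorem hat_prod {F : Type} [Field F] [Fintype F] [DecidableEq F] [Algebra (ZMod 2) F]
    {Y : Type} [AddCommGroup Y] [Module (ZMod 2) Y] [Fintype Y] [DecidableEq Y]
    {E : Type} [Field E] [Fintype E] [DecidableEq E] [Algebra (ZMod 2) E]
    {φ : F →ₗ[ZMod 2] ZMod 2} (hφ : φ ≠ 0) {φE : E →ₗ[ZMod 2] ZMod 2} (hφE : φE ≠ 0)
    (CF : Finset F) {β : ℝ} (hβ : 0 ≤ β) (hCFb : ∀ c, c ≠ 0 → |∑ a ∈ CF, ch φ c a| ≤ β)
    (e : (F × Y) ≃ₗ[ZMod 2] E) (c : E) (hc : c ≠ 0) :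
    |hat φE (idf ((CF ×ˢ (univ : Finset Y)).image e)) c| ≤ β * Fintype.card Y := by
  rw [hat_idf, sum_image (fun a _ b _ hab => e.injective hab)]
  set l : (F × Y) →ₗ[ZMod 2] ZMod 2 := (φE ∘ₗ LinearMap.mulLeft (ZMod 2) c) ∘ₗ e.toLinearMap
    with hl
  have hlv : ∀ w, ch φE c (e w) = sgn (l w) := fun w => rfl
  have hl0 : l ≠ 0 := by
    intro h0
    apply hφE
    apply LinearMap.ext
    intro v
    have h1 := LinearMap.congr_fun h0 (e.symm (c⁻¹ * v))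
    have h2 : l (e.symm (c⁻¹ * v)) = φE (c * (c⁻¹ * v)) := by
      rw [hl, LinearMap.comp_apply, LinearEquiv.coe_coe, LinearEquiv.apply_symm_apply]
      rfl
    rw [h2, ← mul_assoc, mul_inv_cancel₀ hc, one_mul] at h1
    exact h1
  simp_rw [hlv]
  rw [sum_product]
  have hsplit : ∀ a : F, ∀ w : Y, sgn (l (a, w)) = sgn (l (a, 0)) * sgn ((l ∘ₗ
      LinearMap.inr (ZMod 2) F Y) w) := by
    intro a w
    rw [← sgn_add]
    congr 1
    have : ((a, w) : F × Y) = (a, 0) + (0, w) := by simp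
    rw [this, map_add]
    rfl
  have hs2 : ∑ a ∈ CF, ∑ w : Y, sgn (l (a, w)) = (∑ a ∈ CF, sgn (l (a, 0)))
      * ∑ w : Y, sgn ((l ∘ₗ LinearMap.inr (ZMod 2) F Y) w) := by
    rw [sum_mul]
    refine sum_congr rfl fun a _ => ?_
    rw [mul_sum]
    exact sum_congr rfl fun w _ => hsplit a w
  rw [hs2]
  by_cases hν : l ∘ₗ LinearMap.inr (ZMod 2) F Y = 0
  · have h1 : ∑ w : Y, sgn ((l ∘ₗ LinearMap.inr (ZMod 2) F Y) w) = Fintype.card Y := by
      rw [hν]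
      simp only [LinearMap.zero_apply, sgn_zero]
      rw [sum_const, card_univ]
      simp
    rw [h1, abs_mul, abs_of_nonneg (Nat.cast_nonneg (Fintype.card Y) : (0 : ℝ) ≤ (Fintype.card Y : ℝ))]
    apply mul_le_mul_of_nonneg_right _ (Nat.cast_nonneg _)
    obtain ⟨c', hc'⟩ := rep hφ (l ∘ₗ LinearMap.inl (ZMod 2) F Y)
    have hc'0 : c' ≠ 0 := by
      rintro rfl
      apply hl0
      apply LinearMap.ext
      rintro ⟨a, w⟩
      have h2 : ((a, w) : F × Y) = (a, 0) + (0, w) := by simp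
      have h3 := hc' a
      rw [zero_mul, map_zero] at h3
      have h4 := LinearMap.congr_fun hν w
      rw [h2, map_add]
      change (l ∘ₗ LinearMap.inl (ZMod 2) F Y) a + (l ∘ₗ LinearMap.inr (ZMod 2) F Y) w = 0
      rw [h3, h4]
      simp
    have h5 := hCFb c' hc'0
    have h6 : ∀ a ∈ CF, sgn (l (a, 0)) = ch φ c' a := by
      intro a _
      unfold ch
      rw [← hc' a]
      rfl
    rw [sum_congr rfl h6]
    exact h5
  · rw [sum_sgn _ hν, mul_zero, abs_zero]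
    positivity

theorem TP_prod {F : Type} [Field F] [Fintype F] [DecidableEq F] [Algebra (ZMod 2) F]
    {Y : Type} [AddCommGroup Y] [Module (ZMod 2) Y] [Fintype Y] [DecidableEq Y]
    {φ : F →ₗ[ZMod 2] ZMod 2} (hφ : φ ≠ 0)
    (CF : Finset F) {β : ℝ} (hβ : 0 ≤ β) (hCFb : ∀ c, c ≠ 0 → |∑ a ∈ CF, ch φ c a| ≤ β)
    {r z : ℕ} (hr0 : r ≠ 0) (hfr : Module.finrank (ZMod 2) (F × Y) = r)
    (hnum : 3 * ((z : ℝ) + ((CF ×ˢ (univ : Finset Y)).card + 3 * (β * Fintype.card Y)) / 4)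
      * (CF ×ˢ (univ : Finset Y)).card + 4 * (β * Fintype.card Y) * 2 ^ r
      < ((CF ×ˢ (univ : Finset Y)).card : ℝ) ^ 2) :
    TP (CF ×ˢ (univ : Finset Y)) z r := by
  obtain ⟨E, _, _, _, _, hEfin, hEcard⟩ := exists_field r hr0
  obtain ⟨φE, hφE⟩ := exists_phi E
  set e : (F × Y) ≃ₗ[ZMod 2] E := LinearEquiv.ofFinrankEq _ _ (by rw [hfr, hEfin]) with he
  set RW := CF ×ˢ (univ : Finset Y) with hRW
  have hRc : (RW.image e).card = RW.card := card_image_of_injective _ e.injective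
  have hTP : TP (RW.image e) z r := by
    refine TP_field hφE (B := β * Fintype.card Y) (by positivity) hEfin ?_ ?_
    · intro c hc
      exact hat_prod hφ hφE CF hβ hCFb e c hc
    · rw [hRc, hEcard]
      push_cast
      exact hnum
  have h9 := hTP.image e.symm
  have h10 : (RW.image e).image e.symm = RW := by
    rw [image_image]
    have : (e.symm : E → F × Y) ∘ (e : F × Y → E) = id := by
      funext w
      simp
    rw [this, image_id]
  rwa [h10] at h9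

theorem TP_final {F : Type} [Field F] [Fintype F] [DecidableEq F] [Algebra (ZMod 2) F]
    {Y : Type} [AddCommGroup Y] [Module (ZMod 2) Y] [Fintype Y] [DecidableEq Y]
    {φ : F →ₗ[ZMod 2] ZMod 2} (hφ : φ ≠ 0) (CF : Finset F) {Q : ℝ} {n h b d z N : ℕ} (hQ : 0 ≤ Q)
    (hCFc : CF.card = n * (N * h)) (hCFb : ∀ c, c ≠ 0 → |∑ a ∈ CF, ch φ c a| ≤ n * (N * Q))
    (hYcard : Fintype.card Y = 2 ^ d) (hfr : Module.finrank (ZMod 2) (F × Y) = 5 * b + d)
    (hb : 14 ≤ b) (hQb : Q * 2 ^ b ≤ h) (hz : 24 * z ≤ (CF ×ˢ (univ : Finset Y)).card)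
    (hlarge : 40 * 2 ^ (5 * b + d) ≤ (CF ×ˢ (univ : Finset Y)).card * 2 ^ b) :
    TP (CF ×ˢ (univ : Finset Y)) z (5 * b + d) := by
  have hRWc : (CF ×ˢ (univ : Finset Y)).card = n * (N * h) * 2 ^ d := by
    rw [card_product, hCFc, card_univ, hYcard]
  have hβ : (0 : ℝ) ≤ n * (N * Q) := mul_nonneg (Nat.cast_nonneg _)
    (mul_nonneg (Nat.cast_nonneg _) hQ)
  refine TP_prod hφ CF hβ hCFb (by omega) hfr ?_
  generalize hR : (CF ×ˢ (univ : Finset Y)).card = R at *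
  have g1 : (24 : ℝ) * z ≤ R := by exact_mod_cast hz
  have g2 : (40 : ℝ) * 2 ^ (5 * b + d) ≤ R * 2 ^ b := by exact_mod_cast hlarge
  have g3 : (n * (N * Q)) * (Fintype.card Y : ℝ) * 2 ^ b ≤ (R : ℝ) := by
    rw [hRWc, hYcard]
    push_cast
    calc (n : ℝ) * (N * Q) * 2 ^ d * 2 ^ b = (n : ℝ) * (N * (Q * 2 ^ b)) * 2 ^ d := by ring
      _ ≤ (n : ℝ) * (N * h) * 2 ^ d := by gcongr
  have g4 : (16384 : ℝ) ≤ 2 ^ b := by
    calc (16384 : ℝ) = 2 ^ 14 := by norm_num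
      _ ≤ 2 ^ b := pow_le_pow_right₀ (by norm_num) hb
  have g0 : (0 : ℝ) ≤ (n * (N * Q)) * (Fintype.card Y : ℝ) := mul_nonneg hβ (Nat.cast_nonneg _)
  exact final_numeric g0 g1 g2 g3 g4 (by positivity)

end Pool.Agent.H38.CE
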