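import Pool.Agent.H38.CE.Fam1

set_option autoImplicit false
set_option linter.unusedSectionVars false

/-!
# Groups of disjoint spanning circuits with pseudorandom unions
-/

namespace Pool.Agent.H38.CE

open Finset

theorem image_biUnion_image_aux {A W W' : Type} [DecidableEq W] [DecidableEq W'] (T : Finset A)
    (f : A → Finset W) (e : W → W') : (T.biUnion f).image e = T.biUnion fun s => (f s).image e := by
  ext w
  simp only [mem_biUnion, mem_image]
  constructor
  · rintro ⟨v, ⟨s, hs, hv⟩, rfl⟩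
    exact ⟨s, hs, v, hv, rfl⟩
  · rintro ⟨s, hs, v, hv, rfl⟩
    exact ⟨v, ⟨s, hs, hv⟩, rfl⟩

theorem exists_groups {b d N : ℕ} (hb : 14 ≤ b) (hd : 2 ≤ d) (hd6 : d ≤ 6)
    (hN : 5 * b + d + 1 = N) :
    ∃ (W : Type) (_ : AddCommGroup W) (_ : Module (ZMod 2) W) (_ : Fintype W)
      (_ : DecidableEq W) (fam : ℕ → Finset (Finset W)) (γ : ℕ),
      Module.finrank (ZMod 2) W = 5 * b + d ∧
      (∀ s < (2 ^ b - 1) / N, ∀ C ∈ fam s, IsCirc C ∧ C.card = N) ∧
      (∀ s < (2 ^ b - 1) / N, ∀ s' < (2 ^ b - 1) / N, ∀ C ∈ fam s, ∀ C' ∈ fam s', ∀ w, w ∈ C →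
        w ∈ C' → s = s' ∧ C = C') ∧
      (∀ s < (2 ^ b - 1) / N, ((fam s).biUnion id).card = γ) ∧
      γ ≤ 2 * N * 2 ^ (4 * b + d) ∧
      2 ^ (5 * b + d) ≤ (2 ^ b - 1) / N * γ + 2 * N * 2 ^ (4 * b + d) ∧
      (∀ T ⊆ range ((2 ^ b - 1) / N), ∀ z : ℕ,
        24 * z ≤ (T.biUnion fun s => (fam s).biUnion id).card →
        40 * 2 ^ (5 * b + d) ≤ (T.biUnion fun s => (fam s).biUnion id).card * 2 ^ b →
        TP (T.biUnion fun s => (fam s).biUnion id) z (5 * b + d)) := by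
  classical
  obtain ⟨F, _, _, _, _, g, h, Q, S, hfin, hQ, hq, hQh, hnum, hle, hprod, hQb⟩ := setupH hb
  obtain ⟨φ, hφ⟩ := exists_phi F
  obtain ⟨Y, _, _, _, _, hYfin, hYcard, hlab⟩ := exists_labels hd hd6
  obtain ⟨y, hybij, hyspan, hysum⟩ := hlab N (by omega)
  have hN3 : N - 3 + 3 = N := by omega
  have hblock : ∀ (s : ℕ) (k : Y), ∃ x : ℕ → F, (∀ j < N, x j ∈ Cl g h (s * N + j)) ∧
      (∑ j ∈ range N, ((x j, y k j) : F × Y) = 0) ∧
      ∀ I ⊆ range N, ∑ j ∈ I, ((x j, y k j) : F × Y) = 0 → I = ∅ ∨ I = range N := by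
    intro s k
    have := blockG S hφ hQ hq hQh hnum (fun j => s * N + j) (y k) (N - 3)
      (by rw [hfin, hYfin]; omega) 67 (by omega) (by rw [hfin]; omega) (hyspan k)
      (by rw [hN3]; exact hysum k)
    rwa [hN3] at this
  choose x hx htot hmin using hblock
  set f : ℕ × (Y × F) → ℕ → F × Y := fun p j => (p.2.2 * x p.1 p.2.1 j, y p.2.1 j) with hf
  set S0 := (2 ^ b - 1) / N with hS0
  set Iy : Finset (Y × F) := (univ : Finset Y) ×ˢ Cl g h 0 with hIy
  set fam : ℕ → Finset (Finset (F × Y)) := fun s => Iy.image fun p => (range N).image (f (s, p))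
    with hfam
  have hNpos : 0 < N := by omega
  have hS0N : S0 * N ≤ 2 ^ b - 1 := Nat.div_mul_le_self _ _
  have hlt : ∀ s < S0, ∀ j < N, s * N + j < 2 ^ b - 1 := by
    intro s hs j hj
    have : (s + 1) * N ≤ S0 * N := Nat.mul_le_mul_right _ hs
    rw [add_mul, one_mul] at this
    omega
  have hIym : ∀ p ∈ Iy, p.2 ∈ Cl g h 0 := by
    intro p hp
    exact (mem_product.1 hp).2
  have hcl : ∀ s, ∀ p ∈ Iy, ∀ j < N, (f (s, p) j).1 ∈ Cl g h (s * N + j) := by
    intro s p hp j hj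
    exact mul_cl (hIym p hp) (hx s p.1 j hj)
  have idx : ∀ s < S0, ∀ s' < S0, ∀ j < N, ∀ j' < N, ∀ z : F, z ∈ Cl g h (s * N + j) →
      z ∈ Cl g h (s' * N + j') → s = s' ∧ j = j' := by
    intro s hs s' hs' j hj j' hj' z h1 h2
    have h3 := S.cl_unique (hlt _ hs j hj) (hlt _ hs' j' hj') h1 h2
    have h4 : s = s' := by
      have e1 : (s * N + j) / N = s := by
        rw [mul_comm, Nat.mul_add_div hNpos, Nat.div_eq_of_lt hj, add_zero]
      have e2 : (s' * N + j') / N = s' := by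
        rw [mul_comm, Nat.mul_add_div hNpos, Nat.div_eq_of_lt hj', add_zero]
      rw [← e1, ← e2, h3]
    have h5 : j = j' := by
      rw [h4] at h3
      omega
    exact ⟨h4, h5⟩
  have key : ∀ s < S0, ∀ s' < S0, ∀ p ∈ Iy, ∀ p' ∈ Iy, ∀ j < N, ∀ j' < N,
      f (s, p) j = f (s', p') j' → s = s' ∧ p = p' ∧ j = j' := by
    intro s hs s' hs' p hp p' hp' j hj j' hj' he
    have h1 := hcl s p hp j hj
    have h2 := hcl s' p' hp' j' hj'
    rw [← he] at h2
    obtain ⟨h4, h5⟩ := idx s hs s' hs' j hj j' hj' _ h1 h2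
    subst h4
    subst h5
    have h6 : p.1 = p'.1 := (hybij j).1 (congrArg Prod.snd he)
    have h7 : p.2 = p'.2 := by
      have h8 := congrArg Prod.fst he
      simp only [hf] at h8
      rw [← h6] at h8
      exact mul_right_cancel₀ (mem_Cl.1 (hx s p.1 j hj)).1 h8
    exact ⟨rfl, Prod.ext h6 h7, rfl⟩
  have hfr : Module.finrank (ZMod 2) (F × Y) = 5 * b + d := by
    rw [Module.finrank_prod, hfin, hYfin]
  -- the union of a group
  have hgrp : ∀ s < S0, (fam s).biUnion id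
      = ((range N).biUnion fun j => Cl g h (s * N + j)) ×ˢ (univ : Finset Y) := by
    intro s hs
    ext ⟨z, w⟩
    rw [mem_biUnion, mem_product, mem_biUnion]
    constructor
    · rintro ⟨C, hC, hzC⟩
      obtain ⟨p, hp, rfl⟩ := mem_image.1 hC
      obtain ⟨j, hj, he⟩ := mem_image.1 hzC
      refine ⟨⟨j, hj, ?_⟩, mem_univ _⟩
      have := hcl s p hp j (mem_range.1 hj)
      rw [he] at this
      exact this
    · rintro ⟨⟨j, hj, hz⟩, -⟩
      obtain ⟨k, hk⟩ := (hybij j).2 w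
      simp only at hk hz
      have hj' := mem_range.1 hj
      have hxk := hx s k j hj'
      have hp : (k, z / x s k j) ∈ Iy := mem_product.2 ⟨mem_univ _, div_cl hz hxk⟩
      refine ⟨_, mem_image_of_mem _ hp, mem_image.2 ⟨j, hj, ?_⟩⟩
      simp only [hf]
      rw [hk, div_mul_cancel₀ _ (mem_Cl.1 hxk).1]
  have hgc : ∀ s < S0, ((range N).biUnion fun j => Cl g h (s * N + j)).card = N * h := by
    intro s hs
    rw [card_biUnion]
    · rw [sum_congr rfl (fun i _ => S.card_cl _), sum_const, card_range, smul_eq_mul]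
    · intro i hi i' hi' hne
      rw [Function.onFun, disjoint_left]
      intro z hz hz'
      exact hne (idx s hs s hs i (mem_range.1 hi) i' (mem_range.1 hi') z hz hz').2
  refine ⟨F × Y, inferInstance, inferInstance, inferInstance, inferInstance, fam, N * h * 2 ^ d,
    hfr, ?_, ?_, ?_, ?_, ?_, ?_⟩
  · intro s hs C hC
    obtain ⟨p, hp, rfl⟩ := mem_image.1 hC
    have hinj : ∀ i ∈ range N, ∀ j ∈ range N, f (s, p) i = f (s, p) j → i = j :=
      fun i hi j hj he =>
        (key s hs s hs p hp p hp i (mem_range.1 hi) j (mem_range.1 hj) he).2.2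
    have hu0 : p.2 ≠ 0 := (mem_Cl.1 (hIym p hp)).1
    have hzero : ∀ I : Finset ℕ, (∑ j ∈ I, f (s, p) j = 0 ↔
        ∑ j ∈ I, ((x s p.1 j, y p.1 j) : F × Y) = 0) := by
      intro I
      have e1 : (∑ j ∈ I, f (s, p) j).1 = p.2 * ∑ j ∈ I, x s p.1 j := by
        rw [Prod.fst_sum, mul_sum]
      have e2 : (∑ j ∈ I, f (s, p) j).2 = ∑ j ∈ I, y p.1 j := by
        rw [Prod.snd_sum]
      have e3 : (∑ j ∈ I, ((x s p.1 j, y p.1 j) : F × Y)).1 = ∑ j ∈ I, x s p.1 j := by
        rw [Prod.fst_sum]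
      have e4 : (∑ j ∈ I, ((x s p.1 j, y p.1 j) : F × Y)).2 = ∑ j ∈ I, y p.1 j := by
        rw [Prod.snd_sum]
      rw [Prod.ext_iff, Prod.ext_iff, e1, e2, e3, e4]
      simp [hu0]
    refine ⟨circ_of ⟨0, mem_range.2 hNpos⟩ hinj ((hzero _).2 (htot s p.1)) ?_, ?_⟩
    · intro I hI hs
      exact hmin s p.1 I hI ((hzero I).1 hs)
    · rw [card_image_of_injOn (fun i hi j hj he => hinj i hi j hj he), card_range]
  · intro s hs s' hs' C hC C' hC' w hw hw'
    obtain ⟨p, hp, rfl⟩ := mem_image.1 hC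
    obtain ⟨p', hp', rfl⟩ := mem_image.1 hC'
    obtain ⟨j, hj, rfl⟩ := mem_image.1 hw
    obtain ⟨j', hj', he⟩ := mem_image.1 hw'
    have h1 := key s' hs' s hs p' hp' p hp j' (mem_range.1 hj') j (mem_range.1 hj) he
    exact ⟨h1.1.symm, by rw [h1.1, h1.2.1]⟩
  · intro s hs
    rw [hgrp s hs, card_product, hgc s hs, card_univ, hYcard]
  · calc N * h * 2 ^ d ≤ N * (2 * 2 ^ (4 * b)) * 2 ^ d :=
          Nat.mul_le_mul_right _ (Nat.mul_le_mul_left _ (by omega))
      _ = 2 * N * 2 ^ (4 * b + d) := by rw [pow_add]; ring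
  · have h1 : 2 ^ b - 1 ≤ S0 * N + N := by
      have := Nat.div_add_mod (2 ^ b - 1) N
      have h2 := Nat.mod_lt (2 ^ b - 1) hNpos
      rw [← hS0, mul_comm] at this
      omega
    have h2 : h * (2 ^ b - 1) + 1 ≤ h * (S0 * N + N) + N := by
      have := Nat.mul_le_mul_left h h1
      omega
    have h3 : 2 ^ (5 * b + d) ≤ (h * (S0 * N + N) + N) * 2 ^ d := by
      rw [pow_add, ← hprod]
      exact Nat.mul_le_mul_right _ h2
    have h4 : (h * (S0 * N + N) + N) * 2 ^ d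
        = S0 * (N * h * 2 ^ d) + N * (h + 1) * 2 ^ d := by ring
    have h5 : N * (h + 1) * 2 ^ d ≤ 2 * N * 2 ^ (4 * b + d) := by
      calc N * (h + 1) * 2 ^ d ≤ N * (2 * 2 ^ (4 * b)) * 2 ^ d :=
            Nat.mul_le_mul_right _ (Nat.mul_le_mul_left _ hle)
        _ = 2 * N * 2 ^ (4 * b + d) := by rw [pow_add]; ring
    omega
  · intro T hT z hz hlarge
    set CF : Finset F := T.biUnion fun s => (range N).biUnion fun j => Cl g h (s * N + j) with hCF
    have hRW : (T.biUnion fun s => (fam s).biUnion id) = CF ×ˢ (univ : Finset Y) := by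
      ext ⟨a, w⟩
      rw [mem_biUnion, mem_product, hCF, mem_biUnion]
      constructor
      · rintro ⟨s, hs, hm⟩
        rw [hgrp s (mem_range.1 (hT hs)), mem_product] at hm
        exact ⟨⟨s, hs, hm.1⟩, mem_univ _⟩
      · rintro ⟨⟨s, hs, hm⟩, -⟩
        refine ⟨s, hs, ?_⟩
        rw [hgrp s (mem_range.1 (hT hs)), mem_product]
        exact ⟨hm, mem_univ _⟩
    have hdisT : ∀ s ∈ T, ∀ s' ∈ T, s ≠ s' → Disjoint
        ((range N).biUnion fun j => Cl g h (s * N + j))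
        ((range N).biUnion fun j => Cl g h (s' * N + j)) := by
      intro s hs s' hs' hne
      rw [disjoint_left]
      intro a ha ha'
      rw [mem_biUnion] at ha ha'
      obtain ⟨j, hj, hm⟩ := ha
      obtain ⟨j', hj', hm'⟩ := ha'
      exact hne (idx s (mem_range.1 (hT hs)) s' (mem_range.1 (hT hs')) j (mem_range.1 hj) j'
        (mem_range.1 hj') a hm hm').1
    have hCFc : CF.card = T.card * (N * h) := by
      rw [hCF, card_biUnion (fun s hs s' hs' hne => hdisT s hs s' hs' hne),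
        sum_congr rfl (fun s hs => hgc s (mem_range.1 (hT hs))), sum_const, smul_eq_mul]
    -- transform of `CF`
    have hCFb : ∀ c, c ≠ 0 → |∑ a ∈ CF, ch φ c a| ≤ T.card * (N * Q) := by
      intro c hc
      rw [hCF, sum_biUnion (fun s hs s' hs' hne => hdisT s hs s' hs' hne)]
      refine le_trans (abs_sum_le_sum_abs _ _) ?_
      have h1 : ∀ s ∈ T, |∑ a ∈ (range N).biUnion fun j => Cl g h (s * N + j), ch φ c a|
          ≤ N * Q := by
        intro s hs
        rw [sum_biUnion (fun i hi i' hi' hne => by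
          rw [Function.onFun, disjoint_left]
          intro z hz hz'
          exact hne (idx s (mem_range.1 (hT hs)) s (mem_range.1 (hT hs)) i (mem_range.1 hi) i'
            (mem_range.1 hi') z hz hz').2)]
        refine le_trans (abs_sum_le_sum_abs _ _) ?_
        have h2 : ∀ j ∈ range N, |∑ a ∈ Cl g h (s * N + j), ch φ c a| ≤ Q := by
          intro j _
          have := S.bound hφ hQ hq (s * N + j) c hc
          rwa [hat_idf] at this
        refine le_trans (sum_le_sum h2) ?_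
        rw [sum_const, card_range, nsmul_eq_mul]
      refine le_trans (sum_le_sum h1) ?_
      rw [sum_const, nsmul_eq_mul]
    rw [hRW] at hz hlarge ⊢
    exact TP_final hφ CF hQ hCFc hCFb hYcard hfr hb hQb hz hlarge

open Pool.Agent.H38.CD in
theorem exists_groupsV {r : ℕ} (hr : 72 ≤ r) : ∃ (b S0 γ : ℕ) (fam : ℕ → Finset (Finset (V r))),
    14 ≤ b ∧ r ≤ 5 * b + 6 ∧
    (∀ s < S0, ∀ C ∈ fam s, IsCircuit C ∧ C.card = r + 1) ∧
    (∀ s < S0, ∀ s' < S0, ∀ C ∈ fam s, ∀ C' ∈ fam s', ∀ w, w ∈ C → w ∈ C' → s = s' ∧ C = C') ∧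
    (∀ s < S0, ((fam s).biUnion id).card = γ) ∧
    γ ≤ 2 * (r + 1) * 2 ^ ((4 * r + 6) / 5) ∧
    2 ^ r ≤ S0 * γ + 2 * (r + 1) * 2 ^ ((4 * r + 6) / 5) ∧
    (∀ T ⊆ range S0, ∀ z : ℕ,
      24 * z ≤ (T.biUnion fun s => (fam s).biUnion id).card →
      40 * 2 ^ r ≤ (T.biUnion fun s => (fam s).biUnion id).card * 2 ^ b →
      TP (T.biUnion fun s => (fam s).biUnion id) z r) := by
  classical
  obtain ⟨b, hb⟩ : ∃ b, b = (r - 2) / 5 := ⟨_, rfl⟩
  obtain ⟨d, hd⟩ : ∃ d, r = 5 * b + d := ⟨r - 5 * b, by omega⟩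
  obtain ⟨W, _, _, _, _, fam, γ, hfin, hc, hdis, hγ, hγ2, hcard, hTP⟩ := exists_groups (b := b)
    (d := d) (N := r + 1) (by omega) (by omega) (by omega) (by omega)
  have hfr : Module.finrank (ZMod 2) W = Module.finrank (ZMod 2) (Fin r → ZMod 2) := by
    rw [hfin, Module.finrank_fin_fun, hd]
  set e : W ≃ₗ[ZMod 2] (Fin r → ZMod 2) := LinearEquiv.ofFinrankEq W (Fin r → ZMod 2) hfr
  have h2 : (4 * r + 6) / 5 = 4 * b + d := by omega
  have hgr : ∀ s, ((fam s).image (fun C => C.image e)).biUnion id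
      = ((fam s).biUnion id).image e := by
    intro s
    ext w
    simp only [mem_biUnion, mem_image, id]
    constructor
    · rintro ⟨_, ⟨t, ht, rfl⟩, hw⟩
      obtain ⟨v, hv, rfl⟩ := mem_image.1 hw
      exact ⟨v, ⟨t, ht, hv⟩, rfl⟩
    · rintro ⟨v, ⟨t, ht, hv⟩, rfl⟩
      exact ⟨_, ⟨t, ht, rfl⟩, mem_image_of_mem _ hv⟩
  have hun : ∀ T : Finset ℕ, (T.biUnion fun s => ((fam s).image (fun C => C.image e)).biUnion id)
      = (T.biUnion fun s => (fam s).biUnion id).image e := by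
    intro T
    rw [image_biUnion_image_aux]
    refine biUnion_congr rfl fun s _ => hgr s
  refine ⟨b, (2 ^ b - 1) / (r + 1), γ, fun s => (fam s).image (fun C => C.image e), by omega,
    by omega, ?_, ?_, ?_, ?_, ?_, ?_⟩
  · intro s hs C hC
    obtain ⟨t, ht, rfl⟩ := mem_image.1 hC
    refine ⟨(hc s hs t ht).1.image e.toLinearMap.toAddMonoidHom e.injective, ?_⟩
    rw [card_image_of_injective _ e.injective, (hc s hs t ht).2]
  · intro s hs s' hs' C hC C' hC' w hw hw'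
    obtain ⟨t, ht, rfl⟩ := mem_image.1 hC
    obtain ⟨t', ht', rfl⟩ := mem_image.1 hC'
    obtain ⟨v, hv, rfl⟩ := mem_image.1 hw
    obtain ⟨v', hv', he⟩ := mem_image.1 hw'
    have := e.injective he
    subst this
    have h3 := hdis s hs s' hs' t ht t' ht' _ hv hv'
    exact ⟨h3.1, by rw [h3.2]⟩
  · intro s hs
    rw [hgr, card_image_of_injective _ e.injective, hγ s hs]
  · rw [h2]
    exact hγ2
  · rw [h2]
    have h3 : 2 ^ r = 2 ^ (5 * b + d) := by rw [hd]
    rw [h3]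
    exact hcard
  · intro T hT z hz hl
    rw [hun] at hz hl ⊢
    rw [card_image_of_injective _ e.injective] at hz hl
    have h3 := (hTP T hT z hz (by rw [← hd]; exact hl)).image e
    rwa [← hd] at h3

end Pool.Agent.H38.CE
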