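import Pool.Agent.H38.CE.Assemble
import Pool.Agent.H38.CD.Basic

set_option autoImplicit false
set_option linter.unusedSectionVars false

/-!
# The complete binary matroid of rank `r` for `r + 1` dividing `2 ^ r - 1` or `2 ^ (r - 2) - 1`
-/

namespace Pool.Agent.H38.CE

open Finset

theorem twenty_sq_le (m : ℕ) (hm : 15 ≤ m) : 20 * (2 * m + 3) ^ 2 ≤ 2 ^ m := by
  induction m, hm using Nat.le_induction with
  | base => norm_num
  | succ m hm ih =>
    rw [pow_succ 2 m]
    nlinarith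

theorem numeric {N h : ℕ} {Q : ℝ} (hN : 33 ≤ N) (hQ : 20 * (N : ℝ) ^ 2 ≤ Q)
    (hh : (N : ℝ) * h = Q ^ 2 - 1) :
    Q < h ∧ 9 * Q * h + 16 * Q ^ 3 + 9 * Q ^ 2 < (h : ℝ) ^ 2 := by
  have hN' : (33 : ℝ) ≤ N := by exact_mod_cast hN
  have hN0 : (0 : ℝ) < N := by linarith
  generalize (N : ℝ) = n at *
  generalize (h : ℝ) = k at *
  have hQ1 : 20000 ≤ Q := by nlinarith
  have hQ660 : 660 * n ≤ Q := by nlinarith
  have hQ0 : 0 < Q := by linarith
  constructor
  · have h1 : n * Q < n * k := by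
      rw [hh]
      nlinarith
    exact lt_of_mul_lt_mul_left h1 hN0.le
  · have h2 : n ^ 2 * (9 * Q * k + 16 * Q ^ 3 + 9 * Q ^ 2) < n ^ 2 * k ^ 2 := by
      have e1 : n ^ 2 * (9 * Q * k + 16 * Q ^ 3 + 9 * Q ^ 2)
          = 9 * Q * n * (n * k) + 16 * Q ^ 3 * n ^ 2 + 9 * Q ^ 2 * n ^ 2 := by ring
      have e2 : n ^ 2 * k ^ 2 = (n * k) ^ 2 := by ring
      rw [e1, e2, hh]
      have a1 : 9 * Q * n * (Q ^ 2 - 1) ≤ 9 / 660 * Q ^ 4 := by
        have t1 : 0 ≤ Q ^ 2 - 1 := by nlinarith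
        have t2 : 9 * Q * n * (Q ^ 2 - 1) ≤ 9 * Q * n * Q ^ 2 := by
          apply mul_le_mul_of_nonneg_left _ (by positivity)
          linarith
        have t3 : 9 * Q * n * Q ^ 2 = 9 * Q ^ 3 * n := by ring
        have t4 : 9 * Q ^ 3 * n ≤ 9 * Q ^ 3 * (Q / 660) := by
          apply mul_le_mul_of_nonneg_left _ (by positivity)
          linarith
        have t5 : 9 * Q ^ 3 * (Q / 660) = 9 / 660 * Q ^ 4 := by ring
        linarith
      have a2 : 16 * Q ^ 3 * n ^ 2 ≤ 4 / 5 * Q ^ 4 := by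
        have t4 : 16 * Q ^ 3 * n ^ 2 ≤ 16 * Q ^ 3 * (Q / 20) := by
          apply mul_le_mul_of_nonneg_left _ (by positivity)
          linarith
        have t5 : 16 * Q ^ 3 * (Q / 20) = 4 / 5 * Q ^ 4 := by ring
        linarith
      have a3 : 9 * Q ^ 2 * n ^ 2 ≤ 9 / 20 * Q ^ 3 := by
        have t4 : 9 * Q ^ 2 * n ^ 2 ≤ 9 * Q ^ 2 * (Q / 20) := by
          apply mul_le_mul_of_nonneg_left _ (by positivity)
          linarith
        have t5 : 9 * Q ^ 2 * (Q / 20) = 9 / 20 * Q ^ 3 := by ring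
        linarith
      have a4 : 9 / 20 * Q ^ 3 ≤ 1 / 1000 * Q ^ 4 := by
        have : Q ^ 4 = Q * Q ^ 3 := by ring
        rw [this]
        nlinarith [pow_pos hQ0 3]
      have a5 : 2 * Q ^ 2 ≤ 1 / 1000 * Q ^ 4 := by
        have : Q ^ 4 = Q ^ 2 * Q ^ 2 := by ring
        rw [this]
        nlinarith [pow_pos hQ0 2]
      have a6 : (0 : ℝ) < Q ^ 4 := by positivity
      nlinarith
    exact lt_of_mul_lt_mul_left h2 (by positivity)

/-- the field and the subgroup -/
theorem setup {N a : ℕ} (hN : 33 ≤ N) (ha : N ≤ a + 3) (hdvd : N ∣ 2 ^ a - 1)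
    (hev : Even a) :
    ∃ (F : Type) (_ : Field F) (_ : Fintype F) (_ : DecidableEq F) (_ : Algebra (ZMod 2) F)
      (g : F) (h : ℕ) (Q : ℝ), Sub g h N ∧ Module.finrank (ZMod 2) F = a ∧
      0 ≤ Q ∧ (Fintype.card F : ℝ) = Q ^ 2 ∧ Q < h ∧
      9 * Q * h + 16 * Q ^ 3 + 9 * Q ^ 2 < (h : ℝ) ^ 2 ∧ h * N = 2 ^ a - 1 := by
  classical
  have ha0 : a ≠ 0 := by omega
  let _ : Fintype (GaloisField 2 a) := Fintype.ofFinite _
  have hcard : Fintype.card (GaloisField 2 a) = 2 ^ a := by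
    rw [← Nat.card_eq_fintype_card, GaloisField.card 2 a ha0]
  obtain ⟨g, hg0, hgen, hord⟩ := exists_gen (F := GaloisField 2 a)
  obtain ⟨h, hh⟩ := hdvd
  have hpow : 2 ^ 1 ≤ 2 ^ a := Nat.pow_le_pow_right (by norm_num) (by omega)
  have hh' : h * N = 2 ^ a - 1 := by rw [hh, mul_comm]
  have hhN : h * N + 1 = 2 ^ a := by omega
  have hhpos : 0 < h := by
    rcases Nat.eq_zero_or_pos h with h0 | h0
    · rw [h0] at hhN
      omega
    · exact h0
  have S : Sub g h N := by
    refine ⟨hg0, hgen, ?_, hhpos, by omega, ?_⟩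
    · rw [hord, hcard, hh']
    · rw [hcard, hhN]
  obtain ⟨m, hm⟩ := hev
  have hQval : (20 : ℝ) * (N : ℝ) ^ 2 ≤ 2 ^ m := by
    have h1 := twenty_sq_le m (by omega)
    have h2 : 20 * N ^ 2 ≤ 2 ^ m := by
      refine le_trans (Nat.mul_le_mul_left _ (Nat.pow_le_pow_left (by omega) 2)) h1
    exact_mod_cast h2
  have hNh : (N : ℝ) * h = ((2 : ℝ) ^ m) ^ 2 - 1 := by
    have h1 : ((h * N + 1 : ℕ) : ℝ) = ((2 ^ a : ℕ) : ℝ) := by rw [hhN]
    push_cast at h1
    rw [hm] at h1
    have h2 : ((2 : ℝ) ^ m) ^ 2 = 2 ^ (m + m) := by ring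
    rw [h2]
    linarith
  obtain ⟨h1, h2⟩ := numeric hN hQval hNh
  refine ⟨GaloisField 2 a, inferInstance, inferInstance, inferInstance, inferInstance, g, h,
    (2 : ℝ) ^ m, S, GaloisField.finrank 2 ha0, by positivity, ?_, h1, h2, hh'⟩
  rw [hcard, hm]
  push_cast
  ring

theorem exists_phi (F : Type) [Field F] [Algebra (ZMod 2) F] : ∃ φ : F →ₗ[ZMod 2] ZMod 2, φ ≠ 0 := by
  by_contra hno
  push Not at hno
  have h1 := (Module.forall_dual_apply_eq_zero_iff (ZMod 2) (1 : F)).1 (fun φ => by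
    rw [hno φ]; rfl)
  exact one_ne_zero h1

/-- the space with four elements -/
abbrev Y4 := ZMod 2 × ZMod 2

/-- the second coordinates -/
def yy (k : Y4) (j : ℕ) : Y4 :=
  if j = 1 then (k.2, k.1 + k.2) else if j = 2 then (k.1 + k.2, k.1) else
  if j = 3 then k + (1, 0) else if j = 4 then k + (0, 1) else if j = 5 then k + (1, 1) else k

theorem yy_bij (j : ℕ) : Function.Bijective (fun k => yy k j) := by
  apply Function.Injective.bijective_of_finite
  unfold yy
  by_cases h1 : j = 1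
  · simp only [h1]; decide
  by_cases h2 : j = 2
  · simp only [h2]; decide
  by_cases h3 : j = 3
  · simp only [h3]; decide
  by_cases h4 : j = 4
  · simp only [h4]; decide
  by_cases h5 : j = 5
  · simp only [h5]; decide
  intro a b hab
  simpa [h1, h2, h3, h4, h5] using hab

theorem y4_self (k : Y4) : k + k = 0 := by
  revert k; decide

theorem yy_six : ∀ k : Y4, ∑ x ∈ range 6, yy k x = k := by decide

theorem yy_sum (k : Y4) (N : ℕ) (hN : 6 ≤ N) (hodd : Odd N) : ∑ j ∈ range N, yy k j = 0 := by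
  obtain ⟨m, hm⟩ := hodd
  have h1 : N = 6 + ((2 * (m - 3)) + 1) := by omega
  rw [h1, Finset.sum_range_add]
  have h2 : ∀ x, yy k (6 + x) = k := by
    intro x
    unfold yy
    rw [if_neg (by omega), if_neg (by omega), if_neg (by omega), if_neg (by omega),
      if_neg (by omega)]
  have h3 : ∑ x ∈ range (2 * (m - 3) + 1), yy k (6 + x) = k := by
    rw [sum_congr rfl (fun x _ => h2 x), sum_const, card_range, add_smul, one_smul, mul_comm,
      mul_smul, two_smul, y4_self, smul_zero, zero_add]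
  rw [h3, yy_six, y4_self]

/-- the nonzero vectors of the plane are a circuit -/
theorem y4_circ : IsCirc ((univ : Finset Y4).erase 0) := by
  refine ⟨⟨(1, 0), by decide⟩, by decide, ?_⟩
  intro D hD hDn
  have : ∀ D ∈ ((univ : Finset Y4).erase 0).powerset, D ≠ (univ : Finset Y4).erase 0 →
      D ≠ ∅ → ∑ v ∈ D, v ≠ 0 := by decide
  exact this D (mem_powerset.2 hD.1) (fun h => hD.2 (by rw [h])) hDn.ne_empty

open Pool.Agent.H38.CD in
/-- the general construction -/
theorem core {N a r : ℕ} (hN : 33 ≤ N) (ha : N ≤ a + 3) (hdvd : N ∣ 2 ^ a - 1) (hev : Even a)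
    {Y : Type} [AddCommGroup Y] [Module (ZMod 2) Y] [Fintype Y] [DecidableEq Y]
    (hr : a + Module.finrank (ZMod 2) Y = r) (hrN : r + 1 = N) (y : Y → ℕ → Y)
    (hy : ∀ j < N, Function.Bijective (fun k => y k j))
    (hspan : ∀ k, ∀ ν : Y →ₗ[ZMod 2] ZMod 2, (∀ j < N - 3, ν (y k j) = 0) → ν = 0)
    (hsum : ∀ k, ∑ j ∈ range N, y k j = 0)
    (PY : Finpartition ((univ : Finset Y).erase 0)) (hPY : ∀ C ∈ PY.parts, IsCirc C) :
    ∃ P : Finpartition ((univ : Finset (V r)).erase 0), IsDecomp P ∧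
      ∃ h : ℕ, h * N = 2 ^ a - 1 ∧ P.parts.card ≤ Fintype.card Y * h + PY.parts.card := by
  obtain ⟨F, _, _, _, _, g, h, Q, S, hfin, hQ, hq, hQh, hnum, hhN⟩ := setup hN ha hdvd hev
  obtain ⟨φ, hφ⟩ := exists_phi F
  have hN3 : N - 3 + 3 = N := by omega
  have hblock : ∀ k : Y, ∃ x : ℕ → F, (∀ j < N, x j ∈ Cl g h j) ∧
      (∑ j ∈ range N, ((x j, y k j) : F × Y) = 0) ∧
      ∀ I ⊆ range N, ∑ j ∈ I, ((x j, y k j) : F × Y) = 0 → I = ∅ ∨ I = range N := by
    intro k
    have := block S hφ hQ hq hQh hnum (y k) (N - 3) (by rw [hfin]; omega) (by rw [hfin]; omega)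
      (hspan k) (by rw [hN3]; exact hsum k)
    rwa [hN3] at this
  choose x hx htot hmin using hblock
  have hfr : Module.finrank (ZMod 2) (F × Y) = Module.finrank (ZMod 2) (Fin r → ZMod 2) := by
    rw [Module.finrank_prod, Module.finrank_fin_fun, hfin, hr]
  obtain ⟨P, hP, hc⟩ := exists_partition S x y hx hy htot hmin PY hPY
    (LinearEquiv.ofFinrankEq (F × Y) (Fin r → ZMod 2) hfr)
  exact ⟨P, hP, h, hhN, hc⟩

theorem odd_of_dvd {N a : ℕ} (ha : 1 ≤ a) (hdvd : N ∣ 2 ^ a - 1) : Odd N := by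
  rw [← Nat.not_even_iff_odd]
  intro hev
  have h1 : 2 ∣ 2 ^ a - 1 := dvd_trans hev.two_dvd hdvd
  have h2 : 2 ∣ 2 ^ a := dvd_pow_self 2 (by omega)
  have h3 : 0 < 2 ^ a := by positivity
  omega

open Pool.Agent.H38.CD in
/-- **Main theorem.** -/
theorem complete (r : ℕ) (hr : 32 ≤ r) (hd : (r + 1) ∣ 2 ^ r - 1 ∨ (r + 1) ∣ 2 ^ (r - 2) - 1) :
    ∃ P : Finpartition ((univ : Finset (V r)).erase 0), IsDecomp P ∧
      P.parts.card * (r + 1) < 2 ^ r - 1 + (r + 1) := by
  rcases hd with hd | hd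
  · have hodd := odd_of_dvd (by omega) hd
    have hev : Even r := by
      rcases Nat.even_or_odd r with h1 | h1
      · exact h1
      · exact absurd (h1.add_one) (Nat.not_even_iff_odd.2 hodd)
    have hempty : (∅ : Finset (Fin 0 → ZMod 2)) = (univ : Finset (Fin 0 → ZMod 2)).erase 0 := by
      ext v
      simp [Subsingleton.elim v 0]
    obtain ⟨P, hP, h, hh, hc⟩ := core (N := r + 1) (a := r) (r := r) (by omega) (by omega) hd hev
      (Y := Fin 0 → ZMod 2) (by rw [Module.finrank_fin_fun]; omega) rfl (fun _ _ => 0)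
      (fun j _ => ⟨fun a b _ => Subsingleton.elim a b, fun b => ⟨0, Subsingleton.elim _ _⟩⟩)
      (fun k ν _ => by
        apply LinearMap.ext
        intro z
        rw [Subsingleton.elim z 0, map_zero, map_zero])
      (fun k => Subsingleton.elim _ _)
      ((Finpartition.empty (Finset (Fin 0 → ZMod 2))).copy hempty) (fun C hC => by simp at hC)
    refine ⟨P, hP, ?_⟩
    have hc' : P.parts.card ≤ h := by simpa using hc
    have := Nat.mul_le_mul_right (r + 1) hc'
    omega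
  · have hodd := odd_of_dvd (by omega) hd
    have hev : Even (r - 2) := by
      rcases Nat.even_or_odd r with h1 | h1
      · exact (Nat.even_sub (by omega)).2 (by simp [h1])
      · exact absurd (h1.add_one) (Nat.not_even_iff_odd.2 hodd)
    have hne : ((univ : Finset Y4).erase 0) ≠ ⊥ := by decide
    obtain ⟨P, hP, h, hh, hc⟩ := core (N := r + 1) (a := r - 2) (r := r) (by omega) (by omega) hd
      hev (Y := Y4) (by
        rw [Module.finrank_prod, Module.finrank_self]; omega) rfl yy (fun j _ => yy_bij j)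
      (fun k ν hν => by
        have e3 := hν 3 (by omega)
        have e4 := hν 4 (by omega)
        have e6 := hν 6 (by omega)
        have f3 : yy k 3 = k + (1, 0) := by simp [yy]
        have f4 : yy k 4 = k + (0, 1) := by simp [yy]
        have f6 : yy k 6 = k := by simp [yy]
        rw [f3, map_add] at e3
        rw [f4, map_add] at e4
        rw [f6] at e6
        rw [e6, zero_add] at e3 e4
        apply LinearMap.ext
        rintro ⟨p, q⟩
        have h1 : ((p, q) : Y4) = p • (1, 0) + q • (0, 1) := by simp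
        rw [h1, map_add, map_smul, map_smul, e3, e4]
        simp)
      (fun k => yy_sum k (r + 1) (by omega) hodd)
      (Finpartition.indiscrete hne) (fun C hC => by
        rw [Finpartition.indiscrete_parts, mem_singleton] at hC
        rw [hC]
        exact y4_circ)
    refine ⟨P, hP, ?_⟩
    have hcard : Fintype.card Y4 = 4 := by decide
    rw [hcard, Finpartition.indiscrete_parts, card_singleton] at hc
    have h1 := Nat.mul_le_mul_right (r + 1) hc
    have h2 : (4 * h + 1) * (r + 1) = 4 * (h * (r + 1)) + (r + 1) := by ring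
    rw [h2, hh] at h1
    have h3 : 2 ^ r = 4 * 2 ^ (r - 2) := by
      have : 4 * 2 ^ (r - 2) = 2 ^ 2 * 2 ^ (r - 2) := by norm_num
      rw [this, ← pow_add]
      congr 1
      omega
    have h4 : 0 < 2 ^ (r - 2) := by positivity
    omega

end Pool.Agent.H38.CE
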