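import Pool.Agent.H38.CE.Tri

set_option autoImplicit false
set_option linter.unusedSectionVars false

/-!
# Repairing broken circuits with three vectors each
-/

namespace Pool.Agent.H38.CE

open Finset Pool.Agent.H38.CD

theorem fix_one {r : ℕ} {C M R Z : Finset (V r)} {z : ℕ} (hr : 4 ≤ r) (hTP : TP R z r)
    (hZ : Z.card ≤ z) (hC : IsCircuit C) (hCc : C.card = r + 1) (hCR : Disjoint C R)
    (hbr : ¬ C ⊆ M) :
    ∃ D : Finset (V r), IsCircuit D ∧ D ⊆ (C ∩ M) ∪ (R \ Z) ∧ (D ∩ R).card = 3 ∧
      ((C ∩ M) \ D).card ≤ 2 := by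
  classical
  set B := C ∩ M with hB
  have hBC : B ⊂ C := by
    refine ⟨inter_subset_left, fun h => hbr ?_⟩
    exact h.trans inter_subset_right
  have hBc : B.card ≤ r := by
    have := card_lt_card hBC
    omega
  obtain ⟨J, hJB, hJc⟩ := exists_subset_card_eq (s := B) (n := min B.card (r - 2)) (by omega)
  have hJ2 : J.card + 2 ≤ r := by omega
  have hdrop : (B \ J).card ≤ 2 := by
    rw [card_sdiff_of_subset hJB]
    omega
  have hind : ∀ J' ⊆ C, J' ⊂ C → J'.Nonempty → ∑ v ∈ J', v ≠ 0 := fun J' _ h1 h2 =>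
    hC.2.2 J' h1 h2
  have hJC : J ⊂ C := lt_of_le_of_lt hJB hBC
  obtain ⟨x, hx, hs⟩ := hTP Z hZ J hJ2
  set U := Submodule.span (ZMod 2) (J : Set (V r)) with hU
  have hsumU : ∀ J' ⊆ J, ∑ v ∈ J', v ∈ U := by
    intro J' hJ'
    exact Submodule.sum_mem _ fun v hv => Submodule.subset_span (mem_coe.2 (hJ' hv))
  have hxU : ∀ i, x i ∉ U := fun i => (hx i).2.2
  have hxR : ∀ i, x i ∈ R := fun i => (hx i).1
  have hxJ : ∀ i, x i ∉ J := fun i h => hxU i (Submodule.subset_span h)
  have h01 : x 0 ≠ x 1 := by
    intro h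
    rw [h, add_self', zero_add] at hs
    exact hxU 2 (by rw [hs]; exact hsumU J (Subset.refl _))
  have h02 : x 0 ≠ x 2 := by
    intro h
    have h1 : x 0 + x 1 + x 2 = x 1 := by
      rw [h, add_right_comm, add_self', zero_add]
    rw [h1] at hs
    exact hxU 1 (by rw [hs]; exact hsumU J (Subset.refl _))
  have h12 : x 1 ≠ x 2 := by
    intro h
    rw [h, add_assoc, add_self', add_zero] at hs
    exact hxU 0 (by rw [hs]; exact hsumU J (Subset.refl _))
  have hinj : Function.Injective x := by
    intro i j hij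
    fin_cases i <;> fin_cases j <;> first | rfl | (exfalso; first | exact h01 hij | exact h02 hij | exact h12 hij | exact h01 hij.symm | exact h02 hij.symm | exact h12 hij.symm)
  set X := (univ : Finset (Fin 3)).image x with hX
  have hXc : X.card = 3 := by
    rw [hX, card_image_of_injective _ hinj]
    simp
  have hXR : X ⊆ R := by
    intro v hv
    obtain ⟨i, -, rfl⟩ := mem_image.1 hv
    exact hxR i
  have hJX : Disjoint J X := by
    rw [disjoint_left]
    intro v hv hv'
    obtain ⟨i, -, rfl⟩ := mem_image.1 hv'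
    exact hxJ i hv
  have hXsum : ∑ v ∈ X, v = x 0 + x 1 + x 2 := by
    rw [hX, sum_image (fun a _ b _ h => hinj h), Fin.sum_univ_three]
  refine ⟨J ∪ X, ⟨?_, ?_, ?_⟩, ?_, ?_, ?_⟩
  · exact ⟨x 0, mem_union_right _ (mem_image_of_mem _ (mem_univ _))⟩
  · rw [sum_union hJX, hXsum, hs, add_self']
  · intro D' hD' hne hsum
    set J' := D' ∩ J with hJ'
    have hJ's : J' ⊆ J := inter_subset_right
    have hdec : D' = J' ∪ (X.filter fun v => v ∈ D') := by
      ext v
      rw [mem_union, mem_inter, mem_filter]
      constructor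
      · intro hv
        rcases mem_union.1 (hD'.1 hv) with h1 | h1
        · exact Or.inl ⟨hv, h1⟩
        · exact Or.inr ⟨h1, hv⟩
      · rintro (h1 | h1)
        · exact h1.1
        · exact h1.2
    have hdis : Disjoint J' (X.filter fun v => v ∈ D') :=
      disjoint_of_subset_left hJ's (disjoint_of_subset_right (filter_subset _ _) hJX)
    have hXs : ∑ v ∈ X.filter (fun v => v ∈ D'), v = (if x 0 ∈ D' then x 0 else 0)
        + (if x 1 ∈ D' then x 1 else 0) + (if x 2 ∈ D' then x 2 else 0) := by
      rw [sum_filter, hX, sum_image (fun a _ b _ h => hinj h), Fin.sum_univ_three]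
    have hs0 : ∑ v ∈ J', v + ((if x 0 ∈ D' then x 0 else 0)
        + (if x 1 ∈ D' then x 1 else 0) + (if x 2 ∈ D' then x 2 else 0)) = 0 := by
      rw [← hXs, ← sum_union hdis, ← hdec]
      exact hsum
    have hs' := hsumU J' hJ's
    have hss := hsumU J (Subset.refl _)
    rw [← hs] at hss
    generalize hS' : ∑ v ∈ J', v = s' at *
    have one : ∀ i, s' + x i = 0 → False := by
      intro i h
      apply hxU i
      have : x i = -s' := by rw [eq_neg_iff_add_eq_zero, add_comm]; exact h
      rw [this]
      exact U.neg_mem hs'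
    have two : ∀ i, s' + (x 0 + x 1 + x 2 - x i) = 0 → False := by
      intro i h
      apply hxU i
      have : x i = s' + (x 0 + x 1 + x 2) - (s' + (x 0 + x 1 + x 2 - x i)) := by abel
      rw [this, h, sub_zero]
      exact U.add_mem hs' hss
    by_cases m0 : x 0 ∈ D' <;> by_cases m1 : x 1 ∈ D' <;> by_cases m2 : x 2 ∈ D'
    · -- all three
      rw [if_pos m0, if_pos m1, if_pos m2] at hs0
      have h1 : ∑ v ∈ J \ J', v = 0 := by
        have h2 := sum_sdiff (f := fun v : V r => v) hJ's
        rw [hS', ← hs] at h2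
        have h3 : ∑ v ∈ J \ J', v = (x 0 + x 1 + x 2) - s' := eq_sub_of_add_eq h2
        rw [h3, sub_eq_zero]
        exact (eq_of_add_eq_zero' (by rw [add_comm]; exact hs0))
      have h4 : J \ J' = ∅ := by
        by_contra hne'
        exact hC.2.2 (J \ J') (lt_of_le_of_lt (sdiff_subset) hJC)
          (nonempty_iff_ne_empty.2 hne') h1
      apply hD'.2
      rw [hdec]
      intro v hv
      rcases mem_union.1 hv with h5 | h5
      · refine mem_union_left _ ?_
        rw [sdiff_eq_empty_iff_subset] at h4
        exact h4 h5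
      · refine mem_union_right _ (mem_filter.2 ⟨h5, ?_⟩)
        obtain ⟨i, -, rfl⟩ := mem_image.1 h5
        fin_cases i
        · exact m0
        · exact m1
        · exact m2
    · rw [if_pos m0, if_pos m1, if_neg m2] at hs0
      exact two 2 (by rw [← hs0]; abel)
    · rw [if_pos m0, if_neg m1, if_pos m2] at hs0
      exact two 1 (by rw [← hs0]; abel)
    · rw [if_pos m0, if_neg m1, if_neg m2] at hs0
      exact one 0 (by rw [← hs0]; abel)
    · rw [if_neg m0, if_pos m1, if_pos m2] at hs0
      exact two 0 (by rw [← hs0]; abel)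
    · rw [if_neg m0, if_pos m1, if_neg m2] at hs0
      exact one 1 (by rw [← hs0]; abel)
    · rw [if_neg m0, if_neg m1, if_pos m2] at hs0
      exact one 2 (by rw [← hs0]; abel)
    · rw [if_neg m0, if_neg m1, if_neg m2, add_zero, add_zero, add_zero] at hs0
      rw [hs0] at hS'
      have h4 : J' = ∅ := by
        by_contra hne'
        exact hC.2.2 J' (lt_of_le_of_lt hJ's hJC) (nonempty_iff_ne_empty.2 hne') hS'
      have h5 : D' = ∅ := by
        rw [hdec, h4, empty_union, filter_eq_empty_iff]
        intro v hv hv'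
        obtain ⟨i, -, rfl⟩ := mem_image.1 hv
        fin_cases i
        · exact m0 hv'
        · exact m1 hv'
        · exact m2 hv'
      rw [h5] at hne
      exact not_nonempty_empty hne
  · intro v hv
    rcases mem_union.1 hv with h1 | h1
    · exact mem_union_left _ (hJB h1)
    · obtain ⟨i, -, rfl⟩ := mem_image.1 h1
      exact mem_union_right _ (mem_sdiff.2 ⟨(hx i).1, (hx i).2.1⟩)
  · have : (J ∪ X) ∩ R = X := by
      ext v
      rw [mem_inter, mem_union]
      constructor
      · rintro ⟨h1 | h1, h2⟩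
        · exact absurd h2 (disjoint_left.1 hCR (hJC.1 h1))
        · exact h1
      · intro h1
        exact ⟨Or.inr h1, hXR h1⟩
    rw [this, hXc]
  · refine le_trans (card_le_card ?_) hdrop
    intro v hv
    rw [mem_sdiff, mem_union, not_or] at hv
    exact mem_sdiff.2 ⟨hv.1, hv.2.1⟩

theorem fix_all {r : ℕ} {M R : Finset (V r)} {z : ℕ} (hr : 4 ≤ r) (hTP : TP R z r)
    (main : Finset (Finset (V r))) (hz : (R \ M).card + 3 * main.card ≤ z)
    (hc : ∀ C ∈ main, IsCircuit C ∧ C.card = r + 1 ∧ Disjoint C R)
    (hdis : ∀ C ∈ main, ∀ C' ∈ main, ∀ w, w ∈ C → w ∈ C' → C = C') :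
    ∃ DD : Finset (Finset (V r)), (∀ D ∈ DD, IsCircuit D) ∧
      (∀ D ∈ DD, ∀ D' ∈ DD, ∀ w, w ∈ D → w ∈ D' → D = D') ∧ DD.card ≤ main.card ∧
      (∀ D ∈ DD, D ⊆ M) ∧
      ((main.biUnion id ∩ M) \ DD.biUnion id).card ≤ (DD.biUnion id ∩ R).card := by
  classical
  suffices hmain : ∀ main' : Finset (Finset (V r)), main' ⊆ main →
      ∃ DD : Finset (Finset (V r)), (∀ D ∈ DD, IsCircuit D) ∧
      (∀ D ∈ DD, ∀ D' ∈ DD, ∀ w, w ∈ D → w ∈ D' → D = D') ∧ DD.card ≤ main'.card ∧
      (∀ D ∈ DD, D ⊆ M ∧ D ⊆ main'.biUnion id ∪ R) ∧ (DD.biUnion id ∩ R).card ≤ 3 * main'.card ∧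
      ((main'.biUnion id ∩ M) \ DD.biUnion id).card ≤ (DD.biUnion id ∩ R).card by
    obtain ⟨DD, h1, h2, h3, h4, -, h6⟩ := hmain main (Subset.refl _)
    exact ⟨DD, h1, h2, h3, fun D hD => (h4 D hD).1, h6⟩
  intro main'
  induction main' using Finset.induction_on with
  | empty =>
    intro _
    refine ⟨∅, ?_, ?_, ?_, ?_, ?_, ?_⟩ <;> simp
  | insert C main' hCn ih =>
    intro hsub
    obtain ⟨DD, h1, h2, h3, h4, h5, h6⟩ := ih ((subset_insert _ _).trans hsub)
    have hCm : C ∈ main := hsub (mem_insert_self _ _)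
    obtain ⟨hC, hCc, hCR⟩ := hc C hCm
    have hCmain : ∀ w ∈ C, w ∉ main'.biUnion id := by
      intro w hw hw'
      rw [mem_biUnion] at hw'
      obtain ⟨C', hC', hwC'⟩ := hw'
      have := hdis C hCm C' (hsub (mem_insert_of_mem hC')) w hw hwC'
      exact hCn (this ▸ hC')
    have hCDD : ∀ w ∈ C, ∀ D ∈ DD, w ∉ D := by
      intro w hw D hD hwD
      rcases mem_union.1 ((h4 D hD).2 hwD) with h7 | h7
      · exact hCmain w hw h7
      · exact disjoint_left.1 hCR hw h7
    rw [card_insert_of_notMem hCn]
    have hbu : (insert C main').biUnion id = C ∪ main'.biUnion id := by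
      rw [biUnion_insert]
      rfl
    rw [hbu]
    by_cases hCM : C ⊆ M
    · refine ⟨insert C DD, ?_, ?_, ?_, ?_, ?_, ?_⟩
      · intro D hD
        rcases mem_insert.1 hD with rfl | hD
        · exact hC
        · exact h1 D hD
      · intro D hD D' hD' w hw hw'
        rcases mem_insert.1 hD with rfl | hDa <;> rcases mem_insert.1 hD' with rfl | hDb
        · rfl
        · exact absurd hw' (hCDD w hw D' hDb)
        · exact absurd hw (hCDD w hw' D hDa)
        · exact h2 D hDa D' hDb w hw hw'
      · have := card_insert_le C DD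
        omega
      · intro D hD
        rcases mem_insert.1 hD with rfl | hD
        · exact ⟨hCM, subset_union_left.trans subset_union_left⟩
        · exact ⟨(h4 D hD).1, (h4 D hD).2.trans (union_subset_union_left subset_union_right)⟩
      · have h7 : (insert C DD).biUnion id ∩ R = DD.biUnion id ∩ R := by
          rw [biUnion_insert, id, union_inter_distrib_right, disjoint_iff_inter_eq_empty.1 hCR,
            empty_union]
        rw [h7]
        omega
      · have h7 : (insert C DD).biUnion id ∩ R = DD.biUnion id ∩ R := by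
          rw [biUnion_insert, id, union_inter_distrib_right, disjoint_iff_inter_eq_empty.1 hCR,
            empty_union]
        rw [h7]
        refine le_trans (card_le_card ?_) h6
        intro w hw
        rw [mem_sdiff, mem_inter, mem_union, biUnion_insert, mem_union, not_or] at hw
        refine mem_sdiff.2 ⟨mem_inter.2 ⟨?_, hw.1.2⟩, hw.2.2⟩
        rcases hw.1.1 with h8 | h8
        · exact absurd h8 hw.2.1
        · exact h8
    · obtain ⟨D, hD, hDs, hD3, hDd⟩ := fix_one (Z := (R \ M) ∪ (DD.biUnion id ∩ R)) hr hTP (by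
          refine le_trans (card_union_le _ _) ?_
          have h8 : main'.card + 1 ≤ main.card := by
            rw [← card_insert_of_notMem hCn]
            exact card_le_card hsub
          omega) hC hCc hCR hCM
      have hDM : D ⊆ M := by
        intro w hw
        rcases mem_union.1 (hDs hw) with h7 | h7
        · exact (mem_inter.1 h7).2
        · rw [mem_sdiff, mem_union, not_or, mem_sdiff] at h7
          by_contra h8
          exact h7.2.1 ⟨h7.1, h8⟩
      have hDDD : ∀ w ∈ D, ∀ D' ∈ DD, w ∉ D' := by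
        intro w hw D' hD' hwD'
        rcases mem_union.1 (hDs hw) with h7 | h7
        · exact hCDD w (mem_inter.1 h7).1 D' hD' hwD'
        · rw [mem_sdiff, mem_union, not_or] at h7
          exact h7.2.2 (mem_inter.2 ⟨mem_biUnion.2 ⟨D', hD', hwD'⟩, h7.1⟩)
      have hDnot : D ∉ DD := by
        intro h
        obtain ⟨w, hw⟩ := hD.1
        exact hDDD w hw D h hw
      have hused : ((insert D DD).biUnion id ∩ R).card = 3 + (DD.biUnion id ∩ R).card := by
        rw [biUnion_insert, id, union_inter_distrib_right, card_union_of_disjoint, hD3]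
        rw [disjoint_left]
        intro w hw hw'
        obtain ⟨D', hD', hwD'⟩ := mem_biUnion.1 (mem_inter.1 hw').1
        exact hDDD w (mem_inter.1 hw).1 D' hD' hwD'
      refine ⟨insert D DD, ?_, ?_, ?_, ?_, ?_, ?_⟩
      · intro D' hD'
        rcases mem_insert.1 hD' with rfl | hD'
        · exact hD
        · exact h1 D' hD'
      · intro D1 hD1 D2 hD2 w hw hw'
        rcases mem_insert.1 hD1 with rfl | hDa <;> rcases mem_insert.1 hD2 with rfl | hDb
        · rfl
        · exact absurd hw' (hDDD w hw D2 hDb)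
        · exact absurd hw (hDDD w hw' D1 hDa)
        · exact h2 D1 hDa D2 hDb w hw hw'
      · have := card_insert_le D DD
        omega
      · intro D' hD'
        rcases mem_insert.1 hD' with rfl | hD'
        · refine ⟨hDM, fun w hw => ?_⟩
          rcases mem_union.1 (hDs hw) with h7 | h7
          · exact mem_union_left _ (mem_union_left _ (mem_inter.1 h7).1)
          · exact mem_union_right _ (mem_sdiff.1 h7).1
        · exact ⟨(h4 D' hD').1, (h4 D' hD').2.trans (union_subset_union_left subset_union_right)⟩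
      · rw [hused]
        omega
      · rw [hused]
        have h9 : ((C ∪ main'.biUnion id) ∩ M) \ (insert D DD).biUnion id
            ⊆ ((C ∩ M) \ D) ∪ ((main'.biUnion id ∩ M) \ DD.biUnion id) := by
          intro w hw
          rw [mem_sdiff, mem_inter, mem_union, biUnion_insert, mem_union, not_or] at hw
          rcases hw.1.1 with h8 | h8
          · exact mem_union_left _ (mem_sdiff.2 ⟨mem_inter.2 ⟨h8, hw.1.2⟩, hw.2.1⟩)
          · exact mem_union_right _ (mem_sdiff.2 ⟨mem_inter.2 ⟨h8, hw.1.2⟩, hw.2.2⟩)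
        have h10 := (card_le_card h9).trans (card_union_le _ _)
        omega

theorem fix_all2 {r : ℕ} {M R : Finset (V r)} {z : ℕ} (hr : 4 ≤ r) (hTP : TP R z r)
    (main : Finset (Finset (V r))) (hz : (R \ M).card + 3 * (main.filter fun C => ¬ C ⊆ M).card ≤ z)
    (hc : ∀ C ∈ main, IsCircuit C ∧ C.card = r + 1 ∧ Disjoint C R)
    (hdis : ∀ C ∈ main, ∀ C' ∈ main, ∀ w, w ∈ C → w ∈ C' → C = C') :
    ∃ DD : Finset (Finset (V r)), (∀ D ∈ DD, IsCircuit D) ∧
      (∀ D ∈ DD, ∀ D' ∈ DD, ∀ w, w ∈ D → w ∈ D' → D = D') ∧ DD.card ≤ main.card ∧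
      (∀ D ∈ DD, D ⊆ M) ∧
      ((main.biUnion id ∩ M) \ DD.biUnion id).card + (main.filter fun C => ¬ C ⊆ M).card
        ≤ (DD.biUnion id ∩ R).card := by
  classical
  suffices hmain : ∀ main' : Finset (Finset (V r)), main' ⊆ main →
      ∃ DD : Finset (Finset (V r)), (∀ D ∈ DD, IsCircuit D) ∧
      (∀ D ∈ DD, ∀ D' ∈ DD, ∀ w, w ∈ D → w ∈ D' → D = D') ∧ DD.card ≤ main'.card ∧
      (∀ D ∈ DD, D ⊆ M ∧ D ⊆ main'.biUnion id ∪ R) ∧
      (DD.biUnion id ∩ R).card ≤ 3 * (main'.filter fun C => ¬ C ⊆ M).card ∧
      ((main'.biUnion id ∩ M) \ DD.biUnion id).card + (main'.filter fun C => ¬ C ⊆ M).card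
        ≤ (DD.biUnion id ∩ R).card by
    obtain ⟨DD, h1, h2, h3, h4, -, h6⟩ := hmain main (Subset.refl _)
    exact ⟨DD, h1, h2, h3, fun D hD => (h4 D hD).1, h6⟩
  intro main'
  induction main' using Finset.induction_on with
  | empty =>
    intro _
    refine ⟨∅, ?_, ?_, ?_, ?_, ?_, ?_⟩ <;> simp
  | insert C main' hCn ih =>
    intro hsub
    obtain ⟨DD, h1, h2, h3, h4, h5, h6⟩ := ih ((subset_insert _ _).trans hsub)
    have hCm : C ∈ main := hsub (mem_insert_self _ _)
    obtain ⟨hC, hCc, hCR⟩ := hc C hCm
    have hCmain : ∀ w ∈ C, w ∉ main'.biUnion id := by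
      intro w hw hw'
      rw [mem_biUnion] at hw'
      obtain ⟨C', hC', hwC'⟩ := hw'
      have := hdis C hCm C' (hsub (mem_insert_of_mem hC')) w hw hwC'
      exact hCn (this ▸ hC')
    have hCDD : ∀ w ∈ C, ∀ D ∈ DD, w ∉ D := by
      intro w hw D hD hwD
      rcases mem_union.1 ((h4 D hD).2 hwD) with h7 | h7
      · exact hCmain w hw h7
      · exact disjoint_left.1 hCR hw h7
    rw [card_insert_of_notMem hCn]
    have hbu : (insert C main').biUnion id = C ∪ main'.biUnion id := by
      rw [biUnion_insert]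
      rfl
    rw [hbu]
    by_cases hCM : C ⊆ M
    · rw [filter_insert, if_neg (not_not.2 hCM)]
      refine ⟨insert C DD, ?_, ?_, ?_, ?_, ?_, ?_⟩
      · intro D hD
        rcases mem_insert.1 hD with rfl | hD
        · exact hC
        · exact h1 D hD
      · intro D hD D' hD' w hw hw'
        rcases mem_insert.1 hD with rfl | hDa <;> rcases mem_insert.1 hD' with rfl | hDb
        · rfl
        · exact absurd hw' (hCDD w hw D' hDb)
        · exact absurd hw (hCDD w hw' D hDa)
        · exact h2 D hDa D' hDb w hw hw'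
      · have := card_insert_le C DD
        omega
      · intro D hD
        rcases mem_insert.1 hD with rfl | hD
        · exact ⟨hCM, subset_union_left.trans subset_union_left⟩
        · exact ⟨(h4 D hD).1, (h4 D hD).2.trans (union_subset_union_left subset_union_right)⟩
      · have h7 : (insert C DD).biUnion id ∩ R = DD.biUnion id ∩ R := by
          rw [biUnion_insert, id, union_inter_distrib_right, disjoint_iff_inter_eq_empty.1 hCR,
            empty_union]
        rw [h7]
        omega
      · have h7 : (insert C DD).biUnion id ∩ R = DD.biUnion id ∩ R := by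
          rw [biUnion_insert, id, union_inter_distrib_right, disjoint_iff_inter_eq_empty.1 hCR,
            empty_union]
        rw [h7]
        refine le_trans (Nat.add_le_add_right (card_le_card ?_) _) h6
        intro w hw
        rw [mem_sdiff, mem_inter, mem_union, biUnion_insert, mem_union, not_or] at hw
        refine mem_sdiff.2 ⟨mem_inter.2 ⟨?_, hw.1.2⟩, hw.2.2⟩
        rcases hw.1.1 with h8 | h8
        · exact absurd h8 hw.2.1
        · exact h8
    · have hfc : ((insert C main').filter fun C => ¬ C ⊆ M).card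
          = (main'.filter fun C => ¬ C ⊆ M).card + 1 := by
        rw [filter_insert, if_pos hCM, card_insert_of_notMem]
        exact fun h => hCn (mem_filter.1 h).1
      rw [hfc]
      obtain ⟨D, hD, hDs, hD3, hDd⟩ := fix_one (Z := (R \ M) ∪ (DD.biUnion id ∩ R)) hr hTP (by
          refine le_trans (card_union_le _ _) ?_
          have h8 : (main'.filter fun C => ¬ C ⊆ M).card + 1
              ≤ (main.filter fun C => ¬ C ⊆ M).card := by
            rw [← hfc]
            exact card_le_card (filter_subset_filter _ hsub)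
          omega) hC hCc hCR hCM
      have hDM : D ⊆ M := by
        intro w hw
        rcases mem_union.1 (hDs hw) with h7 | h7
        · exact (mem_inter.1 h7).2
        · rw [mem_sdiff, mem_union, not_or, mem_sdiff] at h7
          by_contra h8
          exact h7.2.1 ⟨h7.1, h8⟩
      have hDDD : ∀ w ∈ D, ∀ D' ∈ DD, w ∉ D' := by
        intro w hw D' hD' hwD'
        rcases mem_union.1 (hDs hw) with h7 | h7
        · exact hCDD w (mem_inter.1 h7).1 D' hD' hwD'
        · rw [mem_sdiff, mem_union, not_or] at h7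
          exact h7.2.2 (mem_inter.2 ⟨mem_biUnion.2 ⟨D', hD', hwD'⟩, h7.1⟩)
      have hDnot : D ∉ DD := by
        intro h
        obtain ⟨w, hw⟩ := hD.1
        exact hDDD w hw D h hw
      have hused : ((insert D DD).biUnion id ∩ R).card = 3 + (DD.biUnion id ∩ R).card := by
        rw [biUnion_insert, id, union_inter_distrib_right, card_union_of_disjoint, hD3]
        rw [disjoint_left]
        intro w hw hw'
        obtain ⟨D', hD', hwD'⟩ := mem_biUnion.1 (mem_inter.1 hw').1
        exact hDDD w (mem_inter.1 hw).1 D' hD' hwD'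
      refine ⟨insert D DD, ?_, ?_, ?_, ?_, ?_, ?_⟩
      · intro D' hD'
        rcases mem_insert.1 hD' with rfl | hD'
        · exact hD
        · exact h1 D' hD'
      · intro D1 hD1 D2 hD2 w hw hw'
        rcases mem_insert.1 hD1 with rfl | hDa <;> rcases mem_insert.1 hD2 with rfl | hDb
        · rfl
        · exact absurd hw' (hDDD w hw D2 hDb)
        · exact absurd hw (hDDD w hw' D1 hDa)
        · exact h2 D1 hDa D2 hDb w hw hw'
      · have := card_insert_le D DD
        omega
      · intro D' hD'
        rcases mem_insert.1 hD' with rfl | hD'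
        · refine ⟨hDM, fun w hw => ?_⟩
          rcases mem_union.1 (hDs hw) with h7 | h7
          · exact mem_union_left _ (mem_union_left _ (mem_inter.1 h7).1)
          · exact mem_union_right _ (mem_sdiff.1 h7).1
        · exact ⟨(h4 D' hD').1, (h4 D' hD').2.trans (union_subset_union_left subset_union_right)⟩
      · rw [hused]
        omega
      · rw [hused]
        have h9 : ((C ∪ main'.biUnion id) ∩ M) \ (insert D DD).biUnion id
            ⊆ ((C ∩ M) \ D) ∪ ((main'.biUnion id ∩ M) \ DD.biUnion id) := by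
          intro w hw
          rw [mem_sdiff, mem_inter, mem_union, biUnion_insert, mem_union, not_or] at hw
          rcases hw.1.1 with h8 | h8
          · exact mem_union_left _ (mem_sdiff.2 ⟨mem_inter.2 ⟨h8, hw.1.2⟩, hw.2.1⟩)
          · exact mem_union_right _ (mem_sdiff.2 ⟨mem_inter.2 ⟨h8, hw.1.2⟩, hw.2.2⟩)
        have h10 := (card_le_card h9).trans (card_union_le _ _)
        omega

end Pool.Agent.H38.CE
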