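import Pool.Agent.H38.CE.BlockG
import Pool.Agent.H38.CE.Even4

set_option autoImplicit false
set_option linter.unusedSectionVars false

/-!
# Labels, and a large family of disjoint spanning circuits in every rank
-/

namespace Pool.Agent.H38.CE

open Finset

theorem exists_labels {d : ℕ} (hd : 2 ≤ d) (hd6 : d ≤ 6) :
    ∃ (Y : Type) (_ : AddCommGroup Y) (_ : Module (ZMod 2) Y) (_ : Fintype Y)
      (_ : DecidableEq Y), Module.finrank (ZMod 2) Y = d ∧ Fintype.card Y = 2 ^ d ∧
      ∀ N, 70 ≤ N → ∃ y : Y → ℕ → Y, (∀ j, Function.Bijective (fun k => y k j)) ∧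
        (∀ k, ∀ ν : Y →ₗ[ZMod 2] ZMod 2, (∀ j < 67, ν (y k j) = 0) → ν = 0) ∧
        (∀ k, ∑ j ∈ range N, y k j = 0) := by
  classical
  have hd0 : d ≠ 0 := by omega
  let _ : Fintype (GaloisField 2 d) := Fintype.ofFinite _
  have hcard : Fintype.card (GaloisField 2 d) = 2 ^ d := by
    rw [← Nat.card_eq_fintype_card, GaloisField.card 2 d hd0]
  have h4 : 4 ≤ 2 ^ d := by
    calc 4 = 2 ^ 2 := by norm_num
      _ ≤ 2 ^ d := Nat.pow_le_pow_right (by norm_num) hd
  have h64 : 2 ^ d ≤ 64 := by
    calc 2 ^ d ≤ 2 ^ 6 := Nat.pow_le_pow_right (by norm_num) hd6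
      _ = 64 := by norm_num
  obtain ⟨ω, hω0, hω1⟩ : ∃ ω : GaloisField 2 d, ω ≠ 0 ∧ ω ≠ 1 := by
    by_contra hno
    push Not at hno
    have h1 : (univ : Finset (GaloisField 2 d)) ⊆ {0, 1} := by
      intro z _
      rw [mem_insert, mem_singleton]
      by_cases hz : z = 0
      · exact Or.inl hz
      · exact Or.inr (hno z hz)
    have h2 := (card_le_card h1).trans card_le_two
    rw [card_univ, hcard] at h2
    omega
  refine ⟨GaloisField 2 d, inferInstance, inferInstance, inferInstance, inferInstance,
    GaloisField.finrank 2 hd0, hcard, ?_⟩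
  intro N hN
  set e : Fin (Fintype.card (GaloisField 2 d)) ≃ GaloisField 2 d := (Fintype.equivFin _).symm
  set c : ℕ → GaloisField 2 d := fun j => if hj : 3 ≤ j ∧ j - 3 < Fintype.card (GaloisField 2 d)
    then e ⟨j - 3, hj.2⟩ else 0 with hc
  set α : ℕ → GaloisField 2 d := fun j => 1 + (if Odd N then ((if j = 1 then 1 + ω else 0)
    + (if j = 2 then ω else 0)) else 0) with hα
  have h11 : (1 : GaloisField 2 d) + 1 = 0 := CharTwo.add_self_eq_zero 1
  have hα0 : ∀ j, α j ≠ 0 := by
    intro j
    simp only [hα]
    split_ifs with h1 h2 h3 h3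
    · omega
    · rw [add_zero, ← add_assoc, h11, zero_add]
      exact hω0
    · rw [zero_add]
      intro h5
      apply hω1
      have : (1 : GaloisField 2 d) + ω + ω = ω := by rw [h5, zero_add]
      rw [add_assoc, CharTwo.add_self_eq_zero, add_zero] at this
      exact this.symm
    · rw [add_zero, add_zero]
      exact one_ne_zero
    · rw [add_zero]
      exact one_ne_zero
  have hα3 : ∀ j, 3 ≤ j → α j = 1 := by
    intro j hj
    simp only [hα]
    rw [if_neg (by omega : ¬ j = 1), if_neg (by omega : ¬ j = 2), add_zero, ite_self, add_zero]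
  have hαs : ∑ j ∈ range N, α j = 0 := by
    simp only [hα]
    rw [sum_add_distrib, sum_const, card_range, nsmul_eq_mul, mul_one]
    rcases Nat.even_or_odd N with he | ho
    · rw [(CharP.cast_eq_zero_iff (GaloisField 2 d) 2 N).2 he.two_dvd, zero_add]
      refine sum_eq_zero fun j _ => ?_
      rw [if_neg (Nat.not_odd_iff_even.2 he)]
    · have h1 : ∀ j, (if Odd N then ((if j = 1 then 1 + ω else 0) + (if j = 2 then ω else 0)) else 0)
          = (if j = 1 then 1 + ω else 0) + (if j = 2 then ω else 0) := fun j => if_pos ho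
      simp_rw [h1]
      rw [sum_add_distrib, sum_ite_eq' (range N) 1, sum_ite_eq' (range N) 2,
        if_pos (mem_range.2 (by omega)), if_pos (mem_range.2 (by omega)), add_assoc,
        CharTwo.add_self_eq_zero, add_zero]
      obtain ⟨p, hp⟩ := ho
      have h2 : ((2 * p : ℕ) : GaloisField 2 d) = 0 :=
        (CharP.cast_eq_zero_iff (GaloisField 2 d) 2 (2 * p)).2 (Dvd.intro _ rfl)
      rw [hp, Nat.cast_add, h2, zero_add, Nat.cast_one, h11]
  have hcs : ∑ j ∈ range N, c j = 0 := by
    have h1 : ∑ z : GaloisField 2 d, z = 0 := by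
      have := FiniteField.sum_pow_lt_card_sub_one (GaloisField 2 d) 1 (by rw [hcard]; omega)
      simpa using this
    rw [← Equiv.sum_comp e] at h1
    rw [← h1, Finset.sum_fin_eq_sum_range]
    have h2 : N = 3 + (N - 3) := by omega
    rw [h2, Finset.sum_range_add]
    have h3 : ∑ x ∈ range 3, c x = 0 := by
      refine sum_eq_zero fun j hj => ?_
      simp only [hc]
      rw [dif_neg]
      have := mem_range.1 hj
      omega
    rw [h3, zero_add]
    symm
    refine sum_subset_zero_on_sdiff ?_ ?_ ?_
    · intro i hi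
      rw [mem_range] at *
      omega
    · intro i hi
      rw [mem_sdiff, mem_range, mem_range] at hi
      simp only [hc]
      rw [dif_neg]
      omega
    · intro i hi
      rw [mem_range] at hi
      simp only [hc]
      rw [dif_pos hi, dif_pos ⟨by omega, by omega⟩]
      congr 2
      omega
  refine ⟨fun k j => α j * k + c j, ?_, ?_, ?_⟩
  · intro j
    apply Function.Injective.bijective_of_finite
    intro k k' hk
    exact mul_left_cancel₀ (hα0 j) (add_right_cancel hk)
  · intro k ν hν
    apply LinearMap.ext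
    intro z
    have h1 := hν (3 + (e.symm (z - k)).1) (by
      have := (e.symm (z - k)).2
      omega)
    simp only at h1
    rw [hα3 _ (by omega), one_mul] at h1
    have h2 : c (3 + (e.symm (z - k)).1) = z - k := by
      simp only [hc]
      rw [dif_pos ⟨by omega, by
        have := (e.symm (z - k)).2
        omega⟩]
      have h3 : (⟨3 + (e.symm (z - k)).1 - 3, by
        have := (e.symm (z - k)).2
        omega⟩ : Fin (Fintype.card (GaloisField 2 d))) = e.symm (z - k) := by
        apply Fin.ext
        simp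
      rw [h3, Equiv.apply_symm_apply]
    rw [h2, add_sub_cancel] at h1
    exact h1
  · intro k
    simp only
    rw [sum_add_distrib, ← sum_mul, hαs, hcs, zero_mul, add_zero]

end Pool.Agent.H38.CE
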