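import Pool.Agent.H38.CE.Gen1

set_option autoImplicit false
set_option linter.unusedSectionVars false

/-!
# A large family of disjoint spanning circuits in every rank
-/

namespace Pool.Agent.H38.CE

open Finset

theorem numericG {u k : ℝ} (hu : 128 ≤ u) (hk : k = u ^ 8 + u ^ 6 + u ^ 4 + u ^ 2 + 1) :
    u ^ 5 < k ∧ 9 * u ^ 5 * k + 16 * (u ^ 5) ^ 3 + 9 * (u ^ 5) ^ 2 < k ^ 2 := by
  have hu0 : 0 < u := by linarith
  have hu1 : 1 ≤ u := by linarith
  have p5 : 0 < u ^ 5 := by positivity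
  have h8 : u ^ 5 ≤ u ^ 8 := pow_le_pow_right₀ hu1 (by norm_num)
  have hk8 : u ^ 8 ≤ k := by
    rw [hk]
    have : 0 ≤ u ^ 6 + u ^ 4 + u ^ 2 + 1 := by positivity
    linarith
  have hk2 : k ≤ 5 * u ^ 8 := by
    have a1 : u ^ 6 ≤ u ^ 8 := pow_le_pow_right₀ hu1 (by norm_num)
    have a2 : u ^ 4 ≤ u ^ 8 := pow_le_pow_right₀ hu1 (by norm_num)
    have a3 : u ^ 2 ≤ u ^ 8 := pow_le_pow_right₀ hu1 (by norm_num)
    have a4 : 1 ≤ u ^ 8 := one_le_pow₀ hu1
    rw [hk]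
    linarith
  constructor
  · rw [hk]
    have : 0 ≤ u ^ 6 + u ^ 4 + u ^ 2 := by positivity
    linarith
  · have b1 : 9 * u ^ 5 * k ≤ 45 * u ^ 13 := by
      have := mul_le_mul_of_nonneg_left hk2 (by positivity : 0 ≤ 9 * u ^ 5)
      calc 9 * u ^ 5 * k ≤ 9 * u ^ 5 * (5 * u ^ 8) := this
        _ = 45 * u ^ 13 := by ring
    have b2 : u ^ 13 ≤ u ^ 15 := pow_le_pow_right₀ hu1 (by norm_num)
    have b3 : u ^ 10 ≤ u ^ 15 := pow_le_pow_right₀ hu1 (by norm_num)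
    have b4 : 128 * u ^ 15 ≤ u ^ 16 := by
      have := mul_le_mul_of_nonneg_right hu (by positivity : 0 ≤ u ^ 15)
      calc 128 * u ^ 15 ≤ u * u ^ 15 := this
        _ = u ^ 16 := by ring
    have b5 : u ^ 16 ≤ k ^ 2 := by
      have := pow_le_pow_left₀ (by positivity : 0 ≤ u ^ 8) hk8 2
      calc u ^ 16 = (u ^ 8) ^ 2 := by ring
        _ ≤ k ^ 2 := this
    have b6 : (u ^ 5) ^ 3 = u ^ 15 := by ring
    have b7 : (u ^ 5) ^ 2 = u ^ 10 := by ring
    have b8 : 0 < u ^ 15 := by positivity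
    rw [b6, b7]
    linarith

/-- the field -/
theorem setupG {b : ℕ} (hb : 14 ≤ b) :
    ∃ (F : Type) (_ : Field F) (_ : Fintype F) (_ : DecidableEq F) (_ : Algebra (ZMod 2) F)
      (g : F) (h : ℕ) (Q : ℝ), Sub g h (2 ^ b - 1) ∧ Module.finrank (ZMod 2) F = 5 * b ∧
      0 ≤ Q ∧ (Fintype.card F : ℝ) = Q ^ 2 ∧ Q < h ∧
      9 * Q * h + 16 * Q ^ 3 + 9 * Q ^ 2 < (h : ℝ) ^ 2 ∧ h + 1 ≤ 2 * 2 ^ (4 * b) ∧
      h * (2 ^ b - 1) + 1 = 2 ^ (5 * b) := by
  classical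
  have ha0 : 5 * b ≠ 0 := by omega
  let _ : Fintype (GaloisField 2 (5 * b)) := Fintype.ofFinite _
  have hcard : Fintype.card (GaloisField 2 (5 * b)) = 2 ^ (5 * b) := by
    rw [← Nat.card_eq_fintype_card, GaloisField.card 2 (5 * b) ha0]
  obtain ⟨g, hg0, hgen, hord⟩ := exists_gen (F := GaloisField 2 (5 * b))
  have ht : 2 ^ 14 ≤ 2 ^ b := Nat.pow_le_pow_right (by norm_num) hb
  have e5 : 2 ^ (5 * b) = (2 ^ b) ^ 5 := by rw [← pow_mul, mul_comm]
  have e4 : 2 ^ (4 * b) = (2 ^ b) ^ 4 := by rw [← pow_mul, mul_comm]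
  set h : ℕ := (2 ^ b) ^ 4 + (2 ^ b) ^ 3 + (2 ^ b) ^ 2 + 2 ^ b + 1 with hh
  have hprod : h * (2 ^ b - 1) + 1 = 2 ^ (5 * b) := by
    rw [e5, hh]
    obtain ⟨s, hs⟩ : ∃ s, 2 ^ b = s + 1 := ⟨2 ^ b - 1, by omega⟩
    rw [hs, Nat.add_sub_cancel]
    ring
  have hle : h + 1 ≤ 2 * 2 ^ (4 * b) := by
    rw [e4, hh]
    generalize 2 ^ b = t at *
    have h1 : 1 ≤ t := by omega
    have a3 : t ^ 3 * 4 ≤ t ^ 4 := by
      calc t ^ 3 * 4 ≤ t ^ 3 * t := Nat.mul_le_mul_left _ (by omega)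
        _ = t ^ 4 := by ring
    have a2 : t ^ 2 ≤ t ^ 3 := Nat.pow_le_pow_right h1 (by norm_num)
    have a1 : t ^ 1 ≤ t ^ 3 := Nat.pow_le_pow_right h1 (by norm_num)
    have a0 : 2 ≤ t ^ 3 := by
      calc 2 ≤ t := by omega
        _ = t ^ 1 := (pow_one t).symm
        _ ≤ t ^ 3 := a1
    rw [pow_one] at a1
    omega
  have S : Sub g h (2 ^ b - 1) := by
    refine ⟨hg0, hgen, ?_, by rw [hh]; omega, by omega, ?_⟩
    · rw [hord, hcard]
      omega
    · rw [hcard, hprod]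
  set u : ℝ := Real.sqrt ((2 : ℝ) ^ b) with hu
  have hu2 : u ^ 2 = (2 : ℝ) ^ b := Real.sq_sqrt (by positivity)
  have hu128 : 128 ≤ u := by
    apply Real.le_sqrt_of_sq_le
    have : ((2 ^ 14 : ℕ) : ℝ) ≤ ((2 ^ b : ℕ) : ℝ) := by exact_mod_cast ht
    push_cast at this
    linarith
  have hhr : (h : ℝ) = u ^ 8 + u ^ 6 + u ^ 4 + u ^ 2 + 1 := by
    have e8 : u ^ 8 = ((2 : ℝ) ^ b) ^ 4 := by rw [← hu2]; ring
    have e6 : u ^ 6 = ((2 : ℝ) ^ b) ^ 3 := by rw [← hu2]; ring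
    have e4 : u ^ 4 = ((2 : ℝ) ^ b) ^ 2 := by rw [← hu2]; ring
    rw [e8, e6, e4, hu2, hh]
    push_cast
    ring
  obtain ⟨h1, h2⟩ := numericG hu128 hhr
  refine ⟨GaloisField 2 (5 * b), inferInstance, inferInstance, inferInstance, inferInstance, g, h,
    u ^ 5, S, GaloisField.finrank 2 ha0, by positivity, ?_, h1, h2, hle, hprod⟩
  rw [hcard, e5]
  push_cast
  rw [← hu2]
  ring

theorem exists_familyW {b d N : ℕ} (hb : 14 ≤ b) (hd : 2 ≤ d) (hd6 : d ≤ 6)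
    (hN : 5 * b + d + 1 = N) :
    ∃ (W : Type) (_ : AddCommGroup W) (_ : Module (ZMod 2) W) (_ : Fintype W)
      (_ : DecidableEq W) (fam : Finset (Finset W)), Module.finrank (ZMod 2) W = 5 * b + d ∧
      (∀ C ∈ fam, IsCirc C ∧ C.card = N) ∧
      (∀ C ∈ fam, ∀ C' ∈ fam, ∀ w, w ∈ C → w ∈ C' → C = C') ∧
      2 ^ (5 * b + d) ≤ (fam.biUnion id).card + 2 * N * 2 ^ (4 * b + d) := by
  classical
  obtain ⟨F, _, _, _, _, g, h, Q, S, hfin, hQ, hq, hQh, hnum, hle, hprod⟩ := setupG hb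
  obtain ⟨φ, hφ⟩ := exists_phi F
  obtain ⟨Y, _, _, _, _, hYfin, hYcard, hlab⟩ := exists_labels hd hd6
  obtain ⟨y, hybij, hyspan, hysum⟩ := hlab N (by omega)
  have hN3 : N - 3 + 3 = N := by omega
  have hblock : ∀ (s : ℕ) (k : Y), ∃ x : ℕ → F, (∀ j < N, x j ∈ Cl g h (s * N + j)) ∧
      (∑ j ∈ range N, ((x j, y k j) : F × Y) = 0) ∧
      ∀ I ⊆ range N, ∑ j ∈ I, ((x j, y k j) : F × Y) = 0 → I = ∅ ∨ I = range N := by
    intro s k
    have := blockG S hφ hQ hq hQh hnum (fun j => s * N + j) (y k) (N - 3)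
      (by rw [hfin, hYfin]; omega) 67 (by omega) (by rw [hfin]; omega) (hyspan k)
      (by rw [hN3]; exact hysum k)
    rwa [hN3] at this
  choose x hx htot hmin using hblock
  set f : ℕ × (Y × F) → ℕ → F × Y := fun p j => (p.2.2 * x p.1 p.2.1 j, y p.2.1 j) with hf
  set S0 := (2 ^ b - 1) / N with hS0
  set Ix : Finset (ℕ × (Y × F)) := range S0 ×ˢ ((univ : Finset Y) ×ˢ Cl g h 0) with hIx
  set fam : Finset (Finset (F × Y)) := Ix.image fun p => (range N).image (f p) with hfam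
  have hNpos : 0 < N := by omega
  have hS0N : S0 * N ≤ 2 ^ b - 1 := Nat.div_mul_le_self _ _
  have hlt : ∀ s < S0, ∀ j < N, s * N + j < 2 ^ b - 1 := by
    intro s hs j hj
    have : (s + 1) * N ≤ S0 * N := Nat.mul_le_mul_right _ hs
    rw [add_mul, one_mul] at this
    omega
  have hIxm : ∀ p ∈ Ix, p.1 < S0 ∧ p.2.2 ∈ Cl g h 0 := by
    intro p hp
    rw [hIx, mem_product, mem_product, mem_range] at hp
    exact ⟨hp.1, hp.2.2⟩
  have hcl : ∀ p ∈ Ix, ∀ j < N, (f p j).1 ∈ Cl g h (p.1 * N + j) := by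
    intro p hp j hj
    exact mul_cl (hIxm p hp).2 (hx p.1 p.2.1 j hj)
  have key : ∀ p ∈ Ix, ∀ p' ∈ Ix, ∀ j < N, ∀ j' < N, f p j = f p' j' → p = p' ∧ j = j' := by
    intro p hp p' hp' j hj j' hj' he
    have h1 := hcl p hp j hj
    have h2 := hcl p' hp' j' hj'
    rw [← he] at h2
    have h3 := S.cl_unique (hlt _ (hIxm p hp).1 j hj) (hlt _ (hIxm p' hp').1 j' hj') h1 h2
    have h4 : p.1 = p'.1 := by
      have e1 : (p.1 * N + j) / N = p.1 := by
        rw [mul_comm, Nat.mul_add_div hNpos, Nat.div_eq_of_lt hj, add_zero]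
      have e2 : (p'.1 * N + j') / N = p'.1 := by
        rw [mul_comm, Nat.mul_add_div hNpos, Nat.div_eq_of_lt hj', add_zero]
      rw [← e1, ← e2, h3]
    have h5 : j = j' := by
      rw [h4] at h3
      omega
    subst h5
    have h6 : p.2.1 = p'.2.1 := (hybij j).1 (congrArg Prod.snd he)
    have h7 : p.2.2 = p'.2.2 := by
      have h8 := congrArg Prod.fst he
      simp only [hf] at h8
      rw [← h4, ← h6] at h8
      exact mul_right_cancel₀ (mem_Cl.1 (hx p.1 p.2.1 j hj)).1 h8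
    exact ⟨Prod.ext h4 (Prod.ext h6 h7), rfl⟩
  have hfr : Module.finrank (ZMod 2) (F × Y) = 5 * b + d := by
    rw [Module.finrank_prod, hfin, hYfin]
  refine ⟨F × Y, inferInstance, inferInstance, inferInstance, inferInstance, fam, hfr, ?_, ?_, ?_⟩
  · intro C hC
    obtain ⟨p, hp, rfl⟩ := mem_image.1 hC
    have hinj : ∀ i ∈ range N, ∀ j ∈ range N, f p i = f p j → i = j := fun i hi j hj he =>
      (key p hp p hp i (mem_range.1 hi) j (mem_range.1 hj) he).2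
    have hu0 : p.2.2 ≠ 0 := (mem_Cl.1 (hIxm p hp).2).1
    have hzero : ∀ I : Finset ℕ, (∑ j ∈ I, f p j = 0 ↔
        ∑ j ∈ I, ((x p.1 p.2.1 j, y p.2.1 j) : F × Y) = 0) := by
      intro I
      have e1 : (∑ j ∈ I, f p j).1 = p.2.2 * ∑ j ∈ I, x p.1 p.2.1 j := by
        rw [Prod.fst_sum, mul_sum]
      have e2 : (∑ j ∈ I, f p j).2 = ∑ j ∈ I, y p.2.1 j := by
        rw [Prod.snd_sum]
      have e3 : (∑ j ∈ I, ((x p.1 p.2.1 j, y p.2.1 j) : F × Y)).1 = ∑ j ∈ I, x p.1 p.2.1 j := by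
        rw [Prod.fst_sum]
      have e4 : (∑ j ∈ I, ((x p.1 p.2.1 j, y p.2.1 j) : F × Y)).2 = ∑ j ∈ I, y p.2.1 j := by
        rw [Prod.snd_sum]
      rw [Prod.ext_iff, Prod.ext_iff, e1, e2, e3, e4]
      simp [hu0]
    refine ⟨circ_of ⟨0, mem_range.2 hNpos⟩ hinj ((hzero _).2 (htot p.1 p.2.1)) ?_, ?_⟩
    · intro I hI hs
      exact hmin p.1 p.2.1 I hI ((hzero I).1 hs)
    · rw [card_image_of_injOn (fun i hi j hj he => hinj i hi j hj he), card_range]
  · intro C hC C' hC' w hw hw'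
    obtain ⟨p, hp, rfl⟩ := mem_image.1 hC
    obtain ⟨p', hp', rfl⟩ := mem_image.1 hC'
    obtain ⟨j, hj, rfl⟩ := mem_image.1 hw
    obtain ⟨j', hj', he⟩ := mem_image.1 hw'
    rw [(key p' hp' p hp j' (mem_range.1 hj') j (mem_range.1 hj) he).1]
  · set T : Finset (F × Y) := ((range (S0 * N)).biUnion (Cl g h)) ×ˢ (univ : Finset Y) with hT
    have hTsub : T ⊆ fam.biUnion id := by
      rintro ⟨z, w⟩ hzw
      rw [hT, mem_product, mem_biUnion] at hzw
      obtain ⟨⟨i, hi, hzi⟩, -⟩ := hzw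
      rw [mem_range] at hi
      have hs : i / N < S0 := Nat.div_lt_of_lt_mul (by rwa [mul_comm] at hi)
      have hj : i % N < N := Nat.mod_lt _ hNpos
      have hij : i / N * N + i % N = i := by
        rw [mul_comm]; exact Nat.div_add_mod i N
      obtain ⟨k, hk⟩ := (hybij (i % N)).2 w
      simp only at hk
      have hxk := hx (i / N) k (i % N) hj
      rw [hij] at hxk
      have hp : (i / N, (k, z / x (i / N) k (i % N))) ∈ Ix := by
        rw [hIx, mem_product, mem_product, mem_range]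
        exact ⟨hs, mem_univ _, div_cl hzi hxk⟩
      rw [mem_biUnion]
      refine ⟨_, mem_image_of_mem _ hp, ?_⟩
      refine mem_image.2 ⟨i % N, mem_range.2 hj, ?_⟩
      simp only [hf]
      rw [hk, div_mul_cancel₀ _ (mem_Cl.1 hxk).1]
    have hTcard : T.card = S0 * N * h * 2 ^ d := by
      rw [hT, card_product, card_univ, hYcard, card_biUnion]
      · rw [sum_congr rfl (fun i _ => S.card_cl i), sum_const, card_range, smul_eq_mul]
      · intro i hi i' hi' hne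
        rw [Function.onFun, disjoint_left]
        intro z hz hz'
        exact hne (S.cl_unique (lt_of_lt_of_le (mem_range.1 hi) hS0N)
          (lt_of_lt_of_le (mem_range.1 hi') hS0N) hz hz')
    have hc := card_le_card hTsub
    rw [hTcard] at hc
    have h1 : 2 ^ b - 1 ≤ S0 * N + N := by
      have := Nat.div_add_mod (2 ^ b - 1) N
      have h2 := Nat.mod_lt (2 ^ b - 1) hNpos
      rw [← hS0, mul_comm] at this
      omega
    have h2 : h * (2 ^ b - 1) + 1 ≤ h * (S0 * N + N) + N := by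
      have := Nat.mul_le_mul_left h h1
      omega
    have h3 : 2 ^ (5 * b + d) ≤ (h * (S0 * N + N) + N) * 2 ^ d := by
      rw [pow_add, ← hprod]
      exact Nat.mul_le_mul_right _ h2
    have h4 : (h * (S0 * N + N) + N) * 2 ^ d = S0 * N * h * 2 ^ d + N * (h + 1) * 2 ^ d := by ring
    have h5 : N * (h + 1) * 2 ^ d ≤ 2 * N * 2 ^ (4 * b + d) := by
      calc N * (h + 1) * 2 ^ d ≤ N * (2 * 2 ^ (4 * b)) * 2 ^ d :=
            Nat.mul_le_mul_right _ (Nat.mul_le_mul_left _ hle)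
        _ = 2 * N * 2 ^ (4 * b + d) := by rw [pow_add]; ring
    omega

open Pool.Agent.H38.CD in
theorem exists_family {r : ℕ} (hr : 72 ≤ r) : ∃ fam : Finset (Finset (V r)),
    (∀ C ∈ fam, IsCircuit C ∧ C.card = r + 1) ∧
    (∀ C ∈ fam, ∀ C' ∈ fam, ∀ w, w ∈ C → w ∈ C' → C = C') ∧
    2 ^ r ≤ (fam.biUnion id).card + 2 * (r + 1) * 2 ^ ((4 * r + 6) / 5) := by
  classical
  obtain ⟨b, hb⟩ : ∃ b, b = (r - 2) / 5 := ⟨_, rfl⟩
  obtain ⟨d, hd⟩ : ∃ d, r = 5 * b + d := ⟨r - 5 * b, by omega⟩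
  obtain ⟨W, _, _, _, _, fam, hfin, hc, hdis, hcard⟩ := exists_familyW (b := b) (d := d)
    (N := r + 1) (by omega) (by omega) (by omega) (by omega)
  have hfr : Module.finrank (ZMod 2) W = Module.finrank (ZMod 2) (Fin r → ZMod 2) := by
    rw [hfin, Module.finrank_fin_fun, hd]
  set e : W ≃ₗ[ZMod 2] (Fin r → ZMod 2) := LinearEquiv.ofFinrankEq W (Fin r → ZMod 2) hfr
  refine ⟨fam.image (fun C => C.image e), ?_, ?_, ?_⟩
  · intro C hC
    obtain ⟨t, ht, rfl⟩ := mem_image.1 hC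
    refine ⟨(hc t ht).1.image e.toLinearMap.toAddMonoidHom e.injective, ?_⟩
    rw [card_image_of_injective _ e.injective, (hc t ht).2]
  · intro C hC C' hC' w hw hw'
    obtain ⟨t, ht, rfl⟩ := mem_image.1 hC
    obtain ⟨t', ht', rfl⟩ := mem_image.1 hC'
    obtain ⟨v, hv, rfl⟩ := mem_image.1 hw
    obtain ⟨v', hv', he⟩ := mem_image.1 hw'
    have := e.injective he
    subst this
    rw [hdis t ht t' ht' _ hv hv']
  · have h1 : ((fam.image (fun C => C.image e)).biUnion id).card = (fam.biUnion id).card := by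
      rw [← card_image_of_injective (fam.biUnion id) e.injective]
      congr 1
      ext w
      simp only [mem_biUnion, mem_image, id]
      constructor
      · rintro ⟨_, ⟨t, ht, rfl⟩, hw⟩
        obtain ⟨v, hv, rfl⟩ := mem_image.1 hw
        exact ⟨v, ⟨t, ht, hv⟩, rfl⟩
      · rintro ⟨v, ⟨t, ht, hv⟩, rfl⟩
        exact ⟨_, ⟨t, ht, rfl⟩, mem_image_of_mem _ hv⟩
    rw [h1]
    have h2 : (4 * r + 6) / 5 = 4 * b + d := by omega
    rw [h2]
    have h3 : 2 ^ r = 2 ^ (5 * b + d) := by rw [hd]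
    rw [h3]
    exact hcard

end Pool.Agent.H38.CE
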