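import Pool.Agent.H38.CE.Gen2
import Pool.Agent.H38.CD.Greedy

set_option autoImplicit false
set_option linter.unusedSectionVars false

/-!
# Nearly complete binary matroids in every rank
-/

namespace Pool.Agent.H38.CE

open Finset Pool.Agent.H38.CD

theorem Phi_split {r m T : ℕ} {l : ℝ} (hl : 0 < l) (hlT : l ≤ (L r T : ℝ)) :
    Phi r m ≤ (T : ℝ) / 3 + m / l := by
  have h1 : Phi r m ≤ ∑ u ∈ Icc 1 m, ((if u < T then (1 : ℝ) / 3 else 0) + 1 / l) := by
    refine sum_le_sum fun u _ => ?_
    have hl' : 0 ≤ 1 / l := by positivity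
    split_ifs with hu
    · have h3 : (3 : ℝ) ≤ (L r u : ℝ) := by
        have : 3 ≤ L r u := by
          unfold L
          omega
        exact_mod_cast this
      have h4 : 1 / (L r u : ℝ) ≤ 1 / 3 := one_div_le_one_div_of_le (by norm_num) h3
      linarith
    · have h3 : l ≤ (L r u : ℝ) := by
        have := L_mono r (show T ≤ u by omega)
        have h4 : (L r T : ℝ) ≤ (L r u : ℝ) := by exact_mod_cast this
        linarith
      have h4 : 1 / (L r u : ℝ) ≤ 1 / l := one_div_le_one_div_of_le hl h3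
      linarith
  rw [sum_add_distrib, sum_const, Nat.card_Icc, nsmul_eq_mul, Nat.add_sub_cancel] at h1
  have h2 : ∑ u ∈ Icc 1 m, (if u < T then (1 : ℝ) / 3 else 0) ≤ (T : ℝ) / 3 := by
    rw [← sum_filter, sum_const, nsmul_eq_mul]
    have h3 : ((Icc 1 m).filter fun u => u < T).card ≤ T := by
      calc ((Icc 1 m).filter fun u => u < T).card ≤ (range T).card := by
            apply card_le_card
            intro u hu
            rw [mem_filter] at hu
            exact mem_range.2 hu.2
        _ = T := card_range T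
    have h4 : (((Icc 1 m).filter fun u => u < T).card : ℝ) ≤ T := by exact_mod_cast h3
    linarith
  have h3 : (m : ℝ) * (1 / l) = m / l := by ring
  linarith

theorem zero_notMem {n : ℕ} {C : Finset (V n)} (hC : IsCircuit C) (h2 : 2 ≤ C.card) :
    (0 : V n) ∉ C := by
  intro h0
  refine hC.2.2 {0} ⟨by simpa using h0, fun h => ?_⟩ (singleton_nonempty _) (by simp)
  have := card_le_card h
  rw [card_singleton] at this
  omega

theorem near_complete {r : ℕ} (hr : 72 ≤ r) (M : Finset (V r)) (h0 : (0 : V r) ∉ M)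
    (hs : ∑ v ∈ M, v = 0) :
    ∃ P : Finpartition M, IsDecomp P ∧ (P.parts.card : ℝ) ≤
      (2 ^ r - 1) / (r + 1) + 4 * 2 ^ ((4 * r + 6) / 5) + (2 ^ r - 1 - M.card) := by
  classical
  obtain ⟨fam, hc, hdis, hcard⟩ := exists_family hr
  set kept := fam.filter fun C => C ⊆ M with hkept
  set brk := fam.filter fun C => ¬ C ⊆ M with hbrk
  have hKcard : kept.card + brk.card = fam.card := card_filter_add_card_filter_not _
  have hunion : (fam.biUnion id).card = fam.card * (r + 1) := by
    rw [card_biUnion (fun C hC C' hC' hne => by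
      rw [Function.onFun, disjoint_left]
      intro w hw hw'
      exact hne (hdis C hC C' hC' w hw hw')), sum_congr rfl (fun C hC => show (id C).card = r + 1
        from (hc C hC).2), sum_const, smul_eq_mul]
  have hkunion : (kept.biUnion id).card = kept.card * (r + 1) := by
    rw [card_biUnion (fun C hC C' hC' hne => by
      rw [Function.onFun, disjoint_left]
      intro w hw hw'
      exact hne (hdis C (mem_filter.1 hC).1 C' (mem_filter.1 hC').1 w hw hw')),
      sum_congr rfl (fun C hC => show (id C).card = r + 1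
        from (hc C (mem_filter.1 hC).1).2), sum_const, smul_eq_mul]
  have hVcard : (univ : Finset (V r)).card = 2 ^ r := by
    rw [card_univ, Fintype.card_fun, ZMod.card, Fintype.card_fin]
  have hKN : fam.card * (r + 1) + 1 ≤ 2 ^ r := by
    rw [← hunion, ← hVcard]
    apply card_lt_card
    refine ⟨subset_univ _, fun h => ?_⟩
    have h1 := h (mem_univ 0)
    rw [mem_biUnion] at h1
    obtain ⟨C, hC, hC0⟩ := h1
    exact zero_notMem (hc C hC).1 (by rw [(hc C hC).2]; omega) hC0
  have hkM : kept.biUnion id ⊆ M := by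
    intro w hw
    rw [mem_biUnion] at hw
    obtain ⟨C, hC, hwC⟩ := hw
    exact (mem_filter.1 hC).2 hwC
  -- broken circuits
  have hbrkle : brk.card + M.card + 1 ≤ 2 ^ r := by
    have hex : ∀ C ∈ brk, ∃ w, w ∈ C ∧ w ∉ M := by
      intro C hC
      have h1 := (mem_filter.1 hC).2
      rw [subset_iff] at h1
      push Not at h1
      exact h1
    choose! ψ hψ using hex
    have hinj : Set.InjOn ψ (brk : Set (Finset (V r))) := by
      intro C hC C' hC' he
      have h1 := (hψ C hC).1
      have h2 := (hψ C' hC').1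
      rw [← he] at h2
      exact hdis C (mem_filter.1 hC).1 C' (mem_filter.1 hC').1 _ h1 h2
    have h1 : (brk.image ψ).card = brk.card := card_image_of_injOn hinj
    have h2 : Disjoint (brk.image ψ) M := by
      rw [disjoint_left]
      intro w hw hwM
      obtain ⟨C, hC, rfl⟩ := mem_image.1 hw
      exact (hψ C hC).2 hwM
    rw [← h1, ← card_union_of_disjoint h2, ← hVcard]
    apply card_lt_card
    refine ⟨subset_univ _, fun h => ?_⟩
    have h3 := h (mem_univ 0)
    rw [mem_union] at h3
    rcases h3 with h3 | h3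
    · obtain ⟨C, hC, hC0⟩ := mem_image.1 h3
      have h4 := (hψ C hC).1
      rw [hC0] at h4
      exact zero_notMem (hc C (mem_filter.1 hC).1).1 (by rw [(hc C (mem_filter.1 hC).1).2]; omega) h4
    · exact h0 h3
  -- the rest
  set M' := M \ kept.biUnion id with hM'
  have hM'card : M'.card + kept.card * (r + 1) = M.card := by
    rw [hM', ← hkunion]
    exact card_sdiff_add_card_eq_card hkM
  have hM's : ∑ v ∈ M', v = 0 := by
    have h1 := sum_sdiff (f := fun v : V r => v) hkM
    have h2 : ∑ v ∈ kept.biUnion id, v = 0 := by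
      rw [sum_biUnion (fun C hC C' hC' hne => by
        rw [Function.onFun, disjoint_left]
        intro w hw hw'
        exact hne (hdis C (mem_filter.1 hC).1 C' (mem_filter.1 hC').1 w hw hw'))]
      exact Finset.sum_eq_zero fun C hC => (hc C (mem_filter.1 hC).1).1.2.1
    rw [h2, add_zero, hs] at h1
    exact h1
  obtain ⟨P', hP', hPc⟩ := greedy (⊤ : Submodule (ZMod 2) (V r)) M'.card M' rfl
    (fun _ _ => Submodule.mem_top) (fun h => h0 (mem_sdiff.1 h).1) hM's
  rw [finrank_top, Module.finrank_fin_fun] at hPc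
  -- the partition
  refine ⟨Finpartition.ofExistsUnique (kept ∪ P'.parts) ?_ ?_ ?_, ?_, ?_⟩
  · intro p hp w hw
    rcases mem_union.1 hp with h1 | h1
    · exact (mem_filter.1 h1).2 hw
    · exact (mem_sdiff.1 (P'.le h1 hw)).1
  · intro w hw
    by_cases hwk : w ∈ kept.biUnion id
    · rw [mem_biUnion] at hwk
      obtain ⟨C, hC, hwC⟩ := hwk
      refine ⟨C, ⟨mem_union_left _ hC, hwC⟩, ?_⟩
      rintro D ⟨hD, hwD⟩
      rcases mem_union.1 hD with h1 | h1
      · exact hdis D (mem_filter.1 h1).1 C (mem_filter.1 hC).1 w hwD hwC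
      · exact absurd (mem_biUnion.2 ⟨C, hC, hwC⟩) (mem_sdiff.1 (P'.le h1 hwD)).2
    · obtain ⟨C, ⟨hC, hwC⟩, hCu⟩ := P'.existsUnique_mem (mem_sdiff.2 ⟨hw, hwk⟩)
      refine ⟨C, ⟨mem_union_right _ hC, hwC⟩, ?_⟩
      rintro D ⟨hD, hwD⟩
      rcases mem_union.1 hD with h1 | h1
      · exact absurd (mem_biUnion.2 ⟨D, h1, hwD⟩) hwk
      · exact hCu D ⟨h1, hwD⟩
  · intro hempty
    rcases mem_union.1 hempty with h1 | h1
    · exact (hc ∅ (mem_filter.1 h1).1).1.1.ne_empty rfl
    · exact P'.bot_notMem h1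
  · intro C hC
    rcases mem_union.1 (show C ∈ kept ∪ P'.parts from hC) with h1 | h1
    · exact (hc C (mem_filter.1 h1).1).1
    · exact hP' C h1
  · change ((kept ∪ P'.parts).card : ℝ) ≤ _
    have h1 : ((kept ∪ P'.parts).card : ℝ) ≤ kept.card + P'.parts.card := by
      exact_mod_cast card_union_le _ _
    set E := (4 * r + 6) / 5 with hE
    have hEl : (3 * r - 6) / 5 + 0 ≤ 2 * E - r - 2 := by omega
    have hEl2 : 5 * (2 * E - r - 2) ≥ 3 * r - 6 := by omega
    have hlT : ((3 * (r : ℝ) - 6) / 5) ≤ (L r (2 ^ E) : ℝ) := by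
      have h2 : 2 * E - r - 2 ≤ L r (2 ^ E) := by
        unfold L
        rw [Nat.log_pow (by norm_num)]
        omega
      have h3 : 3 * r ≤ 5 * L r (2 ^ E) + 6 := by omega
      have h4 : 3 * (r : ℝ) ≤ 5 * (L r (2 ^ E) : ℝ) + 6 := by exact_mod_cast h3
      linarith
    have hr' : (72 : ℝ) ≤ r := by exact_mod_cast hr
    have hl : 0 < (3 * (r : ℝ) - 6) / 5 := by linarith
    have h2 := Phi_split (m := M'.card) hl hlT
    rw [Nat.cast_pow, Nat.cast_ofNat] at h2
    -- numbers
    have a1 : (M'.card : ℝ) + kept.card * (r + 1) = M.card := by exact_mod_cast hM'card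
    have a2 : (kept.card : ℝ) + brk.card = fam.card := by exact_mod_cast hKcard
    have a3 : (2 : ℝ) ^ r ≤ fam.card * (r + 1) + 2 * (r + 1) * 2 ^ E := by
      rw [hunion] at hcard
      exact_mod_cast hcard
    have a4 : (fam.card : ℝ) * (r + 1) + 1 ≤ 2 ^ r := by exact_mod_cast hKN
    have a5 : (brk.card : ℝ) + M.card + 1 ≤ 2 ^ r := by exact_mod_cast hbrkle
    have a6 : (0 : ℝ) < 2 ^ E := by positivity
    have a7 : (0 : ℝ) ≤ brk.card := Nat.cast_nonneg _
    have hN0 : (0 : ℝ) < (r : ℝ) + 1 := by linarith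
    -- size of the rest
    have b1 : (M'.card : ℝ) ≤ (r + 1) * (2 * 2 ^ E + brk.card) := by
      have : (kept.card : ℝ) * (r + 1) = fam.card * (r + 1) - brk.card * (r + 1) := by
        rw [← a2]; ring
      nlinarith
    have b2 : (M'.card : ℝ) / ((3 * (r : ℝ) - 6) / 5) ≤ 7 / 4 * (2 * 2 ^ E + brk.card) := by
      rw [div_le_iff₀ hl]
      have b3 : (r : ℝ) + 1 ≤ 7 / 4 * ((3 * (r : ℝ) - 6) / 5) := by linarith
      have b4 : (0 : ℝ) ≤ 2 * 2 ^ E + brk.card := by positivity
      have := mul_le_mul_of_nonneg_right b3 b4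
      nlinarith
    have b5 : (fam.card : ℝ) ≤ (2 ^ r - 1) / (r + 1) := by
      rw [le_div_iff₀ hN0]
      linarith
    linarith

end Pool.Agent.H38.CE
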