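import Pool.Agent.H38.CE.Gen3

set_option autoImplicit false
set_option linter.unusedSectionVars false

/-!
# Sums of three elements of a pseudorandom set which avoid a small set and a subspace
-/

namespace Pool.Agent.H38.CE

open Finset

section Field

variable {E : Type} [Field E] [Fintype E] [DecidableEq E] [Algebra (ZMod 2) E]
variable {φ : E →ₗ[ZMod 2] ZMod 2}

theorem prod_bound2 (hφ : φ ≠ 0) (B C : Finset E) :
    ∑ c, |hat φ (idf B) c| * |hat φ (idf C) c|
      ≤ (Fintype.card E : ℝ) * ((B.card + C.card) / 2) := by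
  have h1 : ∀ c, |hat φ (idf B) c| * |hat φ (idf C) c|
      ≤ (hat φ (idf B) c ^ 2 + hat φ (idf C) c ^ 2) / 2 := by
    intro c
    have := sq_nonneg (|hat φ (idf B) c| - |hat φ (idf C) c|)
    have h2 := sq_abs (hat φ (idf B) c)
    have h3 := sq_abs (hat φ (idf C) c)
    nlinarith
  refine le_trans (sum_le_sum fun c _ => h1 c) ?_
  rw [← sum_div, sum_add_distrib, parseval hφ, parseval hφ, idf_sq, idf_sq]
  linarith

/-- the triple lemma -/
theorem triple_field (hφ : φ ≠ 0) {R Bad : Finset E} {B : ℝ} (hB : 0 ≤ B)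
    (hb : ∀ c, c ≠ 0 → |hat φ (idf R) c| ≤ B) (hBR : Bad ⊆ R) (w : E)
    (hnum : 3 * (Bad.card : ℝ) * R.card + 4 * B * Fintype.card E < (R.card : ℝ) ^ 2) :
    ∃ x : Fin 3 → E, (∀ i, x i ∈ R ∧ x i ∉ Bad) ∧ x 0 + x 1 + x 2 = w := by
  by_contra hno
  push Not at hno
  set q : ℝ := (Fintype.card E : ℝ) with hqdef
  set h : ℝ := (R.card : ℝ) with hh
  have hh0 : 0 ≤ h := Nat.cast_nonneg _
  have hq0 : 0 ≤ q := Nat.cast_nonneg _
  have hBc : (Bad.card : ℝ) ≤ h := by
    rw [hh]
    exact_mod_cast card_le_card hBR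
  set f : E → ℝ := idf R with hf
  set b : E → ℝ := idf Bad with hbdef
  have fn : ∀ x, 0 ≤ f x := fun x => by
    simp only [hf, idf]; split_ifs <;> norm_num
  have bn : ∀ x, 0 ≤ b x := fun x => by
    simp only [hbdef, idf]; split_ifs <;> norm_num
  have hunion : tri f f f w ≤ tri b f f w + tri f b f w + tri f f b w := by
    unfold tri
    rw [← sum_add_distrib, ← sum_add_distrib]
    refine sum_le_sum fun x _ => ?_
    rw [← sum_add_distrib, ← sum_add_distrib]
    refine sum_le_sum fun y _ => ?_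
    rw [← sum_add_distrib, ← sum_add_distrib]
    refine sum_le_sum fun z _ => ?_
    split_ifs with hs
    · by_cases hx : x ∈ R <;> by_cases hy : y ∈ R <;> by_cases hz : z ∈ R
      · have e0 : f x = 1 := by simp [hf, idf, hx]
        have e1 : f y = 1 := by simp [hf, idf, hy]
        have e2 : f z = 1 := by simp [hf, idf, hz]
        rw [e0, e1, e2]
        have n0 := bn x
        have n1 := bn y
        have n2 := bn z
        by_cases bx : x ∈ Bad
        · have : b x = 1 := by simp [hbdef, idf, bx]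
          rw [this]; nlinarith
        by_cases bby : y ∈ Bad
        · have : b y = 1 := by simp [hbdef, idf, bby]
          rw [this]; nlinarith
        by_cases bz : z ∈ Bad
        · have : b z = 1 := by simp [hbdef, idf, bz]
          rw [this]; nlinarith
        exact absurd hs (hno ![x, y, z] (by
          intro i
          fin_cases i
          · exact ⟨hx, bx⟩
          · exact ⟨hy, bby⟩
          · exact ⟨hz, bz⟩))
      all_goals
        have : f x * f y * f z = 0 := by simp [hf, idf, *]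
        rw [this]
        have := mul_nonneg (mul_nonneg (bn x) (fn y)) (fn z)
        have := mul_nonneg (mul_nonneg (fn x) (bn y)) (fn z)
        have := mul_nonneg (mul_nonneg (fn x) (fn y)) (bn z)
        linarith
    · norm_num
  have z0 : hat φ f 0 = h := by simp only [hf]; rw [hat_idf_zero]
  have z1 : hat φ b 0 = Bad.card := by simp only [hbdef]; rw [hat_idf_zero]
  have hRR : ∑ c, |hat φ f c| * |hat φ f c| ≤ q * h := by
    have := prod_bound2 hφ R R
    rw [← hh] at this
    have e : q * ((h + h) / 2) = q * h := by ring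
    rw [e] at this
    exact this
  have hBR' : ∑ c, |hat φ b c| * |hat φ f c| ≤ q * h := by
    have h1 := prod_bound2 hφ Bad R
    rw [← hh] at h1
    have h2 : q * (((Bad.card : ℝ) + h) / 2) ≤ q * h := mul_le_mul_of_nonneg_left (by linarith) hq0
    exact le_trans h1 h2
  have hmain : h ^ 3 - B * (q * h) ≤ q * tri f f f w := by
    have t := tri_close hφ f f f w
    rw [z0] at t
    have t2 : ∑ c ∈ univ.erase 0, |hat φ f c| * |hat φ f c| * |hat φ f c| ≤ B * (q * h) := by
      calc ∑ c ∈ univ.erase 0, |hat φ f c| * |hat φ f c| * |hat φ f c|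
          ≤ ∑ c ∈ univ.erase 0, B * (|hat φ f c| * |hat φ f c|) := by
            refine sum_le_sum fun c hc => ?_
            rw [mem_erase] at hc
            rw [mul_assoc]
            exact mul_le_mul_of_nonneg_right (hb c hc.1) (by positivity)
        _ ≤ ∑ c, B * (|hat φ f c| * |hat φ f c|) :=
            sum_le_sum_of_subset_of_nonneg (erase_subset _ _) (fun _ _ _ => by positivity)
        _ = B * ∑ c, (|hat φ f c| * |hat φ f c|) := by rw [mul_sum]
        _ ≤ B * (q * h) := mul_le_mul_of_nonneg_left hRR hB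
    have t3 := (abs_le.1 (le_trans t t2)).1
    have t4 : h * h * h = h ^ 3 := by ring
    linarith
  have hbadsum : ∑ c ∈ univ.erase 0, B * (|hat φ b c| * |hat φ f c|) ≤ B * (q * h) := by
    calc ∑ c ∈ univ.erase 0, B * (|hat φ b c| * |hat φ f c|)
        ≤ ∑ c, B * (|hat φ b c| * |hat φ f c|) :=
          sum_le_sum_of_subset_of_nonneg (erase_subset _ _) (fun _ _ _ => by positivity)
      _ = B * ∑ c, (|hat φ b c| * |hat φ f c|) := by rw [mul_sum]
      _ ≤ B * (q * h) := mul_le_mul_of_nonneg_left hBR' hB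
  have hbad : ∀ f1 f2 f3 : E → ℝ, (∀ c, hat φ f1 c * hat φ f2 c * hat φ f3 c
      = hat φ b c * hat φ f c * hat φ f c) →
      q * tri f1 f2 f3 w ≤ Bad.card * h ^ 2 + B * (q * h) := by
    intro f1 f2 f3 hf123
    have t := tri_close hφ f1 f2 f3 w
    rw [hf123 0, z0, z1] at t
    have t2 : ∑ c ∈ univ.erase 0, |hat φ f1 c| * |hat φ f2 c| * |hat φ f3 c| ≤ B * (q * h) := by
      refine le_trans (sum_le_sum fun c hc => ?_) hbadsum
      rw [mem_erase] at hc
      rw [← abs_mul, ← abs_mul, hf123 c, abs_mul, abs_mul]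
      have := mul_le_mul_of_nonneg_left (hb c hc.1)
        (by positivity : 0 ≤ |hat φ b c| * |hat φ f c|)
      linarith
    have t3 := (abs_le.1 (le_trans t t2)).2
    have t4 : (Bad.card : ℝ) * h * h = Bad.card * h ^ 2 := by ring
    linarith
  have b1 := hbad b f f (fun c => rfl)
  have b2 := hbad f b f (fun c => by ring)
  have b3 := hbad f f b (fun c => by ring)
  have hfin : q * tri f f f w ≤ q * tri b f f w + q * tri f b f w + q * tri f f b w := by
    have := mul_le_mul_of_nonneg_left hunion hq0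
    linarith
  have hpos : 0 < h := by
    rcases hh0.lt_or_eq with h' | h'
    · exact h'
    · rw [← h'] at hnum
      have : 0 ≤ 4 * B * q := by positivity
      nlinarith
  have hlast : h * h ^ 2 ≤ h * (3 * (Bad.card : ℝ) * h + 4 * B * q) := by nlinarith
  have := le_of_mul_le_mul_left hlast hpos
  linarith

/-- the part of a pseudorandom set in a subspace of codimension two -/
theorem cut_card (_hφ : φ ≠ 0) {R : Finset E} {B : ℝ}
    (hb : ∀ c, c ≠ 0 → |hat φ (idf R) c| ≤ B) {c₁ c₂ : E} (h1 : c₁ ≠ 0) (h2 : c₂ ≠ 0)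
    (h12 : c₁ + c₂ ≠ 0) :
    ((R.filter fun x => φ (c₁ * x) = 0 ∧ φ (c₂ * x) = 0).card : ℝ) ≤ (R.card + 3 * B) / 4 := by
  have e1 : ((R.filter fun x => φ (c₁ * x) = 0 ∧ φ (c₂ * x) = 0).card : ℝ)
      = hat φ (cut φ R c₁ c₂ 0 0) 0 := by
    unfold hat cut
    simp_rw [ch_zero, mul_one]
    rw [← sum_filter, sum_const, nsmul_eq_mul, mul_one]
    congr 2
    ext x
    simp
  rw [e1, hat_cut, zero_add, zero_add, zero_add, hat_idf_zero, sgn_zero, one_mul, one_mul, one_mul]
  have a1 := (abs_le.1 (hb c₁ h1)).2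
  have a2 := (abs_le.1 (hb c₂ h2)).2
  have a3 := (abs_le.1 (hb _ h12)).2
  linarith

end Field

/-- the triple property -/
def TP {W : Type} [AddCommGroup W] [Module (ZMod 2) W] (R : Finset W) (z r : ℕ) : Prop :=
  ∀ Z : Finset W, Z.card ≤ z → ∀ J : Finset W, J.card + 2 ≤ r →
    ∃ x : Fin 3 → W, (∀ i, x i ∈ R ∧ x i ∉ Z ∧ x i ∉ Submodule.span (ZMod 2) (J : Set W)) ∧
      x 0 + x 1 + x 2 = ∑ v ∈ J, v

theorem TP.image {W W' : Type} [AddCommGroup W] [Module (ZMod 2) W] [AddCommGroup W']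
    [Module (ZMod 2) W'] [DecidableEq W] [DecidableEq W'] {R : Finset W} {z r : ℕ} (h : TP R z r)
    (e : W ≃ₗ[ZMod 2] W') : TP (R.image e) z r := by
  intro Z hZ J hJ
  obtain ⟨x, hx, hs⟩ := h (Z.image e.symm) ((card_image_le).trans hZ) (J.image e.symm)
    (by
      have := card_image_le (s := J) (f := e.symm)
      omega)
  refine ⟨fun i => e (x i), ?_, ?_⟩
  · intro i
    refine ⟨mem_image_of_mem _ (hx i).1, ?_, ?_⟩
    · intro hz
      apply (hx i).2.1
      rw [mem_image]
      exact ⟨_, hz, e.symm_apply_apply _⟩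
    · intro hsp
      apply (hx i).2.2
      rw [coe_image]
      have h1 : Submodule.span (ZMod 2) ((e.symm : W' → W) '' (J : Set W'))
          = (Submodule.span (ZMod 2) (J : Set W')).map (e.symm : W' →ₗ[ZMod 2] W) := by
        rw [Submodule.map_span]
        rfl
      rw [h1, Submodule.mem_map]
      exact ⟨_, hsp, e.symm_apply_apply _⟩
  · rw [← map_add, ← map_add, hs, map_sum, sum_image (fun a _ b _ hab => e.symm.injective hab)]
    exact sum_congr rfl fun v _ => e.apply_symm_apply v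

section Field2

variable {E : Type} [Field E] [Fintype E] [DecidableEq E] [Algebra (ZMod 2) E]
variable {φ : E →ₗ[ZMod 2] ZMod 2}

theorem exists_two (J : Finset E) {r : ℕ} (hr : Module.finrank (ZMod 2) E = r)
    (hJ : J.card + 2 ≤ r) : ∃ c₁ c₂ : E, c₁ ≠ 0 ∧ c₂ ≠ 0 ∧ c₁ + c₂ ≠ 0 ∧
      (∀ v ∈ J, φ (c₁ * v) = 0) ∧ ∀ v ∈ J, φ (c₂ * v) = 0 := by
  classical
  set T : E →ₗ[ZMod 2] (J → ZMod 2) := LinearMap.pi fun v : J =>
    φ ∘ₗ LinearMap.mulRight (ZMod 2) (v : E) with hT
  have hTa : ∀ c (v : J), T c v = φ (c * v) := fun c v => rfl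
  have h1 := T.finrank_range_add_finrank_ker
  have h2 : Module.finrank (ZMod 2) (LinearMap.range T) ≤ J.card := by
    have := Submodule.finrank_le (LinearMap.range T)
    rwa [Module.finrank_fintype_fun_eq_card, Fintype.card_coe] at this
  have h3 : 2 ≤ Module.finrank (ZMod 2) (LinearMap.ker T) := by omega
  set K : Finset E := univ.filter fun c => c ∈ LinearMap.ker T with hK
  have hKc : 4 ≤ K.card := by
    have h4 : K.card = Fintype.card (LinearMap.ker T) := by
      rw [hK, Fintype.card_subtype]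
    rw [h4, Module.card_eq_pow_finrank (K := ZMod 2) (V := LinearMap.ker T), ZMod.card]
    calc 4 = 2 ^ 2 := by norm_num
      _ ≤ 2 ^ Module.finrank (ZMod 2) (LinearMap.ker T) := Nat.pow_le_pow_right (by norm_num) h3
  obtain ⟨c₁, hc1, hc1'⟩ := exists_mem_notMem_of_card_lt_card
    (s := ({0} : Finset E)) (t := K) (by rw [card_singleton]; omega)
  obtain ⟨c₂, hc2, hc2'⟩ := exists_mem_notMem_of_card_lt_card
    (s := ({0, c₁} : Finset E)) (t := K) (lt_of_le_of_lt card_le_two (by omega))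
  rw [mem_singleton] at hc1'
  rw [mem_insert, mem_singleton, not_or] at hc2'
  have k1 : ∀ c ∈ K, ∀ v ∈ J, φ (c * v) = 0 := by
    intro c hc v hv
    rw [hK, mem_filter, LinearMap.mem_ker] at hc
    have := congrFun hc.2 ⟨v, hv⟩
    rw [hTa] at this
    exact this
  refine ⟨c₁, c₂, hc1', hc2'.1, ?_, k1 c₁ hc1, k1 c₂ hc2⟩
  intro h5
  apply hc2'.2
  have : c₁ + c₂ + c₂ = c₂ := by rw [h5, zero_add]
  rw [add_assoc, add_self_F, add_zero] at this
  exact this.symm

theorem TP_field (hφ : φ ≠ 0) {R : Finset E} {B : ℝ} (hB : 0 ≤ B) {r z : ℕ}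
    (hr : Module.finrank (ZMod 2) E = r)
    (hb : ∀ c, c ≠ 0 → |hat φ (idf R) c| ≤ B)
    (hnum : 3 * ((z : ℝ) + (R.card + 3 * B) / 4) * R.card + 4 * B * Fintype.card E
      < (R.card : ℝ) ^ 2) : TP R z r := by
  classical
  intro Z hZ J hJ
  obtain ⟨c₁, c₂, h1, h2, h12, hv1, hv2⟩ := exists_two (φ := φ) J hr hJ
  set Bad : Finset E := R.filter fun x => x ∈ Z ∨ (φ (c₁ * x) = 0 ∧ φ (c₂ * x) = 0) with hBad
  have hcard : (Bad.card : ℝ) ≤ z + (R.card + 3 * B) / 4 := by
    have h3 : Bad ⊆ Z ∪ (R.filter fun x => φ (c₁ * x) = 0 ∧ φ (c₂ * x) = 0) := by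
      intro x hx
      rw [hBad, mem_filter] at hx
      rw [mem_union, mem_filter]
      rcases hx.2 with h4 | h4
      · exact Or.inl h4
      · exact Or.inr ⟨hx.1, h4⟩
    have h4 : (Bad.card : ℝ) ≤ Z.card
        + (R.filter fun x => φ (c₁ * x) = 0 ∧ φ (c₂ * x) = 0).card := by
      exact_mod_cast (card_le_card h3).trans (card_union_le _ _)
    have h5 := cut_card hφ hb h1 h2 h12
    have h6 : (Z.card : ℝ) ≤ z := by exact_mod_cast hZ
    linarith
  obtain ⟨x, hx, hs⟩ := triple_field hφ hB hb (filter_subset _ _ : Bad ⊆ R) (∑ v ∈ J, v) (by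
    have h7 : (0 : ℝ) ≤ R.card := Nat.cast_nonneg _
    have h8 : 3 * (Bad.card : ℝ) * R.card ≤ 3 * ((z : ℝ) + (R.card + 3 * B) / 4) * R.card :=
      mul_le_mul_of_nonneg_right (by linarith) h7
    linarith)
  refine ⟨x, ?_, hs⟩
  intro i
  obtain ⟨hxR, hxB⟩ := hx i
  refine ⟨hxR, ?_, ?_⟩
  · intro hz
    exact hxB (mem_filter.2 ⟨hxR, Or.inl hz⟩)
  · intro hsp
    apply hxB
    refine mem_filter.2 ⟨hxR, Or.inr ?_⟩
    have key : ∀ c : E, (∀ v ∈ J, φ (c * v) = 0) → φ (c * x i) = 0 := by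
      intro c hc
      have h9 : Submodule.span (ZMod 2) (J : Set E)
          ≤ LinearMap.ker (φ ∘ₗ LinearMap.mulLeft (ZMod 2) c) := by
        rw [Submodule.span_le]
        intro v hv
        exact hc v hv
      exact h9 hsp
    exact ⟨key c₁ hv1, key c₂ hv2⟩

end Field2

end Pool.Agent.H38.CE
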