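import Pool.Agent.H38.CE.Fam2
import Pool.Agent.H38.CE.Fix

set_option autoImplicit false
set_option linter.unusedSectionVars false

/-!
# The uniform bound: assembly
-/

namespace Pool.Agent.H38.CE

open Finset Pool.Agent.H38.CD

theorem assemble {r : ℕ} (M : Finset (V r)) (h0 : (0 : V r) ∉ M) (hs : ∑ v ∈ M, v = 0)
    (DD : Finset (Finset (V r))) (hcirc : ∀ D ∈ DD, IsCircuit D)
    (hdis : ∀ D ∈ DD, ∀ D' ∈ DD, ∀ w, w ∈ D → w ∈ D' → D = D') (hsub : ∀ D ∈ DD, D ⊆ M) :
    ∃ P : Finpartition M, IsDecomp P ∧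
      (P.parts.card : ℝ) ≤ DD.card + Phi r (M \ DD.biUnion id).card := by
  classical
  have hkM : DD.biUnion id ⊆ M := by
    intro w hw
    rw [mem_biUnion] at hw
    obtain ⟨C, hC, hwC⟩ := hw
    exact hsub C hC hwC
  set M' := M \ DD.biUnion id with hM'
  have hM's : ∑ v ∈ M', v = 0 := by
    have h1 := sum_sdiff (f := fun v : V r => v) hkM
    have h2 : ∑ v ∈ DD.biUnion id, v = 0 := by
      rw [sum_biUnion (fun C hC C' hC' hne => by
        rw [Function.onFun, disjoint_left]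
        intro w hw hw'
        exact hne (hdis C hC C' hC' w hw hw'))]
      exact Finset.sum_eq_zero fun C hC => (hcirc C hC).2.1
    rw [h2, add_zero, hs] at h1
    exact h1
  obtain ⟨P', hP', hPc⟩ := greedy (⊤ : Submodule (ZMod 2) (V r)) M'.card M' rfl
    (fun _ _ => Submodule.mem_top) (fun h => h0 (mem_sdiff.1 h).1) hM's
  rw [finrank_top, Module.finrank_fin_fun] at hPc
  refine ⟨Finpartition.ofExistsUnique (DD ∪ P'.parts) ?_ ?_ ?_, ?_, ?_⟩
  · intro p hp w hw
    rcases mem_union.1 hp with h1 | h1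
    · exact hsub p h1 hw
    · exact (mem_sdiff.1 (P'.le h1 hw)).1
  · intro w hw
    by_cases hwk : w ∈ DD.biUnion id
    · rw [mem_biUnion] at hwk
      obtain ⟨C, hC, hwC⟩ := hwk
      refine ⟨C, ⟨mem_union_left _ hC, hwC⟩, ?_⟩
      rintro D ⟨hD, hwD⟩
      rcases mem_union.1 hD with h1 | h1
      · exact hdis D h1 C hC w hwD hwC
      · exact absurd (mem_biUnion.2 ⟨C, hC, hwC⟩) (mem_sdiff.1 (P'.le h1 hwD)).2
    · obtain ⟨C, ⟨hC, hwC⟩, hCu⟩ := P'.existsUnique_mem (mem_sdiff.2 ⟨hw, hwk⟩)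
      refine ⟨C, ⟨mem_union_right _ hC, hwC⟩, ?_⟩
      rintro D ⟨hD, hwD⟩
      rcases mem_union.1 hD with h1 | h1
      · exact absurd (mem_biUnion.2 ⟨D, h1, hwD⟩) hwk
      · exact hCu D ⟨h1, hwD⟩
  · intro hempty
    rcases mem_union.1 hempty with h1 | h1
    · exact (hcirc ∅ h1).1.ne_empty rfl
    · exact P'.bot_notMem h1
  · intro C hC
    rcases mem_union.1 (show C ∈ DD ∪ P'.parts from hC) with h1 | h1
    · exact hcirc C h1
    · exact hP' C h1
  · change ((DD ∪ P'.parts).card : ℝ) ≤ _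
    have h1 : ((DD ∪ P'.parts).card : ℝ) ≤ DD.card + P'.parts.card := by
      exact_mod_cast card_union_le _ _
    linarith

/-- the combinatorial part -/
theorem uniform_core {r T0 b S0 γ : ℕ} (hr : 72 ≤ r) (M : Finset (V r)) (h0 : (0 : V r) ∉ M)
    (hs : ∑ v ∈ M, v = 0) (fam : ℕ → Finset (Finset (V r)))
    (hc : ∀ s < S0, ∀ C ∈ fam s, IsCircuit C ∧ C.card = r + 1)
    (hdis : ∀ s < S0, ∀ s' < S0, ∀ C ∈ fam s, ∀ C' ∈ fam s', ∀ w, w ∈ C → w ∈ C' →
      s = s' ∧ C = C')
    (hγ : ∀ s < S0, ((fam s).biUnion id).card = γ)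
    (hTP : ∀ T ⊆ range S0, ∀ z : ℕ,
      24 * z ≤ (T.biUnion fun s => (fam s).biUnion id).card →
      40 * 2 ^ r ≤ (T.biUnion fun s => (fam s).biUnion id).card * 2 ^ b →
      TP (T.biUnion fun s => (fam s).biUnion id) z r)
    (hT0 : 1 ≤ T0)
    (hnum1 : ∀ x k : ℕ, T0 * x ≤ 2 ^ r - M.card → k * (r + 1) ≤ (S0 - S0 / T0) * γ →
      24 * (x + 3 * k) ≤ S0 / T0 * γ)
    (hnum2 : 40 * 2 ^ r ≤ S0 / T0 * γ * 2 ^ b) :
    ∃ P : Finpartition M, IsDecomp P ∧ ∃ k p : ℕ, k * (r + 1) = (S0 - S0 / T0) * γ ∧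
      p + S0 * γ ≤ 2 ^ r + S0 / T0 * γ ∧ (P.parts.card : ℝ) ≤ k + Phi r p := by
  classical
  set n := S0 / T0 with hn
  have hnT : n * T0 ≤ S0 := Nat.div_mul_le_self _ _
  set G : ℕ → Finset (V r) := fun s => (fam s).biUnion id with hG
  have hGdis : ∀ s < S0, ∀ s' < S0, s ≠ s' → Disjoint (G s) (G s') := by
    intro s hs s' hs' hne
    rw [disjoint_left]
    intro w hw hw'
    rw [hG] at hw hw'
    obtain ⟨C, hC, hwC⟩ := mem_biUnion.1 hw
    obtain ⟨C', hC', hwC'⟩ := mem_biUnion.1 hw'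
    exact hne (hdis s hs s' hs' C hC C' hC' w hwC hwC').1
  have hUc : ∀ T ⊆ range S0, (T.biUnion G).card = T.card * γ := by
    intro T hT
    rw [card_biUnion (fun s hs s' hs' hne => hGdis s (mem_range.1 (hT hs)) s'
      (mem_range.1 (hT hs')) hne), sum_congr rfl (fun s hs => hγ s (mem_range.1 (hT hs))),
      sum_const, smul_eq_mul]
  have hVcard : (univ : Finset (V r)).card = 2 ^ r := by
    rw [card_univ, Fintype.card_fun, ZMod.card, Fintype.card_fin]
  -- blocks
  set TT : ℕ → Finset ℕ := fun t => Ico (t * n) ((t + 1) * n) with hTT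
  have hTTs : ∀ t < T0, TT t ⊆ range S0 := by
    intro t ht s hs
    rw [hTT, mem_Ico] at hs
    rw [mem_range]
    have : (t + 1) * n ≤ T0 * n := Nat.mul_le_mul_right _ ht
    have h2 : T0 * n ≤ S0 := by rw [mul_comm]; exact hnT
    omega
  have hTTc : ∀ t, (TT t).card = n := by
    intro t
    rw [hTT, Nat.card_Ico, add_mul, one_mul, Nat.add_sub_cancel_left]
  have hTTd : ∀ t t', t ≠ t' → Disjoint (TT t) (TT t') := by
    intro t t' hne
    rw [disjoint_left]
    intro s hs hs'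
    rw [hTT, mem_Ico] at hs hs'
    rcases Nat.lt_or_gt_of_ne hne with h1 | h1
    · have : (t + 1) * n ≤ t' * n := Nat.mul_le_mul_right _ h1
      omega
    · have : (t' + 1) * n ≤ t * n := Nat.mul_le_mul_right _ h1
      omega
  -- a good block
  obtain ⟨t, ht, htb⟩ : ∃ t < T0, T0 * ((TT t).biUnion G \ M).card ≤ 2 ^ r - M.card := by
    by_contra hno
    push Not at hno
    have h1 : ∑ t ∈ range T0, ((TT t).biUnion G \ M).card ≤ 2 ^ r - M.card := by
      rw [← card_biUnion]
      · have h2 : (range T0).biUnion (fun t => (TT t).biUnion G \ M) ⊆ univ \ M := by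
          intro w hw
          obtain ⟨t, -, hw⟩ := mem_biUnion.1 hw
          exact mem_sdiff.2 ⟨mem_univ _, (mem_sdiff.1 hw).2⟩
        have h3 := card_le_card h2
        rwa [card_sdiff_of_subset (subset_univ _), hVcard] at h3
      · intro t ht t' ht' hne
        rw [Function.onFun, disjoint_left]
        intro w hw hw'
        obtain ⟨s, hs, hws⟩ := mem_biUnion.1 (mem_sdiff.1 hw).1
        obtain ⟨s', hs', hws'⟩ := mem_biUnion.1 (mem_sdiff.1 hw').1
        by_cases hss : s = s'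
        · subst hss
          exact disjoint_left.1 (hTTd t t' hne) hs hs'
        · exact disjoint_left.1 (hGdis s (mem_range.1 (hTTs t (mem_range.1 ht) hs)) s'
            (mem_range.1 (hTTs t' (mem_range.1 ht') hs')) hss) hws hws'
    have h2 : ∑ t ∈ range T0, (2 ^ r - M.card) < ∑ t ∈ range T0, T0 * ((TT t).biUnion G \ M).card :=
      sum_lt_sum_of_nonempty ⟨0, mem_range.2 (by omega)⟩ fun t ht => hno t (mem_range.1 ht)
    rw [sum_const, card_range, smul_eq_mul, ← mul_sum] at h2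
    have h3 := lt_of_mul_lt_mul_left h2 (by omega)
    omega
  set T := TT t with hT
  have hTs := hTTs t ht
  set R := T.biUnion G with hR
  have hRc : R.card = n * γ := by rw [hUc T hTs, hTTc]
  set mainI := range S0 \ T with hmainI
  have hmI : mainI.card = S0 - n := by
    rw [hmainI, card_sdiff_of_subset hTs, card_range, hTTc]
  set main : Finset (Finset (V r)) := mainI.biUnion fam with hmain
  have hmm : ∀ C ∈ main, ∃ s < S0, s ∉ T ∧ C ∈ fam s := by
    intro C hC
    obtain ⟨s, hs, hCs⟩ := mem_biUnion.1 hC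
    rw [hmainI, mem_sdiff, mem_range] at hs
    exact ⟨s, hs.1, hs.2, hCs⟩
  have hmainU : main.biUnion id = mainI.biUnion G := by
    ext w
    rw [mem_biUnion, mem_biUnion]
    constructor
    · rintro ⟨C, hC, hw⟩
      obtain ⟨s, hs, hCs⟩ := mem_biUnion.1 hC
      exact ⟨s, hs, mem_biUnion.2 ⟨C, hCs, hw⟩⟩
    · rintro ⟨s, hs, hw⟩
      obtain ⟨C, hCs, hwC⟩ := mem_biUnion.1 hw
      exact ⟨C, mem_biUnion.2 ⟨s, hs, hCs⟩, hwC⟩
  have hmaindis : ∀ C ∈ main, ∀ C' ∈ main, ∀ w, w ∈ C → w ∈ C' → C = C' := by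
    intro C hC C' hC' w hw hw'
    obtain ⟨s, hs, -, hCs⟩ := hmm C hC
    obtain ⟨s', hs', -, hCs'⟩ := hmm C' hC'
    exact (hdis s hs s' hs' C hCs C' hCs' w hw hw').2
  have hmaincard : main.card * (r + 1) = (S0 - n) * γ := by
    have h1 : (main.biUnion id).card = main.card * (r + 1) := by
      rw [card_biUnion (fun C hC C' hC' hne => by
        rw [Function.onFun, disjoint_left]
        intro w hw hw'
        exact hne (hmaindis C hC C' hC' w hw hw')), sum_congr rfl (fun C hC => by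
          obtain ⟨s, hs, -, hCs⟩ := hmm C hC
          exact (show (id C).card = r + 1 from (hc s hs C hCs).2)), sum_const, smul_eq_mul]
    rw [← h1, hmainU, hUc mainI sdiff_subset, hmI]
  have hmainR : Disjoint (main.biUnion id) R := by
    rw [hmainU, disjoint_left]
    intro w hw hw'
    obtain ⟨s, hs, hws⟩ := mem_biUnion.1 hw
    obtain ⟨s', hs', hws'⟩ := mem_biUnion.1 hw'
    rw [hmainI, mem_sdiff, mem_range] at hs
    have hne : s ≠ s' := fun h => hs.2 (h ▸ hs')
    exact disjoint_left.1 (hGdis s hs.1 s' (mem_range.1 (hTs hs')) hne) hws hws'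
  have hz24 : 24 * ((R \ M).card + 3 * main.card) ≤ R.card := by
    rw [hRc]
    exact hnum1 _ _ htb (le_of_eq hmaincard)
  have hTPR : TP R ((R \ M).card + 3 * main.card) r :=
    hTP T hTs _ hz24 (by
      have h1 : (T.biUnion fun s => (fam s).biUnion id).card = n * γ := hRc
      rw [h1]
      exact hnum2)
  obtain ⟨DD, hD1, hD2, hD3, hD4, hD5⟩ := fix_all (by omega) hTPR main le_rfl (fun C hC => by
    obtain ⟨s, hs, -, hCs⟩ := hmm C hC
    refine ⟨(hc s hs C hCs).1, (hc s hs C hCs).2, ?_⟩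
    rw [disjoint_left]
    intro w hw hw'
    exact disjoint_left.1 hmainR (mem_biUnion.2 ⟨C, hC, hw⟩) hw') hmaindis
  obtain ⟨P, hP, hPc⟩ := assemble M h0 hs DD hD1 hD2 hD4
  -- the pool
  have hpool : (M \ DD.biUnion id).card + S0 * γ ≤ 2 ^ r + n * γ := by
    have h1 : M \ DD.biUnion id ⊆ (univ \ (main.biUnion id ∪ R))
        ∪ (((main.biUnion id ∩ M) \ DD.biUnion id) ∪ ((R ∩ M) \ (DD.biUnion id ∩ R))) := by
      intro w hw
      rw [mem_sdiff] at hw
      rw [mem_union, mem_union]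
      by_cases hm : w ∈ main.biUnion id
      · exact Or.inr (Or.inl (mem_sdiff.2 ⟨mem_inter.2 ⟨hm, hw.1⟩, hw.2⟩))
      · by_cases hR' : w ∈ R
        · exact Or.inr (Or.inr (mem_sdiff.2 ⟨mem_inter.2 ⟨hR', hw.1⟩,
            fun h => hw.2 (mem_inter.1 h).1⟩))
        · refine Or.inl (mem_sdiff.2 ⟨mem_univ _, fun h => ?_⟩)
          rcases mem_union.1 h with h2 | h2
          · exact hm h2
          · exact hR' h2
    have h2 := (card_le_card h1).trans ((card_union_le _ _).trans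
      (Nat.add_le_add_left (card_union_le _ _) _))
    have h3 : (univ \ (main.biUnion id ∪ R)).card + S0 * γ = 2 ^ r := by
      rw [card_sdiff_of_subset (subset_univ _), hVcard, card_union_of_disjoint hmainR]
      have h4 : (main.biUnion id).card + R.card = S0 * γ := by
        rw [hmainU, hUc mainI sdiff_subset, hmI, hRc, ← add_mul]
        congr 1
        have : n ≤ S0 := Nat.div_le_self _ _
        omega
      have h5 : (main.biUnion id).card + R.card ≤ 2 ^ r := by
        rw [← card_union_of_disjoint hmainR, ← hVcard]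
        exact card_le_card (subset_univ _)
      omega
    have h6 : ((R ∩ M) \ (DD.biUnion id ∩ R)).card + (DD.biUnion id ∩ R).card = (R ∩ M).card := by
      apply card_sdiff_add_card_eq_card
      intro w hw
      obtain ⟨h7, h8⟩ := mem_inter.1 hw
      obtain ⟨D, hD, hwD⟩ := mem_biUnion.1 h7
      exact mem_inter.2 ⟨h8, hD4 D hD hwD⟩
    have h7 : (R ∩ M).card ≤ n * γ := by
      rw [← hRc]
      exact card_le_card inter_subset_left
    omega
  refine ⟨P, hP, main.card, (M \ DD.biUnion id).card, hmaincard, hpool, ?_⟩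
  have h1 : (DD.card : ℝ) ≤ main.card := by exact_mod_cast hD3
  linarith

end Pool.Agent.H38.CE
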