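import Pool.Agent.H38.CE.Unif

set_option autoImplicit false
set_option linter.unusedSectionVars false

/-!
# The uniform bound: numbers
-/

namespace Pool.Agent.H38.CE

open Finset Pool.Agent.H38.CD

theorem fin_ineq {q R Lr T ng sg k p l e2 eE c : ℝ} (hR : 1600 ≤ R) (hL : 10 ≤ Lr)
    (hLR : 100 * (Lr + 1) ≤ R) (hT2 : R ≤ 160 * T + 160) (hsg : sg ≤ q)
    (hng : ng * T ≤ sg) (hng0 : 0 ≤ ng) (hk : k * (R + 1) = sg - ng) (hp : p + sg ≤ q + ng)
    (hq' : q ≤ sg + 2 * (R + 1) * eE) (he : 1024 * (R + 1) ^ 3 * eE ≤ q) (heE : 0 ≤ eE)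
    (he2 : e2 * R ^ 3 ≤ q) (he20 : 0 ≤ e2) (hl : l = R - 6 * (Lr + 1) - 2) (hq : 0 < q)
    (hp0 : 0 ≤ p) (hc : c ≤ k + (e2 / 3 + p / l)) :
    c * (R + 1) ≤ q * (1 + 1500 * Lr / R ^ 2) := by
  have hR0 : 0 < R := by linarith
  have hl93 : 93 / 100 * R ≤ l := by rw [hl]; linarith
  have hl0 : 0 < l := by linarith
  have hT9 : 9 / 1600 * R ≤ T := by linarith
  have hT0 : 0 < T := by linarith
  -- bound for `ng`
  have h1 : ng * (9 / 1600 * R) ≤ q := by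
    have := mul_le_mul_of_nonneg_left hT9 hng0
    linarith
  have h2 : ng * R ≤ 1600 / 9 * q := by linarith
  -- bound for the small term
  have h3 : 2 * (R + 1) * eE * R ≤ q := by
    have a1 : 2 * (R + 1) * eE * R ≤ 1024 * (R + 1) ^ 3 * eE := by
      have a2 : 2 * (R + 1) * R ≤ 1024 * (R + 1) ^ 3 := by nlinarith [sq_nonneg (R + 1)]
      calc 2 * (R + 1) * eE * R = (2 * (R + 1) * R) * eE := by ring
        _ ≤ (1024 * (R + 1) ^ 3) * eE := mul_le_mul_of_nonneg_right a2 heE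
    linarith
  have h3' : 2 * (R + 1) * eE * R ≤ 2 / 9 * q := by
    have a1 : 9 * (2 * (R + 1) * eE * R) ≤ 1024 * (R + 1) ^ 3 * eE := by
      have a2 : 9 * (2 * (R + 1) * R) ≤ 1024 * (R + 1) ^ 3 := by nlinarith [sq_nonneg (R + 1)]
      calc 9 * (2 * (R + 1) * eE * R) = (9 * (2 * (R + 1) * R)) * eE := by ring
        _ ≤ (1024 * (R + 1) ^ 3) * eE := mul_le_mul_of_nonneg_right a2 heE
    linarith
  have h4 : p * R ≤ 178 * q := by
    have a1 : p ≤ ng + 2 * (R + 1) * eE := by linarith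
    have a2 := mul_le_mul_of_nonneg_right a1 hR0.le
    have a3 : (ng + 2 * (R + 1) * eE) * R = ng * R + 2 * (R + 1) * eE * R := by ring
    linarith
  -- division by `l`
  have h5 : p / l * (R + 1) ≤ p + p * (7 * Lr) / (93 / 100 * R) := by
    have a1 : p / l * (R + 1) = p + p * (R + 1 - l) / l := by
      field_simp
      ring
    rw [a1]
    have a2 : p * (R + 1 - l) ≤ p * (7 * Lr) := by
      apply mul_le_mul_of_nonneg_left _ hp0
      rw [hl]; linarith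
    have a3 : 0 ≤ p * (7 * Lr) := by positivity
    have a4 : p * (R + 1 - l) / l ≤ p * (7 * Lr) / l := div_le_div_of_nonneg_right a2 hl0.le
    have a5 : p * (7 * Lr) / l ≤ p * (7 * Lr) / (93 / 100 * R) :=
      div_le_div_of_nonneg_left a3 (by positivity) hl93
    linarith
  have h6 : p * (7 * Lr) / (93 / 100 * R) ≤ q * (1400 * Lr) / R ^ 2 := by
    rw [div_le_div_iff₀ (by positivity) (by positivity)]
    have a1 : p * R * (7 * Lr * R) ≤ 178 * q * (7 * Lr * R) :=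
      mul_le_mul_of_nonneg_right h4 (by positivity)
    have a2 : 0 ≤ q * Lr * R := by positivity
    nlinarith
  have h7 : e2 / 3 * (R + 1) ≤ q * (10 * Lr) / R ^ 2 := by
    rw [le_div_iff₀ (by positivity)]
    have a1 : e2 / 3 * (R + 1) * R ^ 2 ≤ e2 * R ^ 3 := by
      have a2 : (R + 1) * R ^ 2 ≤ 3 * R ^ 3 := by nlinarith [sq_nonneg R, pow_pos hR0 3]
      have a3 := mul_le_mul_of_nonneg_left a2 he20
      calc e2 / 3 * (R + 1) * R ^ 2 = (e2 * ((R + 1) * R ^ 2)) / 3 := by ring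
        _ ≤ (e2 * (3 * R ^ 3)) / 3 := by linarith
        _ = e2 * R ^ 3 := by ring
    have a4 : q * 1 ≤ q * (10 * Lr) := mul_le_mul_of_nonneg_left (by linarith) hq.le
    linarith
  have h8 : c * (R + 1) ≤ (k + (e2 / 3 + p / l)) * (R + 1) :=
    mul_le_mul_of_nonneg_right hc (by linarith)
  have h9 : (k + (e2 / 3 + p / l)) * (R + 1) = k * (R + 1) + e2 / 3 * (R + 1)
      + p / l * (R + 1) := by ring
  have h10 : q * (1 + 1500 * Lr / R ^ 2) = q + q * (1400 * Lr) / R ^ 2 + q * (10 * Lr) / R ^ 2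
      + q * (90 * Lr) / R ^ 2 := by
    field_simp
    ring
  have h11 : 0 ≤ q * (90 * Lr) / R ^ 2 := by positivity
  rw [h10]
  linarith

theorem log_facts {r : ℕ} (hr : 1600 ≤ r) : 10 ≤ Nat.log 2 r ∧ 100 * (Nat.log 2 r + 1) ≤ r ∧
    2 ^ Nat.log 2 r ≤ r ∧ r < 2 ^ (Nat.log 2 r + 1) := by
  have h1 : 2 ^ Nat.log 2 r ≤ r := Nat.pow_log_le_self 2 (by omega)
  have h2 : r < 2 ^ (Nat.log 2 r + 1) := Nat.lt_pow_succ_log_self (by norm_num) r
  generalize Nat.log 2 r = l at *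
  have h10 : 10 ≤ l := by
    by_contra h
    have h3 : 2 ^ (l + 1) ≤ 2 ^ 10 := Nat.pow_le_pow_right (by norm_num) (by omega)
    norm_num at h3
    omega
  refine ⟨h10, ?_, h1, h2⟩
  rcases Nat.lt_or_ge l 15 with h3 | h3
  · omega
  · have h4 : ∀ m, 15 ≤ m → 100 * (m + 1) ≤ 2 ^ m := by
      intro m hm
      induction m, hm using Nat.le_induction with
      | base => norm_num
      | succ m hm ih =>
        rw [pow_succ]
        omega
    exact (h4 l h3).trans h1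

theorem two_pow_ge (b : ℕ) (hb : 14 ≤ b) : 5 * b + 6 ≤ 2 ^ b := by
  induction b, hb using Nat.le_induction with
  | base => norm_num
  | succ m hm ih =>
    rw [pow_succ]
    omega

theorem tiny {r : ℕ} (hr : 1600 ≤ r) :
    1024 * (r + 1) ^ 3 * 2 ^ ((4 * r + 6) / 5) ≤ 2 ^ r := by
  obtain ⟨h10, h100, h1, h2⟩ := log_facts hr
  have h3 : (r + 1) ^ 3 ≤ (2 ^ (Nat.log 2 r + 1)) ^ 3 := Nat.pow_le_pow_left h2 3
  calc 1024 * (r + 1) ^ 3 * 2 ^ ((4 * r + 6) / 5)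
      ≤ 1024 * (2 ^ (Nat.log 2 r + 1)) ^ 3 * 2 ^ ((4 * r + 6) / 5) :=
        Nat.mul_le_mul_right _ (Nat.mul_le_mul_left _ h3)
    _ = 2 ^ (10 + (Nat.log 2 r + 1) * 3 + (4 * r + 6) / 5) := by
        rw [← pow_mul, show (1024 : ℕ) = 2 ^ 10 by norm_num, ← pow_add, ← pow_add]
    _ ≤ 2 ^ r := Nat.pow_le_pow_right (by norm_num) (by omega)

theorem sparse_case {r : ℕ} (hr : 1600 ≤ r) (M : Finset (V r)) (h0 : (0 : V r) ∉ M)
    (hs : ∑ v ∈ M, v = 0) (hM : 22 * 2 ^ r ≤ r * (2 ^ r - M.card)) :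
    ∃ P : Finpartition M, IsDecomp P ∧ (P.parts.card : ℝ) * (r + 1) ≤ 2 ^ r := by
  classical
  obtain ⟨P, hP, hPc⟩ := assemble M h0 hs ∅ (by simp) (by simp) (by simp)
  refine ⟨P, hP, ?_⟩
  have hVcard : (univ : Finset (V r)).card = 2 ^ r := by
    rw [card_univ, Fintype.card_fun, ZMod.card, Fintype.card_fin]
  have hMlt : M.card < 2 ^ r := by
    rw [← hVcard]
    apply card_lt_card
    exact ⟨subset_univ _, fun h => h0 (h (mem_univ _))⟩
  simp only [card_empty, Nat.cast_zero, zero_add, biUnion_empty, sdiff_empty] at hPc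
  have h1 := hPc.trans (Phi_le (by omega) hMlt)
  have h2 : (22 : ℝ) * 2 ^ r ≤ r * (2 ^ r - M.card) := by
    have h3 : ((22 * 2 ^ r : ℕ) : ℝ) ≤ ((r * (2 ^ r - M.card) : ℕ) : ℝ) := by exact_mod_cast hM
    push_cast [Nat.cast_sub hMlt.le] at h3
    exact h3
  have hr' : (1600 : ℝ) ≤ r := by exact_mod_cast hr
  have hq : (0 : ℝ) < 2 ^ r := by positivity
  have hm0 : (0 : ℝ) ≤ M.card := Nat.cast_nonneg _
  generalize (P.parts.card : ℝ) = c at *
  generalize (M.card : ℝ) = m at *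
  generalize (2 : ℝ) ^ r = q at *
  generalize (r : ℝ) = x at *
  have hx : 0 < x - 4 := by linarith
  have h3 : c * (x - 4) ^ 2 ≤ m * (x - 4) + 16 * q := by
    have h4 : (m / (x - 4) + 16 * q / (x - 4) ^ 2) * (x - 4) ^ 2 = m * (x - 4) + 16 * q := by
      field_simp
    rw [← h4]
    exact mul_le_mul_of_nonneg_right h1 (by positivity)
  -- `m ≤ q (1 - 22 / x)`
  have h5 : m * x ≤ q * (x - 22) := by nlinarith
  have hgoal : c * (x + 1) * ((x - 4) ^ 2 * x) ≤ q * ((x - 4) ^ 2 * x) := by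
    have a1 : c * (x + 1) * ((x - 4) ^ 2 * x) ≤ (m * (x - 4) + 16 * q) * ((x + 1) * x) := by
      calc c * (x + 1) * ((x - 4) ^ 2 * x) = c * (x - 4) ^ 2 * ((x + 1) * x) := by ring
        _ ≤ _ := mul_le_mul_of_nonneg_right h3 (by nlinarith)
    have a2 : (m * (x - 4) + 16 * q) * ((x + 1) * x)
        = m * x * ((x - 4) * (x + 1)) + 16 * q * ((x + 1) * x) := by ring
    have a3 : m * x * ((x - 4) * (x + 1)) ≤ q * (x - 22) * ((x - 4) * (x + 1)) :=
      mul_le_mul_of_nonneg_right h5 (by nlinarith)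
    have a4 : q * (x - 22) * ((x - 4) * (x + 1)) + 16 * q * ((x + 1) * x)
        = q * ((x - 4) ^ 2 * x) - q * (x ^ 2 - 62 * x - 88) := by ring
    have a5 : 0 ≤ q * (x ^ 2 - 62 * x - 88) := mul_nonneg hq.le (by nlinarith)
    linarith
  exact le_of_mul_le_mul_right hgoal (by positivity)

/-- **The uniform bound.** -/
theorem uniform {r : ℕ} (hr : 1600 ≤ r) (M : Finset (V r)) (h0 : (0 : V r) ∉ M)
    (hs : ∑ v ∈ M, v = 0) :
    ∃ P : Finpartition M, IsDecomp P ∧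
      (P.parts.card : ℝ) * (r + 1) ≤ 2 ^ r * (1 + 1500 * (Nat.log 2 r : ℝ) / (r : ℝ) ^ 2) := by
  classical
  obtain ⟨h10, h100, hL1, hL2⟩ := log_facts hr
  have htiny := tiny hr
  have hVcard : (univ : Finset (V r)).card = 2 ^ r := by
    rw [card_univ, Fintype.card_fun, ZMod.card, Fintype.card_fin]
  have hMlt : M.card < 2 ^ r := by
    rw [← hVcard]
    apply card_lt_card
    exact ⟨subset_univ _, fun h => h0 (h (mem_univ _))⟩
  have hr' : (1600 : ℝ) ≤ r := by exact_mod_cast hr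
  have hL10 : (10 : ℝ) ≤ (Nat.log 2 r : ℝ) := by exact_mod_cast h10
  have hq0 : (0 : ℝ) < 2 ^ r := by positivity
  rcases Nat.lt_or_ge (r * (2 ^ r - M.card)) (22 * 2 ^ r) with hM | hM
  swap
  · obtain ⟨P, hP, hPc⟩ := sparse_case hr M h0 hs hM
    refine ⟨P, hP, hPc.trans ?_⟩
    have h1 : 0 ≤ 1500 * (Nat.log 2 r : ℝ) / (r : ℝ) ^ 2 := by positivity
    nlinarith
  obtain ⟨b, S0, γ, fam, hb14, hb5, hc, hdis, hγ, hγ2, hcard, hTP⟩ := exists_groupsV (r := r)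
    (by omega)
  set T0 := r / 160 with hT0
  have hT0a : 160 * T0 ≤ r := by omega
  have hT0b : r < 160 * T0 + 160 := by omega
  have hT0c : 10 ≤ T0 := by omega
  set n := S0 / T0 with hn
  have hnT : n * T0 ≤ S0 := Nat.div_mul_le_self _ _
  have hnT2 : S0 ≤ (n + 1) * T0 := by
    have := Nat.lt_div_mul_add (a := S0) (b := T0) (by omega)
    rw [← hn] at this
    rw [add_mul, one_mul]
    omega
  have hnS : n ≤ S0 := Nat.div_le_self _ _
  have hSγ : S0 * γ ≤ 2 ^ r := by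
    have h1 : ((range S0).biUnion fun s => (fam s).biUnion id).card = S0 * γ := by
      rw [card_biUnion (fun s hs s' hs' hne => by
        rw [Function.onFun, disjoint_left]
        intro w hw hw'
        obtain ⟨C, hC, hwC⟩ := mem_biUnion.1 hw
        obtain ⟨C', hC', hwC'⟩ := mem_biUnion.1 hw'
        exact hne (hdis s (mem_range.1 hs) s' (mem_range.1 hs') C hC C' hC' w hwC hwC').1),
        sum_congr rfl (fun s hs => hγ s (mem_range.1 hs)), sum_const, card_range, smul_eq_mul]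
    rw [← h1, ← hVcard]
    exact card_le_card (subset_univ _)
  -- real numbers
  have r1 : (n : ℝ) * γ * T0 ≤ S0 * γ := by
    have : ((n * T0 * γ : ℕ) : ℝ) ≤ ((S0 * γ : ℕ) : ℝ) := by
      exact_mod_cast Nat.mul_le_mul_right γ hnT
    push_cast at this
    linarith
  have r2 : (S0 : ℝ) * γ ≤ n * γ * T0 + T0 * γ := by
    have : ((S0 * γ : ℕ) : ℝ) ≤ (((n + 1) * T0 * γ : ℕ) : ℝ) := by
      exact_mod_cast Nat.mul_le_mul_right γ hnT2
    push_cast at this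
    linarith
  have r3 : (S0 : ℝ) * γ ≤ 2 ^ r := by exact_mod_cast hSγ
  have r4 : (2 : ℝ) ^ r ≤ S0 * γ + 2 * (r + 1) * 2 ^ ((4 * r + 6) / 5) := by exact_mod_cast hcard
  have r5 : (γ : ℝ) ≤ 2 * (r + 1) * 2 ^ ((4 * r + 6) / 5) := by exact_mod_cast hγ2
  have r6 : (1024 : ℝ) * (r + 1) ^ 3 * 2 ^ ((4 * r + 6) / 5) ≤ 2 ^ r := by exact_mod_cast htiny
  have r7 : (160 : ℝ) * T0 ≤ r := by exact_mod_cast hT0a
  have r8 : (r : ℝ) ≤ 160 * T0 + 160 := by exact_mod_cast hT0b.le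
  have r9 : (0 : ℝ) ≤ n * γ := by positivity
  have hT0pos : (0 : ℝ) < T0 := by
    have : (10 : ℝ) ≤ T0 := by exact_mod_cast hT0c
    linarith
  have heE : (0 : ℝ) ≤ 2 ^ ((4 * r + 6) / 5) := by positivity
  -- the blocks are large
  have big : 99 / 100 * (2 : ℝ) ^ r ≤ n * γ * T0 := by
    have a1 : (T0 : ℝ) * γ ≤ r / 160 * (2 * (r + 1) * 2 ^ ((4 * r + 6) / 5)) := by
      apply mul_le_mul _ r5 (Nat.cast_nonneg _) (by positivity)
      linarith
    have a2 : r / 160 * (2 * ((r : ℝ) + 1) * 2 ^ ((4 * r + 6) / 5))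
        + 2 * (r + 1) * 2 ^ ((4 * r + 6) / 5) ≤ 1 / 100 * (2 ^ r) := by
      have a3 : (r : ℝ) / 160 * (2 * (r + 1)) + 2 * (r + 1) ≤ 1 / 100 * (1024 * (r + 1) ^ 3) := by
        nlinarith [sq_nonneg (r : ℝ), pow_pos (by linarith : (0 : ℝ) < r) 3]
      calc r / 160 * (2 * ((r : ℝ) + 1) * 2 ^ ((4 * r + 6) / 5))
          + 2 * (r + 1) * 2 ^ ((4 * r + 6) / 5)
          = ((r : ℝ) / 160 * (2 * (r + 1)) + 2 * (r + 1)) * 2 ^ ((4 * r + 6) / 5) := by ring
        _ ≤ (1 / 100 * (1024 * (r + 1) ^ 3)) * 2 ^ ((4 * r + 6) / 5) :=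
            mul_le_mul_of_nonneg_right a3 heE
        _ = 1 / 100 * (1024 * (r + 1) ^ 3 * 2 ^ ((4 * r + 6) / 5)) := by ring
        _ ≤ 1 / 100 * (2 ^ r) := by linarith
    linarith
  have hnum1 : ∀ x k : ℕ, T0 * x ≤ 2 ^ r - M.card → k * (r + 1) ≤ (S0 - n) * γ →
      24 * (x + 3 * k) ≤ n * γ := by
    intro x k hx hk
    have b1 : (r : ℝ) * (T0 * x) ≤ 22 * 2 ^ r := by
      have : ((r * (T0 * x) : ℕ) : ℝ) ≤ ((22 * 2 ^ r : ℕ) : ℝ) := by
        exact_mod_cast (Nat.mul_le_mul_left r hx).trans hM.le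
      push_cast at this
      exact this
    have b2 : (k : ℝ) * (r + 1) ≤ 2 ^ r := by
      have h1 : k * (r + 1) ≤ 2 ^ r :=
        hk.trans ((Nat.mul_le_mul_right γ (Nat.sub_le _ _)).trans hSγ)
      exact_mod_cast h1
    have b3 : (24 : ℝ) * (x + 3 * k) ≤ n * γ := by
      have hx0 : (0 : ℝ) ≤ x := Nat.cast_nonneg _
      have hk0 : (0 : ℝ) ≤ k := Nat.cast_nonneg _
      have hr0 : (0 : ℝ) < r := by linarith
      have c1 : 24 * ((x : ℝ) + 3 * k) * (T0 * r) ≤ n * γ * (T0 * r) := by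
        have d1 : 24 * ((x : ℝ) + 3 * k) * (T0 * r) = 24 * (r * (T0 * x)) + 72 * (k * r) * T0 := by
          ring
        have d2 : (k : ℝ) * r ≤ 2 ^ r := by linarith
        have d3 : 72 * ((k : ℝ) * r) * T0 ≤ 72 * 2 ^ r * (r / 160) := by
          apply mul_le_mul (by linarith) (by linarith) hT0pos.le (by positivity)
        have d4 : (n : ℝ) * γ * (T0 * r) = n * γ * T0 * r := by ring
        have d5 : 99 / 100 * (2 : ℝ) ^ r * r ≤ n * γ * T0 * r :=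
          mul_le_mul_of_nonneg_right big hr0.le
        have d6 : 528 * (2 : ℝ) ^ r ≤ 33 / 100 * (2 ^ r * r) := by nlinarith
        rw [d1, d4]
        linarith
      exact le_of_mul_le_mul_right c1 (by positivity)
    exact_mod_cast b3
  have hnum2 : 40 * 2 ^ r ≤ n * γ * 2 ^ b := by
    have h2b : r ≤ 2 ^ b := hb5.trans (two_pow_ge b hb14)
    have c1 : (r : ℝ) ≤ 2 ^ b := by exact_mod_cast h2b
    have c2 : (40 : ℝ) * 2 ^ r ≤ n * γ * 2 ^ b := by
      have c3 : 40 * (2 : ℝ) ^ r * T0 ≤ n * γ * 2 ^ b * T0 := by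
        have d1 : 40 * (2 : ℝ) ^ r * T0 ≤ 40 * 2 ^ r * (r / 160) :=
          mul_le_mul_of_nonneg_left (by linarith) (by positivity)
        have d2 : (n : ℝ) * γ * 2 ^ b * T0 = n * γ * T0 * 2 ^ b := by ring
        have d3 : 99 / 100 * (2 : ℝ) ^ r * 2 ^ b ≤ n * γ * T0 * 2 ^ b :=
          mul_le_mul_of_nonneg_right big (by positivity)
        have d4 : 99 / 100 * (2 : ℝ) ^ r * r ≤ 99 / 100 * 2 ^ r * 2 ^ b :=
          mul_le_mul_of_nonneg_left c1 (by positivity)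
        rw [d2]
        nlinarith
      exact le_of_mul_le_mul_right c3 hT0pos
    exact_mod_cast c2
  obtain ⟨P, hP, k, p, hk, hp, hPc⟩ := uniform_core (by omega) M h0 hs fam hc hdis hγ hTP
    (show 1 ≤ T0 by omega) hnum1 hnum2
  refine ⟨P, hP, ?_⟩
  have hE2 : Nat.log 2 (2 ^ (r - 3 * (Nat.log 2 r + 1))) = r - 3 * (Nat.log 2 r + 1) :=
    Nat.log_pow (by norm_num) _
  have hlT : ((r : ℝ) - 6 * (Nat.log 2 r + 1) - 2) ≤ (L r (2 ^ (r - 3 * (Nat.log 2 r + 1))) : ℝ) := by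
    have h3 : r ≤ L r (2 ^ (r - 3 * (Nat.log 2 r + 1))) + 6 * (Nat.log 2 r + 1) + 2 := by
      unfold L
      rw [hE2]
      omega
    have h4 : (r : ℝ) ≤ (L r (2 ^ (r - 3 * (Nat.log 2 r + 1))) : ℝ) + 6 * (Nat.log 2 r + 1) + 2 := by
      exact_mod_cast h3
    linarith
  have h100' : 100 * ((Nat.log 2 r : ℝ) + 1) ≤ r := by exact_mod_cast h100
  have hPhi := Phi_split (m := p) (by linarith) hlT
  rw [Nat.cast_pow, Nat.cast_ofNat] at hPhi
  have he2 : (2 : ℝ) ^ (r - 3 * (Nat.log 2 r + 1)) * (r : ℝ) ^ 3 ≤ 2 ^ r := by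
    have h3 : (r : ℝ) ≤ 2 ^ (Nat.log 2 r + 1) := by exact_mod_cast hL2.le
    have h4 : (r : ℝ) ^ 3 ≤ (2 ^ (Nat.log 2 r + 1)) ^ 3 := pow_le_pow_left₀ (by linarith) h3 3
    calc (2 : ℝ) ^ (r - 3 * (Nat.log 2 r + 1)) * (r : ℝ) ^ 3
        ≤ (2 : ℝ) ^ (r - 3 * (Nat.log 2 r + 1)) * (2 ^ (Nat.log 2 r + 1)) ^ 3 :=
          mul_le_mul_of_nonneg_left h4 (by positivity)
      _ = 2 ^ r := by
          rw [← pow_mul, ← pow_add]
          congr 1
          omega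
  have hkr : (k : ℝ) * (r + 1) = S0 * γ - n * γ := by
    have : ((k * (r + 1) : ℕ) : ℝ) = (((S0 - n) * γ : ℕ) : ℝ) := by rw [hk]
    push_cast [Nat.cast_sub hnS] at this
    rw [this]; ring
  have hpr : (p : ℝ) + S0 * γ ≤ 2 ^ r + n * γ := by exact_mod_cast hp
  exact fin_ineq (q := 2 ^ r) (R := r) (Lr := Nat.log 2 r) (T := T0) (ng := n * γ) (sg := S0 * γ)
    (k := k) (p := p) (l := (r : ℝ) - 6 * (Nat.log 2 r + 1) - 2)
    (e2 := 2 ^ (r - 3 * (Nat.log 2 r + 1))) (eE := 2 ^ ((4 * r + 6) / 5)) hr' hL10 h100' r8 r3 r1 r9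
    hkr hpr r4 r6 heE he2 (by positivity) rfl hq0 (Nat.cast_nonneg _) (by linarith)

end Pool.Agent.H38.CE
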